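import Mathlib

set_option autoImplicit false

open Polynomial

namespace Pool.Agent.Lib_helper30.AA

/-- Markov inequality at the right end point of `[-1,1]`. -/
lemma markov_endpoint {n : ℕ} {P : ℝ[X]} (hdeg : P.degree ≤ n)
    (hb : ∀ x ∈ Set.Icc (-1 : ℝ) 1, |P.eval x| ≤ 1) : |P.derivative.eval 1| ≤ (n : ℝ) ^ 2 := by
  have hT : (derivative^[1] (Chebyshev.T ℝ n)).eval 1 = (n : ℝ) ^ 2 := by
    simp [Chebyshev.derivative_T_eval_one]
  have h1 := Chebyshev.eval_iterate_derivative_le_of_forall_abs_le_one (k := 1) (x := 1)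
    le_rfl hdeg hb
  have h2 := Chebyshev.eval_iterate_derivative_le_of_forall_abs_le_one (P := -P) (k := 1) (x := 1)
    le_rfl (by simpa using hdeg) (by simpa using hb)
  rw [hT] at h1 h2
  simp only [Function.iterate_one, derivative_neg, eval_neg] at h1 h2
  rw [abs_le]
  constructor <;> linarith

/-- Markov inequality at one end point `c` of a segment with other end point `a`
(no order between `a` and `c` is assumed). -/
lemma markov_segment {n : ℕ} {P : ℝ[X]} (hdeg : P.natDegree ≤ n) {a c B : ℝ} (hB : 0 < B)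
    (hac : a ≠ c) (hb : ∀ x ∈ Set.uIcc a c, |P.eval x| ≤ B) :
    |P.derivative.eval c| ≤ (n : ℝ) ^ 2 * (2 / |c - a|) * B := by
  set Q : ℝ[X] := C B⁻¹ * P.comp (C ((c - a) / 2) * X + C ((c + a) / 2)) with hQ
  have hQev : ∀ x, Q.eval x = B⁻¹ * P.eval ((c - a) / 2 * x + (c + a) / 2) := by
    intro x; simp [hQ]
  have hQdeg : Q.degree ≤ n := by
    rw [← natDegree_le_iff_degree_le]
    calc Q.natDegree ≤ (P.comp (C ((c - a) / 2) * X + C ((c + a) / 2))).natDegree :=
          natDegree_C_mul_le _ _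
      _ ≤ P.natDegree * (C ((c - a) / 2) * X + C ((c + a) / 2)).natDegree := natDegree_comp_le
      _ ≤ P.natDegree * 1 := by
          gcongr
          exact natDegree_linear_le
      _ ≤ n := by simpa using hdeg
  have hQb : ∀ x ∈ Set.Icc (-1 : ℝ) 1, |Q.eval x| ≤ 1 := by
    intro x hx
    rw [hQev, abs_mul, abs_of_pos (inv_pos.mpr hB)]
    have hmem : (c - a) / 2 * x + (c + a) / 2 ∈ Set.uIcc a c := by
      rw [Set.mem_uIcc]
      rcases le_total a c with h | h
      · left
        constructor <;> nlinarith [hx.1, hx.2]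
      · right
        constructor <;> nlinarith [hx.1, hx.2]
    have := hb _ hmem
    calc B⁻¹ * |P.eval ((c - a) / 2 * x + (c + a) / 2)| ≤ B⁻¹ * B := by gcongr
      _ = 1 := inv_mul_cancel₀ hB.ne'
  have hder : Q.derivative.eval 1 = B⁻¹ * ((c - a) / 2) * P.derivative.eval c := by
    have h1 : (c - a) / 2 + (c + a) / 2 = c := by ring
    simp only [hQ, derivative_mul, derivative_C, zero_mul, zero_add, derivative_comp,
      derivative_add, derivative_X, mul_one, add_zero, eval_mul, eval_C, eval_comp, eval_add,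
      eval_X, h1]
    rw [mul_assoc]
  have hmain := markov_endpoint hQdeg hQb
  rw [hder, abs_mul, abs_mul, abs_of_pos (inv_pos.mpr hB), abs_div,
    abs_of_pos (by norm_num : (0 : ℝ) < 2)] at hmain
  have hca : 0 < |c - a| := abs_pos.mpr (sub_ne_zero.mpr hac.symm)
  have h3 : |eval c (derivative P)| =
      (B⁻¹ * (|c - a| / 2) * |eval c (derivative P)|) * (2 / |c - a|) * B := by
    field_simp
  rw [h3]
  gcongr

/-- Markov inequality inside an interval `[0,U]`, with a factor `2` lost. -/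
lemma markov_interval {n : ℕ} {P : ℝ[X]} (hdeg : P.natDegree ≤ n) {U B : ℝ} (hU : 0 < U)
    (hB : 0 < B) (hb : ∀ x ∈ Set.Icc 0 U, |P.eval x| ≤ B) {t : ℝ} (ht : t ∈ Set.Icc 0 U) :
    |P.derivative.eval t| ≤ 4 * (n : ℝ) ^ 2 * B / U := by
  rcases le_total t (U / 2) with h | h
  · have := markov_segment hdeg (a := U) (c := t) hB (by intro h'; linarith)
      (by
        intro x hx
        rw [Set.mem_uIcc] at hx
        apply hb
        rcases hx with hx | hx
        · constructor <;> linarith [ht.1, ht.2, hx.1, hx.2]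
        · constructor <;> linarith [ht.1, ht.2, hx.1, hx.2])
    refine this.trans ?_
    have h1 : U / 2 ≤ |t - U| := by
      rw [abs_sub_comm, abs_of_nonneg (by linarith)]; linarith
    have h2 : 2 / |t - U| ≤ 4 / U := by
      rw [div_le_div_iff₀ (by linarith) hU]; linarith
    calc (n : ℝ) ^ 2 * (2 / |t - U|) * B ≤ (n : ℝ) ^ 2 * (4 / U) * B := by gcongr
      _ = 4 * (n : ℝ) ^ 2 * B / U := by ring
  · have := markov_segment hdeg (a := 0) (c := t) hB (by intro h'; linarith)
      (by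
        intro x hx
        rw [Set.mem_uIcc] at hx
        apply hb
        rcases hx with hx | hx
        · constructor <;> linarith [ht.1, ht.2, hx.1, hx.2]
        · constructor <;> linarith [ht.1, ht.2, hx.1, hx.2])
    refine this.trans ?_
    have h1 : U / 2 ≤ |t - 0| := by
      rw [sub_zero, abs_of_nonneg ht.1]; linarith
    have h2 : 2 / |t - 0| ≤ 4 / U := by
      rw [div_le_div_iff₀ (by linarith) hU]; linarith
    calc (n : ℝ) ^ 2 * (2 / |t - 0|) * B ≤ (n : ℝ) ^ 2 * (4 / U) * B := by gcongr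
      _ = 4 * (n : ℝ) ^ 2 * B / U := by ring

/-- Lipschitz form. -/
lemma markov_lipschitz {n : ℕ} {P : ℝ[X]} (hdeg : P.natDegree ≤ n) {U B : ℝ} (hU : 0 < U)
    (hB : 0 < B) (hb : ∀ x ∈ Set.Icc 0 U, |P.eval x| ≤ B) {s t : ℝ} (hs : s ∈ Set.Icc 0 U)
    (ht : t ∈ Set.Icc 0 U) :
    |P.eval t - P.eval s| ≤ 4 * (n : ℝ) ^ 2 * B / U * |t - s| := by
  have := Convex.norm_image_sub_le_of_norm_deriv_le (f := fun x => P.eval x) (s := Set.Icc 0 U)
    (C := 4 * (n : ℝ) ^ 2 * B / U) (x := s) (y := t)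
    (fun x _ => P.differentiableAt)
    (fun x hx => by
      rw [Polynomial.deriv]
      exact markov_interval hdeg hU hB hb hx)
    (convex_Icc 0 U) hs ht
  simpa [Real.norm_eq_abs] using this

/-- The analytic lemma: a polynomial of degree at most `D` which is bounded by `1` at all the
points `1/r`, `1 ≤ r ≤ m`, is almost constant near `0`. -/
lemma near_zero {D m : ℕ} (hD : 1 ≤ D) (hm : 64 * D ^ 4 ≤ m) {P : ℝ[X]} (hdeg : P.natDegree ≤ D)
    (hb : ∀ r : ℕ, 1 ≤ r → r ≤ m → |P.eval (1 / (r : ℝ))| ≤ 1) {r : ℕ} (hr : 8 * D ^ 2 ≤ r) :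
    |P.eval 0 - P.eval (1 / (r : ℝ))| ≤ 64 * (D : ℝ) ^ 4 / r := by
  have hD' : (1 : ℝ) ≤ D := by exact_mod_cast hD
  have hm' : 64 * (D : ℝ) ^ 4 ≤ m := by exact_mod_cast hm
  have hr' : 8 * (D : ℝ) ^ 2 ≤ r := by exact_mod_cast hr
  have hD4 : (1 : ℝ) ≤ (D : ℝ) ^ 4 := one_le_pow₀ hD'
  have hD2 : (1 : ℝ) ≤ (D : ℝ) ^ 2 := one_le_pow₀ hD'
  have hmpos : (0 : ℝ) < m := by linarith
  have hrpos : (0 : ℝ) < r := by linarith
  set U : ℝ := 1 / (8 * (D : ℝ) ^ 2) with hU
  have hUpos : 0 < U := by positivity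
  -- the sup of |P| on [0,U]
  obtain ⟨x₀, hx₀, hmax⟩ := (isCompact_Icc (a := (0 : ℝ)) (b := U)).exists_isMaxOn
    ⟨0, by constructor <;> linarith⟩ (f := fun x => |P.eval x|)
    (by fun_prop)
  set B : ℝ := |P.eval x₀| with hBdef
  have hle : ∀ x ∈ Set.Icc 0 U, |P.eval x| ≤ B := fun x hx => hmax hx
  -- B ≤ 2
  have hB2 : B ≤ 2 := by
    by_contra hcon
    push Not at hcon
    have hBpos : 0 < B := by linarith
    -- find r₁ with 1/r₁ close to x₀
    have hex : ∃ r₁ : ℕ, 1 ≤ r₁ ∧ r₁ ≤ m ∧ 1 / (r₁ : ℝ) ∈ Set.Icc 0 U ∧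
        |x₀ - 1 / (r₁ : ℝ)| ≤ U ^ 2 := by
      rcases le_or_gt x₀ (1 / (m : ℝ)) with h | h
      · refine ⟨m, by
            have : (1 : ℝ) ≤ m := by linarith
            exact_mod_cast this, le_rfl, ⟨by positivity, ?_⟩, ?_⟩
        · rw [hU]
          apply one_div_le_one_div_of_le (by positivity)
          nlinarith
        · rw [abs_sub_comm, abs_of_nonneg (by linarith)]
          have h1 : 1 / (m : ℝ) ≤ U ^ 2 := by
            rw [hU, div_pow, one_pow]
            apply one_div_le_one_div_of_le (by positivity)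
            nlinarith
          linarith [hx₀.1]
      · have hx₀pos : 0 < x₀ := lt_trans (by positivity) h
        refine ⟨⌈1 / x₀⌉₊, ?_, ?_, ?_, ?_⟩
        · rw [Nat.one_le_ceil_iff]; positivity
        · rw [Nat.ceil_le]
          rw [div_le_iff₀ hx₀pos]
          rw [div_lt_iff₀ hmpos] at h
          linarith
        · have h1 : 1 / x₀ ≤ (⌈1 / x₀⌉₊ : ℝ) := Nat.le_ceil _
          have h0 : 0 < 1 / x₀ := by positivity
          refine ⟨by positivity, ?_⟩
          calc 1 / (⌈1 / x₀⌉₊ : ℝ) ≤ 1 / (1 / x₀) := by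
                apply one_div_le_one_div_of_le h0 h1
            _ = x₀ := by simp
            _ ≤ U := hx₀.2
        · have h1 : 1 / x₀ ≤ (⌈1 / x₀⌉₊ : ℝ) := Nat.le_ceil _
          have h2 : (⌈1 / x₀⌉₊ : ℝ) < 1 / x₀ + 1 := Nat.ceil_lt_add_one (by positivity)
          have h0 : 0 < 1 / x₀ := by positivity
          set N : ℝ := (⌈1 / x₀⌉₊ : ℝ) with hN
          have hNpos : 0 < N := lt_of_lt_of_le h0 h1
          have h3 : 1 / N ≤ x₀ := by
            calc 1 / N ≤ 1 / (1 / x₀) := one_div_le_one_div_of_le h0 h1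
              _ = x₀ := by simp
          rw [abs_of_nonneg (by linarith)]
          have h4 : x₀ * N < 1 + x₀ := by
            calc x₀ * N < x₀ * (1 / x₀ + 1) := by gcongr
              _ = 1 + x₀ := by field_simp
          have h5 : x₀ - 1 / N ≤ x₀ ^ 2 := by
            rw [sub_le_iff_le_add, ← sub_le_iff_le_add']
            have h6 : 1 ≤ x₀ * N := by
              calc 1 = x₀ * (1 / x₀) := by field_simp
                _ ≤ x₀ * N := by gcongr
            rw [le_div_iff₀ hNpos]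
            nlinarith
          calc x₀ - 1 / N ≤ x₀ ^ 2 := h5
            _ ≤ U ^ 2 := by
              have := hx₀.2
              gcongr
    obtain ⟨r₁, h1, h2, h3, h4⟩ := hex
    have hL := markov_lipschitz hdeg hUpos hBpos hle h3 hx₀
    have h5 : B ≤ 1 + 4 * (D : ℝ) ^ 2 * B / U * U ^ 2 := by
      calc B = |P.eval (1 / (r₁ : ℝ)) + (P.eval x₀ - P.eval (1 / (r₁ : ℝ)))| := by
            rw [hBdef]; congr 1; ring
        _ ≤ |P.eval (1 / (r₁ : ℝ))| + |P.eval x₀ - P.eval (1 / (r₁ : ℝ))| := abs_add_le _ _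
        _ ≤ 1 + 4 * (D : ℝ) ^ 2 * B / U * |x₀ - 1 / (r₁ : ℝ)| := by
            gcongr
            exact hb r₁ h1 h2
        _ ≤ 1 + 4 * (D : ℝ) ^ 2 * B / U * U ^ 2 := by
            gcongr
    have h6 : 4 * (D : ℝ) ^ 2 * B / U * U ^ 2 = B / 2 := by
      rw [hU]; field_simp; norm_num
    rw [h6] at h5
    linarith
  have hle2 : ∀ x ∈ Set.Icc 0 U, |P.eval x| ≤ 2 := fun x hx => (hle x hx).trans hB2
  have hrU : 1 / (r : ℝ) ∈ Set.Icc 0 U := by
    refine ⟨by positivity, ?_⟩
    rw [hU]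
    exact one_div_le_one_div_of_le (by positivity) hr'
  have hL := markov_lipschitz hdeg hUpos (by norm_num : (0 : ℝ) < 2) hle2 hrU
    (t := 0) ⟨le_rfl, hUpos.le⟩
  refine hL.trans (le_of_eq ?_)
  rw [zero_sub, abs_neg, abs_of_pos (by positivity), hU]
  field_simp
  norm_num

end Pool.Agent.Lib_helper30.AA
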