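import Pool.Agent.Lib_helper30.AA.Degree

set_option autoImplicit false
set_option linter.unusedSectionVars false

open Finset Polynomial

namespace Pool.Agent.Lib_helper30.AA

variable {I : Type} [Fintype I] [DecidableEq I]

/-- The block of coordinates number `v`. -/
def blk {k : ℕ} (κ : I → Fin k) (v : Fin k) : Finset I := Finset.univ.filter (fun i => κ i = v)

lemma mem_blk {k : ℕ} {κ : I → Fin k} {v : Fin k} {i : I} : i ∈ blk κ v ↔ κ i = v := by
  simp [blk]

/-- The univariate polynomial obtained by fixing all the linear forms but one. -/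
noncomputable def uni {k : ℕ} (κ : I → Fin k) (a : I → ℝ) (F : MvPolynomial (Fin k) ℝ)
    (v : Fin k) (x : I → Bool) : ℝ[X] :=
  MvPolynomial.aeval (fun u => if u = v then (X : ℝ[X]) else C (lin a (blk κ u) x)) F

lemma uni_natDegree {k : ℕ} (κ : I → Fin k) (a : I → ℝ) (F : MvPolynomial (Fin k) ℝ)
    (v : Fin k) (x : I → Bool) : (uni κ a F v x).natDegree ≤ F.degreeOf v := by
  unfold uni
  rw [MvPolynomial.aeval_def, MvPolynomial.eval₂_eq']
  refine natDegree_sum_le_of_forall_le _ _ fun m hm => ?_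
  refine (natDegree_mul_le).trans ?_
  have h1 : (algebraMap ℝ ℝ[X] (MvPolynomial.coeff m F)).natDegree = 0 := natDegree_C _
  rw [h1, zero_add]
  refine (natDegree_prod_le _ _).trans ?_
  refine le_trans (le_of_eq ?_) (MvPolynomial.monomial_le_degreeOf v hm)
  rw [Finset.sum_eq_single v]
  · simp
  · intro u _ huv
    simp only [huv, if_false]
    rw [← C_pow, natDegree_C]
  · intro h
    exact absurd (Finset.mem_univ v) h

lemma uni_dep {k : ℕ} (κ : I → Fin k) (a : I → ℝ) (F : MvPolynomial (Fin k) ℝ)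
    (v : Fin k) {x y : I → Bool} (h : ∀ i ∉ blk κ v, x i = y i) :
    uni κ a F v x = uni κ a F v y := by
  unfold uni
  congr 2
  funext u
  split_ifs with huv
  · rfl
  · congr 1
    apply lin_congr
    intro i hi
    apply h
    rw [mem_blk] at hi ⊢
    rw [hi]
    exact huv

lemma uni_eval {k : ℕ} (κ : I → Fin k) (a : I → ℝ) (F : MvPolynomial (Fin k) ℝ)
    (v : Fin k) (x : I → Bool) :
    (uni κ a F v x).eval (lin a (blk κ v) x) =
      MvPolynomial.eval (fun u => lin a (blk κ u) x) F := by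
  unfold uni
  rw [← coe_evalRingHom, MvPolynomial.map_aeval, MvPolynomial.eval]
  congr 1
  · congr 1
    · ext r
      simp
    · funext u
      split_ifs with h
      · subst h; simp
      · simp

lemma sum_biUnion_le_sum {α β : Type} [DecidableEq β] (s : Finset α) (t : α → Finset β)
    {g : β → ℝ} (hg : ∀ b, 0 ≤ g b) : ∑ b ∈ s.biUnion t, g b ≤ ∑ v ∈ s, ∑ b ∈ t v, g b := by
  classical
  induction s using Finset.induction_on with
  | empty => simp
  | insert v s hv ih =>
    rw [Finset.biUnion_insert, Finset.sum_insert hv]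
    calc ∑ b ∈ t v ∪ s.biUnion t, g b
        ≤ ∑ b ∈ t v ∪ s.biUnion t, g b + ∑ b ∈ t v ∩ s.biUnion t, g b :=
          le_add_of_nonneg_right (Finset.sum_nonneg fun b _ => hg b)
      _ = ∑ b ∈ t v, g b + ∑ b ∈ s.biUnion t, g b := Finset.sum_union_inter
      _ ≤ _ := by linarith

theorem ridge_fourier {k : ℕ} [Nonempty I] (κ : I → Fin k) (a : I → ℝ)
    (F : MvPolynomial (Fin k) ℝ) (f : (I → Bool) → ℝ)
    (hfF : ∀ x, f x = MvPolynomial.eval (fun u => lin a (blk κ u) x) F)
    (hf : ∀ x, |f x| ≤ 1) (d : ℕ) (hd : 1 ≤ d)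
    (hF : ∀ v, F.degreeOf v ≤ max d ((blk κ v).filter (fun i => a i ≠ 0)).card)
    (hdeg : ∀ S : Finset I, d < S.card → coef f S = 0) {η : ℝ} (hη : 0 < η)
    (hηeq : η = ∑ S ∈ (Finset.univ : Finset (Finset I)).filter (fun S => S.Nonempty),
      coef f S ^ 2) :
    ∃ j : I, η ^ 7 / (2 ^ 28 * (k : ℝ) ^ 7 * (d : ℝ) ^ 10) ≤
      ∑ S ∈ (Finset.univ : Finset (Finset I)).filter (fun S => j ∈ S), coef f S ^ 2 := by
  classical
  have hη1 : η ≤ 1 := by
    rw [hηeq]
    simpa using sum_coef_sq_le hf _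
  have hd' : (1 : ℝ) ≤ d := by exact_mod_cast hd
  have hkpos : 0 < k := by
    obtain ⟨i⟩ := (inferInstance : Nonempty I)
    exact Fin.pos (κ i)
  have hk : (1 : ℝ) ≤ k := by exact_mod_cast hkpos
  -- degrees of the univariate restrictions
  have hunideg : ∀ v x, (uni κ a F v x).natDegree ≤ d := by
    intro v x
    rcases le_or_gt (F.degreeOf v) d with h | h
    · exact (uni_natDegree κ a F v x).trans h
    · have h0 : F.degreeOf v ≤ ((blk κ v).filter (fun i => a i ≠ 0)).card := by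
        rcases le_max_iff.1 (hF v) with h1 | h1
        · omega
        · exact h1
      refine natDegree_le_of_coef (a := a) (V := blk κ v)
        ((uni_natDegree κ a F v x).trans h0) ?_
      intro S hS
      have h1 : (fun z => (uni κ a F v x).eval (lin a (blk κ v) z)) =
          fun z => f (mix (blk κ v) x z) := by
        funext z
        rw [hfF, ← uni_eval κ a F v]
        congr 1
        · apply lin_congr
          intro i hi
          simp [mix, hi]
        · apply uni_dep
          intro i hi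
          simp [mix, hi]
      rw [h1]
      exact coef_mix_eq_zero hdeg hS
  set ε : ℝ := η / (2 * k) with hε
  have hε0 : 0 < ε := by positivity
  have hε1 : ε ≤ 1 := by
    rw [hε, div_le_one (by positivity)]
    linarith
  have hblock : ∀ v : Fin k, ∃ J ⊆ blk κ v, (J.card : ℝ) ≤ 2 ^ 21 * (d : ℝ) ^ 10 / ε ^ 6 ∧
      ∑ S ∈ (Finset.univ : Finset (Finset I)).filter (fun S => ¬ Disjoint S (blk κ v \ J)),
        coef f S ^ 2 ≤ ε := by
    intro v
    refine block (a := a) (V := blk κ v) (Pc := uni κ a F v) hf hd (hunideg v) ?_ ?_ hε0 hε1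
    · intro x y hxy
      exact uni_dep κ a F v hxy
    · intro x
      rw [hfF, ← uni_eval κ a F v]
  choose J hJ1 hJ2 hJ3 using hblock
  set U : Finset I := (Finset.univ : Finset (Fin k)).biUnion J with hU
  have hUcard : (U.card : ℝ) ≤ k * (2 ^ 21 * (d : ℝ) ^ 10 / ε ^ 6) := by
    calc (U.card : ℝ) ≤ ∑ v : Fin k, ((J v).card : ℝ) := by
          exact_mod_cast Finset.card_biUnion_le
      _ ≤ ∑ v : Fin k, (2 ^ 21 * (d : ℝ) ^ 10 / ε ^ 6) := Finset.sum_le_sum fun v _ => hJ2 v
      _ = k * (2 ^ 21 * (d : ℝ) ^ 10 / ε ^ 6) := by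
          rw [Finset.sum_const, Finset.card_univ, nsmul_eq_mul, Fintype.card_fin]
  -- the Fourier weight outside `U`
  have hout : ∑ S ∈ (Finset.univ : Finset (Finset I)).filter (fun S => ¬ S ⊆ U),
      coef f S ^ 2 ≤ η / 2 := by
    calc ∑ S ∈ (Finset.univ : Finset (Finset I)).filter (fun S => ¬ S ⊆ U), coef f S ^ 2
        ≤ ∑ S ∈ (Finset.univ : Finset (Fin k)).biUnion (fun v =>
            (Finset.univ : Finset (Finset I)).filter (fun S => ¬ Disjoint S (blk κ v \ J v))),
              coef f S ^ 2 := by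
          refine Finset.sum_le_sum_of_subset_of_nonneg ?_ (fun _ _ _ => sq_nonneg _)
          intro S hS
          have h1 := (Finset.mem_filter.1 hS).2
          rw [Finset.not_subset] at h1
          obtain ⟨i, hiS, hiU⟩ := h1
          rw [Finset.mem_biUnion]
          refine ⟨κ i, Finset.mem_univ _, Finset.mem_filter.2 ⟨Finset.mem_univ _, ?_⟩⟩
          rw [Finset.not_disjoint_iff]
          refine ⟨i, hiS, Finset.mem_sdiff.2 ⟨mem_blk.2 rfl, ?_⟩⟩
          intro h2
          exact hiU (Finset.mem_biUnion.2 ⟨κ i, Finset.mem_univ _, h2⟩)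
      _ ≤ ∑ v : Fin k, ∑ S ∈ (Finset.univ : Finset (Finset I)).filter
            (fun S => ¬ Disjoint S (blk κ v \ J v)), coef f S ^ 2 :=
          sum_biUnion_le_sum _ _ fun _ => sq_nonneg _
      _ ≤ ∑ v : Fin k, ε := Finset.sum_le_sum fun v _ => hJ3 v
      _ = η / 2 := by
          rw [Finset.sum_const, Finset.card_univ, nsmul_eq_mul, Fintype.card_fin, hε]
          field_simp
  have hin : η / 2 ≤ ∑ S ∈ (Finset.univ : Finset (Finset I)).filter
      (fun S => S.Nonempty ∧ S ⊆ U), coef f S ^ 2 := by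
    have h1 : η ≤ ∑ S ∈ (Finset.univ : Finset (Finset I)).filter
        (fun S => S.Nonempty ∧ S ⊆ U), coef f S ^ 2 +
        ∑ S ∈ (Finset.univ : Finset (Finset I)).filter (fun S => ¬ S ⊆ U), coef f S ^ 2 := by
      rw [hηeq, Finset.sum_filter, Finset.sum_filter, Finset.sum_filter,
        ← Finset.sum_add_distrib]
      refine Finset.sum_le_sum fun S _ => ?_
      have := sq_nonneg (coef f S)
      by_cases h2 : S.Nonempty <;> by_cases h3 : S ⊆ U <;> simp [h2, h3, this]
    linarith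
  have hsum : η / 2 ≤ ∑ j ∈ U, ∑ S ∈ (Finset.univ : Finset (Finset I)).filter
      (fun S => j ∈ S), coef f S ^ 2 := by
    refine hin.trans ?_
    have h1 : ∑ j ∈ U, ∑ S ∈ (Finset.univ : Finset (Finset I)).filter
        (fun S => j ∈ S), coef f S ^ 2 = ∑ S : Finset I, ∑ j ∈ U,
          if j ∈ S then coef f S ^ 2 else 0 := by
      rw [Finset.sum_comm]
      refine Finset.sum_congr rfl fun j _ => ?_
      rw [Finset.sum_filter]
    rw [h1, Finset.sum_filter]
    refine Finset.sum_le_sum fun S _ => ?_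
    split_ifs with h2
    · obtain ⟨⟨j, hj⟩, hSU⟩ := h2
      have h3 : (if j ∈ S then coef f S ^ 2 else 0) ≤ ∑ j ∈ U, if j ∈ S then coef f S ^ 2 else 0 :=
        Finset.single_le_sum (f := fun j => if j ∈ S then coef f S ^ 2 else 0)
          (fun j _ => by
            show 0 ≤ (if j ∈ S then coef f S ^ 2 else 0)
            split_ifs
            · exact sq_nonneg _
            · exact le_rfl) (hSU hj)
      rwa [if_pos hj] at h3
    · refine Finset.sum_nonneg fun j _ => ?_
      split_ifs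
      · exact sq_nonneg _
      · exact le_rfl
  have hUne : U.Nonempty := by
    by_contra hcon
    rw [Finset.not_nonempty_iff_eq_empty] at hcon
    rw [hcon, Finset.sum_empty] at hsum
    linarith
  obtain ⟨j, hj, hjmax⟩ := Finset.exists_max_image U (fun j =>
    ∑ S ∈ (Finset.univ : Finset (Finset I)).filter (fun S => j ∈ S), coef f S ^ 2) hUne
  refine ⟨j, ?_⟩
  set m : ℝ := ∑ S ∈ (Finset.univ : Finset (Finset I)).filter (fun S => j ∈ S), coef f S ^ 2
    with hm
  have hm0 : 0 ≤ m := Finset.sum_nonneg fun _ _ => sq_nonneg _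
  have h1 : η / 2 ≤ U.card * m := by
    refine hsum.trans ?_
    calc ∑ j ∈ U, ∑ S ∈ (Finset.univ : Finset (Finset I)).filter
          (fun S => j ∈ S), coef f S ^ 2 ≤ ∑ j ∈ U, m := Finset.sum_le_sum hjmax
      _ = U.card * m := by rw [Finset.sum_const, nsmul_eq_mul]
  have h2 : η / 2 ≤ k * (2 ^ 21 * (d : ℝ) ^ 10 / ε ^ 6) * m :=
    h1.trans (mul_le_mul_of_nonneg_right hUcard hm0)
  have h3 : (k : ℝ) * (2 ^ 21 * (d : ℝ) ^ 10 / ε ^ 6) =
      2 ^ 27 * (k : ℝ) ^ 7 * (d : ℝ) ^ 10 / η ^ 6 := by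
    rw [hε]
    field_simp
  rw [h3] at h2
  rw [div_le_iff₀ (by positivity)]
  have h4 : η / 2 * (2 * η ^ 6) ≤ 2 ^ 27 * (k : ℝ) ^ 7 * (d : ℝ) ^ 10 / η ^ 6 * m * (2 * η ^ 6) :=
    mul_le_mul_of_nonneg_right h2 (by positivity)
  calc η ^ 7 = η / 2 * (2 * η ^ 6) := by ring
    _ ≤ 2 ^ 27 * (k : ℝ) ^ 7 * (d : ℝ) ^ 10 / η ^ 6 * m * (2 * η ^ 6) := h4
    _ = m * (2 ^ 28 * (k : ℝ) ^ 7 * (d : ℝ) ^ 10) := by field_simp

end Pool.Agent.Lib_helper30.AA
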