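import Pool.Agent.Lib_helper30.AA.Tree
import Pool.Agent.Lib_helper30.AA.RidgeMain

set_option autoImplicit false
set_option linter.unusedSectionVars false

open Finset

namespace Pool.Agent.Lib_helper30.AA

variable {I : Type} [Fintype I] [DecidableEq I]

lemma coef_mix (f : (I → Bool) → ℝ) (H : Finset I) (z : I → Bool) (S : Finset I) :
    coef (fun x => f (mix H z x)) S =
      ∑ W : Finset I, (coef f W * if W ∩ H = S then 1 else 0) * chi (W \ H) z := by
  have h1 : (fun x => f (mix H z x)) = fun x => ∑ W : Finset I,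
      (coef f W * chi (W \ H) z) * chi (W ∩ H) x := by
    funext x
    rw [inversion f (mix H z x)]
    refine Finset.sum_congr rfl fun W _ => ?_
    rw [chi_mix]
    ring
  rw [h1, coef_sum]
  refine Finset.sum_congr rfl fun W _ => ?_
  rw [coef_const_mul, coef_chi]
  ring

lemma ex_chi (U : Finset I) : ex (chi U) = if U = ∅ then 1 else 0 := by
  have := coef_chi U ∅
  rw [coef_empty] at this
  exact this

lemma ex_sum {α : Type} (s : Finset α) (g : α → (I → Bool) → ℝ) :
    ex (fun x => ∑ a ∈ s, g a x) = ∑ a ∈ s, ex (g a) := by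
  unfold ex
  rw [Finset.sum_comm, Finset.mul_sum]

lemma ex_coef_mix (f : (I → Bool) → ℝ) (H S : Finset I) :
    ex (fun z => coef (fun x => f (mix H z x)) S) = if S ⊆ H then coef f S else 0 := by
  simp_rw [coef_mix]
  rw [ex_sum]
  have h1 : ∀ W : Finset I, ex (fun z => (coef f W * if W ∩ H = S then 1 else 0) *
      chi (W \ H) z) = if W = S then (if S ⊆ H then coef f S else 0) else 0 := by
    intro W
    rw [ex_const_mul, ex_chi]
    by_cases hW : W ⊆ H
    · have e1 : W \ H = ∅ := Finset.sdiff_eq_empty_iff_subset.2 hW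
      have e2 : W ∩ H = W := Finset.inter_eq_left.2 hW
      rw [if_pos e1, e2]
      by_cases hWS : W = S
      · subst hWS; simp [hW]
      · simp [hWS]
    · have e1 : W \ H ≠ ∅ := by rwa [Ne, Finset.sdiff_eq_empty_iff_subset]
      rw [if_neg e1]
      by_cases hWS : W = S
      · subst hWS; simp [hW]
      · simp [hWS]
  simp_rw [h1]
  simp

lemma cov_eq (f g : (I → Bool) → ℝ) :
    ex (fun x => f x * g x) - ex f * ex g =
      ∑ S ∈ (Finset.univ : Finset (Finset I)).filter (fun S => S.Nonempty),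
        coef f S * coef g S := by
  have h1 : ex (fun x => f x * g x) = ∑ S : Finset I, coef f S * coef g S := (parseval f g).symm
  have h2 : ex f = coef f ∅ := (coef_empty f).symm
  have h3 : ex g = coef g ∅ := (coef_empty g).symm
  rw [h1, h2, h3]
  have h := Finset.sum_filter_add_sum_filter_not (Finset.univ : Finset (Finset I))
    (fun S => S.Nonempty) (fun S => coef f S * coef g S)
  rw [← h]
  have h4 : ((Finset.univ : Finset (Finset I)).filter (fun S => ¬ S.Nonempty)) = {∅} := by
    ext S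
    simp [Finset.not_nonempty_iff_eq_empty]
  rw [h4]
  simp

/-- Averaging the covariance over the frozen coordinates. -/
lemma ex_cov (f : (I → Bool) → ℝ) (H : Finset I) :
    ex (fun z => ex (fun x => f x * f (mix H z x)) - ex f * ex (fun x => f (mix H z x))) =
      ∑ S ∈ (Finset.univ : Finset (Finset I)).filter (fun S => S.Nonempty ∧ S ⊆ H),
        coef f S ^ 2 := by
  have h1 : ∀ z : I → Bool,
      ex (fun x => f x * f (mix H z x)) - ex f * ex (fun x => f (mix H z x)) =
      ∑ S ∈ (Finset.univ : Finset (Finset I)).filter (fun S => S.Nonempty),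
        coef f S * coef (fun x => f (mix H z x)) S := fun z => cov_eq f _
  simp_rw [h1]
  rw [ex_sum]
  have h2 : ∀ S : Finset I, ex (fun z => coef f S * coef (fun x => f (mix H z x)) S) =
      if S ⊆ H then coef f S ^ 2 else 0 := by
    intro S
    rw [ex_const_mul, ex_coef_mix]
    split_ifs <;> ring
  simp_rw [h2]
  rw [← Finset.sum_filter, Finset.filter_filter]

lemma mix_flip_of_mem {H : Finset I} {i : I} (hi : i ∈ H) (z x : I → Bool) :
    mix H z (flip i x) = flip i (mix H z x) := by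
  funext j
  unfold mix flip
  by_cases hj : j = i
  · subst hj; simp [hi]
  · simp [hj]

lemma mix_flip_of_notMem {H : Finset I} {i : I} (hi : i ∉ H) (z x : I → Bool) :
    mix H z (flip i x) = mix H z x := by
  funext j
  unfold mix flip
  by_cases hj : j = i
  · subst hj; simp [hi]
  · simp [hj]

lemma influence_ex (f : (I → Bool) → ℝ) (j : I) :
    ∑ S ∈ (Finset.univ : Finset (Finset I)).filter (fun S => j ∈ S), coef f S ^ 2 =
      ex (fun x => ((f x - f (flip j x)) / 2) ^ 2) := (influence_eq f j).symm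

lemma sq_ex_le (g : (I → Bool) → ℝ) : (ex g) ^ 2 ≤ ex (fun x => g x ^ 2) := by
  have h1 : 0 ≤ ex (fun x => (g x - ex g) ^ 2) := by
    have := ex_mono (f := fun _ => (0 : ℝ)) (g := fun x => (g x - ex g) ^ 2)
      (fun x => sq_nonneg _)
    rwa [ex_const] at this
  have h2 : (fun x => (g x - ex g) ^ 2) = fun x => (g x ^ 2 + (-(2 * ex g)) * g x) + (ex g) ^ 2 := by
    funext x; ring
  rw [h2, ex_add, ex_add, ex_const_mul, ex_const] at h1
  nlinarith

theorem flat_fourier [Nonempty I] (f : (I → Bool) → ℝ) (hf : ∀ x, |f x| ≤ 1) {d : ℕ} (hd : 1 ≤ d)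
    (hdeg : ∀ S : Finset I, d < S.card → coef f S = 0) {lam : ℝ} (hlam : 1 ≤ lam)
    (hflat : ∀ (i : I) (x y : I → Bool), f x ≠ f (flip i x) →
      |f y - f (flip i y)| ≤ lam * |f x - f (flip i x)|) {η : ℝ} (hη : 0 < η)
    (hηeq : η = ∑ S ∈ (Finset.univ : Finset (Finset I)).filter (fun S => S.Nonempty),
      coef f S ^ 2) :
    ∃ j : I, η ^ 10 / (2 ^ 44 * lam ^ 8 * (d : ℝ) ^ 32) ≤
      ∑ S ∈ (Finset.univ : Finset (Finset I)).filter (fun S => j ∈ S), coef f S ^ 2 := by
  classical
  have hη1 : η ≤ 1 := by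
    rw [hηeq]
    simpa using sum_coef_sq_le hf _
  have hd' : (1 : ℝ) ≤ d := by exact_mod_cast hd
  have hlam0 : 0 < lam := by linarith
  set κ : ℝ := η / (4 * lam * (d : ℝ) ^ 2) with hκ
  have hκ0 : 0 < κ := by positivity
  set H : Finset I := Finset.univ.filter
    (fun i => ∀ x, f x ≠ f (flip i x) → κ ≤ |f x - f (flip i x)|) with hH
  -- the light coordinates
  have hlight : ∀ i, i ∉ H → ∀ y, |f y - f (flip i y)| ≤ lam * κ := by
    intro i hi y
    rw [hH, Finset.mem_filter] at hi
    push Not at hi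
    obtain ⟨x, hx1, hx2⟩ := hi (Finset.mem_univ _)
    exact (hflat i x y hx1).trans (mul_le_mul_of_nonneg_left hx2.le hlam0.le)
  have hlightsum : ∑ i ∈ Hᶜ, ∑ S ∈ (Finset.univ : Finset (Finset I)).filter (fun S => i ∈ S),
      coef f S ^ 2 ≤ η / 2 := by
    calc ∑ i ∈ Hᶜ, ∑ S ∈ (Finset.univ : Finset (Finset I)).filter (fun S => i ∈ S), coef f S ^ 2
        ≤ ∑ i ∈ Hᶜ, ex (fun x => (lam * κ / 4) * |f x - f (flip i x)|) := by
          refine Finset.sum_le_sum fun i hi => ?_
          rw [influence_ex]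
          apply ex_mono
          intro x
          have h1 := hlight i (Finset.mem_compl.1 hi) x
          have h2 : ((f x - f (flip i x)) / 2) ^ 2 =
              |f x - f (flip i x)| * |f x - f (flip i x)| / 4 := by
            rw [abs_mul_abs_self]; ring
          rw [h2]
          nlinarith [abs_nonneg (f x - f (flip i x))]
      _ = ex (fun x => ∑ i ∈ Hᶜ, (lam * κ / 4) * |f x - f (flip i x)|) := (ex_sum _ _).symm
      _ ≤ ex (fun _ => (lam * κ / 4) * (8 * (d : ℝ) ^ 2)) := by
          apply ex_mono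
          intro x
          rw [← Finset.mul_sum]
          exact mul_le_mul_of_nonneg_left (sens_l1 hf hdeg _ x) (by positivity)
      _ = η / 2 := by
          rw [ex_const, hκ]
          field_simp
          ring
  -- the weight on the heavy coordinates
  have hheavy : η / 2 ≤ ∑ S ∈ (Finset.univ : Finset (Finset I)).filter
      (fun S => S.Nonempty ∧ S ⊆ H), coef f S ^ 2 := by
    have h1 : η ≤ ∑ S ∈ (Finset.univ : Finset (Finset I)).filter
        (fun S => S.Nonempty ∧ S ⊆ H), coef f S ^ 2 +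
        ∑ S ∈ (Finset.univ : Finset (Finset I)).filter (fun S => ¬ S ⊆ H), coef f S ^ 2 := by
      rw [hηeq, Finset.sum_filter, Finset.sum_filter, Finset.sum_filter,
        ← Finset.sum_add_distrib]
      refine Finset.sum_le_sum fun S _ => ?_
      have := sq_nonneg (coef f S)
      by_cases h2 : S.Nonempty <;> by_cases h3 : S ⊆ H <;> simp [h2, h3, this]
    have h2 : ∑ S ∈ (Finset.univ : Finset (Finset I)).filter (fun S => ¬ S ⊆ H),
        coef f S ^ 2 ≤ ∑ i ∈ Hᶜ, ∑ S ∈ (Finset.univ : Finset (Finset I)).filter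
          (fun S => i ∈ S), coef f S ^ 2 := by
      refine le_trans (Finset.sum_le_sum_of_subset_of_nonneg ?_ (fun _ _ _ => sq_nonneg _))
        (sum_biUnion_le_sum Hᶜ (fun i => (Finset.univ : Finset (Finset I)).filter
          (fun S => i ∈ S)) (fun S => sq_nonneg (coef f S)))
      intro S hS
      have h3 := (Finset.mem_filter.1 hS).2
      rw [Finset.not_subset] at h3
      obtain ⟨i, hiS, hiH⟩ := h3
      exact Finset.mem_biUnion.2 ⟨i, Finset.mem_compl.2 hiH,
        Finset.mem_filter.2 ⟨Finset.mem_univ _, hiS⟩⟩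
    linarith
  -- a good assignment of the light coordinates
  obtain ⟨z, hz⟩ : ∃ z : I → Bool, η / 2 ≤
      ex (fun x => f x * f (mix H z x)) - ex f * ex (fun x => f (mix H z x)) := by
    by_contra hcon
    push Not at hcon
    have h1 : ex (fun z => ex (fun x => f x * f (mix H z x)) -
        ex f * ex (fun x => f (mix H z x))) < η / 2 := by
      have h2 : ∑ z : I → Bool, (ex (fun x => f x * f (mix H z x)) -
          ex f * ex (fun x => f (mix H z x))) < ∑ _z : I → Bool, η / 2 :=
        Finset.sum_lt_sum_of_nonempty Finset.univ_nonempty fun z _ => hcon z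
      have h3 := ex_const (I := I) (η / 2)
      unfold ex at h3 ⊢
      rw [← h3]
      exact mul_lt_mul_of_pos_left h2 (by positivity)
    rw [ex_cov] at h1
    linarith
  set g : (I → Bool) → ℝ := fun x => f (mix H z x) with hg
  set s : ℕ := ⌊8 * (d : ℝ) ^ 2 / κ⌋₊ with hs
  have hs1 : 8 * (d : ℝ) ^ 2 < κ * (s + 1) := by
    have h1 := Nat.lt_floor_add_one (8 * (d : ℝ) ^ 2 / κ)
    rw [div_lt_iff₀ hκ0, ← hs] at h1
    linarith [mul_comm κ ((s : ℝ) + 1)]
  have hs2 : (s : ℝ) ≤ 32 * lam * (d : ℝ) ^ 4 / η := by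
    have h1 := Nat.floor_le (by positivity : 0 ≤ 8 * (d : ℝ) ^ 2 / κ)
    refine h1.trans (le_of_eq ?_)
    rw [hκ]
    field_simp
    ring
  have hs3 : (1 : ℝ) ≤ s := by
    have hd2 : (1 : ℝ) ≤ (d : ℝ) ^ 2 := one_le_pow₀ hd'
    have hκ1 : κ ≤ 1 := by
      rw [hκ, div_le_one (by positivity)]
      nlinarith
    have : 1 ≤ s := by
      rw [hs]
      apply Nat.le_floor
      rw [le_div_iff₀ hκ0]
      push_cast
      nlinarith
    exact_mod_cast this
  have hcert := exists_cert (f := g) (fun x => hf _) (d := d)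
    (fun S hS => coef_mix_eq_zero hdeg hS) hκ0 (by
      intro i x hne
      by_cases hi : i ∈ H
      · simp only [hg] at hne ⊢
        rw [mix_flip_of_mem hi] at hne ⊢
        exact (Finset.mem_filter.1 hi).2 _ hne
      · exfalso
        apply hne
        simp only [hg]
        rw [mix_flip_of_notMem hi]) hs1
  have hcomp := comp_of_cert (s * s) g hcert
  obtain ⟨j, -, hj⟩ := Finset.exists_max_image (Finset.univ : Finset I)
    (fun i => ex (fun x => |f x - f (flip i x)|)) Finset.univ_nonempty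
  set τ : ℝ := ex (fun x => |f x - f (flip j x)|) with hτ
  have hτ0 : 0 ≤ τ := by
    have := ex_mono (f := fun _ => (0 : ℝ)) (g := fun x => |f x - f (flip j x)|)
      (fun x => abs_nonneg _)
    rwa [ex_const] at this
  have hosss := osss hτ0 (s * s * (s * s + 1)) f g hcomp (fun x => hf _)
    (fun i => hj i (Finset.mem_univ i))
  have h1 : η / 2 ≤ (s * s * (s * s + 1) : ℕ) * τ / 2 := hz.trans ((le_abs_self _).trans hosss)
  refine ⟨j, ?_⟩
  rw [influence_ex]
  have h2 : τ ^ 2 / 4 ≤ ex (fun x => ((f x - f (flip j x)) / 2) ^ 2) := by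
    have h3 := sq_ex_le (fun x => |f x - f (flip j x)|)
    have h4 : (fun x => ((f x - f (flip j x)) / 2) ^ 2) =
        fun x => (1 / 4) * |f x - f (flip j x)| ^ 2 := by
      funext x
      rw [sq_abs]; ring
    rw [h4, ex_const_mul]
    linarith
  refine le_trans ?_ h2
  have h5 : η ≤ 2 * (s : ℝ) ^ 4 * τ := by
    have h6 : ((s * s * (s * s + 1) : ℕ) : ℝ) ≤ 2 * (s : ℝ) ^ 4 := by
      push_cast
      have : (1 : ℝ) ≤ (s : ℝ) ^ 2 := one_le_pow₀ hs3
      nlinarith
    have h7 := mul_le_mul_of_nonneg_right h6 hτ0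
    linarith
  have h8 : η ≤ 2 * (32 * lam * (d : ℝ) ^ 4 / η) ^ 4 * τ := by
    refine h5.trans ?_
    gcongr
  have h9 : η ^ 5 / (2 ^ 21 * lam ^ 4 * (d : ℝ) ^ 16) ≤ τ := by
    rw [div_le_iff₀ (by positivity)]
    have h10 : η * η ^ 4 ≤ 2 * (32 * lam * (d : ℝ) ^ 4 / η) ^ 4 * τ * η ^ 4 :=
      mul_le_mul_of_nonneg_right h8 (by positivity)
    calc η ^ 5 = η * η ^ 4 := by ring
      _ ≤ 2 * (32 * lam * (d : ℝ) ^ 4 / η) ^ 4 * τ * η ^ 4 := h10
      _ = τ * (2 ^ 21 * lam ^ 4 * (d : ℝ) ^ 16) := by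
          rw [div_pow, mul_pow, mul_pow]
          field_simp
          ring
  have h11 : 0 ≤ η ^ 5 / (2 ^ 21 * lam ^ 4 * (d : ℝ) ^ 16) := by positivity
  calc η ^ 10 / (2 ^ 44 * lam ^ 8 * (d : ℝ) ^ 32)
      = (η ^ 5 / (2 ^ 21 * lam ^ 4 * (d : ℝ) ^ 16)) ^ 2 / 4 := by
        rw [div_pow]
        field_simp
        ring
    _ ≤ τ ^ 2 / 4 := by gcongr

end Pool.Agent.Lib_helper30.AA
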