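import Pool.Agent.Lib_helper30.AA.LinForm

set_option autoImplicit false
set_option linter.unusedSectionVars false

open Finset Polynomial

namespace Pool.Agent.Lib_helper30.AA

variable {I : Type} [Fintype I] [DecidableEq I]

/-- Approximation by a function independent of the coordinates in `T` bounds the Fourier weight
touching `T`. -/
lemma weight_touching_le {f g : (I → Bool) → ℝ} {T : Finset I}
    (hg : ∀ x y : I → Bool, (∀ i ∉ T, x i = y i) → g x = g y) {ε : ℝ}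
    (h : ((2 : ℝ) ^ (Fintype.card I))⁻¹ * ∑ x : I → Bool, (f x - g x) ^ 2 ≤ ε) :
    ∑ S ∈ (Finset.univ : Finset (Finset I)).filter (fun S => ¬ Disjoint S T),
      coef f S ^ 2 ≤ ε := by
  refine le_trans ?_ h
  rw [← parseval_sq (fun x => f x - g x)]
  have h1 : ∀ S ∈ (Finset.univ : Finset (Finset I)).filter (fun S => ¬ Disjoint S T),
      coef f S ^ 2 = coef (fun x => f x - g x) S ^ 2 := by
    intro S hS
    rw [coef_sub, coef_eq_zero_of_dep (f := g) (J := Tᶜ) (fun x y hxy => hg x y fun i hi =>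
      hxy i (Finset.mem_compl.2 hi)), sub_zero]
    intro hsub
    apply (Finset.mem_filter.1 hS).2
    exact Finset.disjoint_left.2 fun i hi hT => (Finset.mem_compl.1 (hsub hi)) hT
  rw [Finset.sum_congr rfl h1]
  exact Finset.sum_le_sum_of_subset_of_nonneg (Finset.subset_univ _) (fun _ _ _ => sq_nonneg _)

lemma greedy (a : I → ℝ) (V : Finset I) {θ : ℝ} (hθ : 0 ≤ θ) (K : ℕ) :
    ∃ J ⊆ V, J.card ≤ K ∧ ((∀ i ∈ V \ J, |a i| ≤ θ * ∑ j ∈ V \ J, |a j|) ∨
      (J.card = K ∧ ∀ i ∈ J, θ * ∑ j ∈ V \ J, |a j| < |a i|)) := by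
  induction K with
  | zero => exact ⟨∅, Finset.empty_subset _, by simp, Or.inr ⟨by simp, by simp⟩⟩
  | succ K ih =>
    obtain ⟨J, hJV, hJK, h⟩ := ih
    by_cases h1 : ∀ i ∈ V \ J, |a i| ≤ θ * ∑ j ∈ V \ J, |a j|
    · exact ⟨J, hJV, by omega, Or.inl h1⟩
    rcases h with h | ⟨hK, h⟩
    · exact absurd h h1
    push Not at h1
    obtain ⟨i, hi, hai⟩ := h1
    obtain ⟨hiV, hiJ⟩ := Finset.mem_sdiff.1 hi
    have hsub : V \ insert i J ⊆ V \ J := by
      intro j hj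
      rw [Finset.mem_sdiff, Finset.mem_insert, not_or] at hj
      exact Finset.mem_sdiff.2 ⟨hj.1, hj.2.2⟩
    have hle : θ * ∑ j ∈ V \ insert i J, |a j| ≤ θ * ∑ j ∈ V \ J, |a j| :=
      mul_le_mul_of_nonneg_left
        (Finset.sum_le_sum_of_subset_of_nonneg hsub fun _ _ _ => abs_nonneg _) hθ
    refine ⟨insert i J, Finset.insert_subset hiV hJV, ?_, Or.inr ⟨?_, ?_⟩⟩
    · rw [Finset.card_insert_of_notMem hiJ]; omega
    · rw [Finset.card_insert_of_notMem hiJ]; omega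
    · intro j hj
      rcases Finset.mem_insert.1 hj with rfl | hj
      · exact hle.trans_lt hai
      · exact hle.trans_lt (h j hj)

section
variable {f : (I → Bool) → ℝ} {a : I → ℝ} {V : Finset I} {Pc : (I → Bool) → ℝ[X]} {d : ℕ}

lemma lin_split (a : I → ℝ) {J V : Finset I} (hJ : J ⊆ V) (x : I → Bool) :
    lin a V x = lin a J x + lin a (V \ J) x := by
  rw [← lin_union a Finset.disjoint_sdiff, Finset.union_sdiff_of_subset hJ]

/-- The case where all remaining coefficients are small. -/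
lemma case_smooth (hf : ∀ x, |f x| ≤ 1) (hdeg : ∀ x, (Pc x).natDegree ≤ d)
    (hdep : ∀ x y : I → Bool, (∀ i ∉ V, x i = y i) → Pc x = Pc y)
    (heq : ∀ x, f x = (Pc x).eval (lin a V x)) {J : Finset I} (hJ : J ⊆ V) {θ : ℝ} (hθ : 0 ≤ θ)
    (hθd : 4 * (d : ℝ) ^ 2 * θ ≤ 1)
    (hsmall : ∀ i ∈ V \ J, |a i| ≤ θ * ∑ j ∈ V \ J, |a j|) :
    ((2 : ℝ) ^ (Fintype.card I))⁻¹ * ∑ x : I → Bool, (f x - (Pc x).eval (lin a J x)) ^ 2 ≤
      16 * (d : ℝ) ^ 4 * θ := by
  set s : ℝ := ∑ j ∈ V \ J, |a j| with hs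
  have hs0 : 0 ≤ s := Finset.sum_nonneg fun _ _ => abs_nonneg _
  rcases hs0.eq_or_lt with hs1 | hs1
  · have h1 : ∀ x, f x - (Pc x).eval (lin a J x) = 0 := by
      intro x
      have h2 : lin a (V \ J) x = 0 := by
        have := abs_lin_le a (V \ J) x
        rw [← hs, ← hs1] at this
        exact abs_eq_zero.1 (le_antisymm this (abs_nonneg _))
      rw [heq x, lin_split a hJ x, h2, add_zero, sub_self]
    simp_rw [h1]
    simp only [ne_eq, OfNat.ofNat_ne_zero, not_false_eq_true, zero_pow, Finset.sum_const_zero,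
      mul_zero]
    positivity
  · have hpt : ∀ x, (f x - (Pc x).eval (lin a J x)) ^ 2 ≤
        (4 * (d : ℝ) ^ 2 / s) ^ 2 * lin a (V \ J) x ^ 2 := by
      intro x
      have h1 := near_center (hdeg x) (c := lin a J x) (s := s) (b := θ * s) hs1
        (by nlinarith) (by
          intro t ht
          obtain ⟨z, hz1, hz2⟩ := lin_dense a (V \ J) hsmall (by positivity) x (t := t)
            (by rw [← hs]; exact ht.1) (by rw [← hs]; exact ht.2)
          refine ⟨lin a (V \ J) z, abs_le.1 (abs_lin_le a (V \ J) z), hz2, ?_⟩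
          have h2 : lin a J x = lin a J z := by
            apply lin_congr
            intro i hi
            exact (hz1 i (fun h => (Finset.mem_sdiff.1 h).2 hi)).symm
          have h3 : Pc x = Pc z := hdep x z fun i hi =>
            (hz1 i (fun h => hi (Finset.mem_sdiff.1 h).1)).symm
          rw [h2, h3, ← lin_split a hJ z, ← heq z]
          exact hf z) (t := lin a (V \ J) x) (abs_le.1 (abs_lin_le a (V \ J) x))
      rw [← lin_split a hJ x, ← heq x] at h1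
      rw [← sq_abs (f x - _), ← sq_abs (lin a (V \ J) x), ← mul_pow]
      exact pow_le_pow_left₀ (abs_nonneg _) h1 2
    calc ((2 : ℝ) ^ (Fintype.card I))⁻¹ * ∑ x : I → Bool, (f x - (Pc x).eval (lin a J x)) ^ 2
        ≤ ((2 : ℝ) ^ (Fintype.card I))⁻¹ * ∑ x : I → Bool,
            (4 * (d : ℝ) ^ 2 / s) ^ 2 * lin a (V \ J) x ^ 2 := by
          gcongr with x _
          exact hpt x
      _ = (4 * (d : ℝ) ^ 2 / s) ^ 2 *
            (((2 : ℝ) ^ (Fintype.card I))⁻¹ * ∑ x : I → Bool, lin a (V \ J) x ^ 2) := by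
          rw [← Finset.mul_sum]; ring
      _ = (4 * (d : ℝ) ^ 2 / s) ^ 2 * ∑ i ∈ V \ J, a i ^ 2 := by rw [lin_second_moment]
      _ ≤ (4 * (d : ℝ) ^ 2 / s) ^ 2 * ∑ i ∈ V \ J, (θ * s) * |a i| := by
          gcongr with i hi
          rw [← sq_abs, sq]
          exact mul_le_mul_of_nonneg_right (hsmall i hi) (abs_nonneg _)
      _ = (4 * (d : ℝ) ^ 2 / s) ^ 2 * ((θ * s) * s) := by rw [← Finset.mul_sum, ← hs]
      _ = 16 * (d : ℝ) ^ 4 * θ := by field_simp; ring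

lemma exists_level {u v : ℝ} {M : ℕ} (hM : 0 < M) (h : 1 / (M : ℝ) < |u - v|)
    (hu : |u| ≤ 1) (hv : |v| ≤ 1) :
    ∃ l ∈ Finset.Icc (-(M : ℤ)) M, ((l : ℝ) / M) ∈ Set.uIcc u v := by
  have hM' : (0 : ℝ) < M := by exact_mod_cast hM
  wlog huv : u < v generalizing u v with H
  · have hne : u ≠ v := by
      rintro rfl
      rw [sub_self, abs_zero] at h
      have : 0 < 1 / (M : ℝ) := by positivity
      linarith
    obtain ⟨l, hl, hl2⟩ := H (u := v) (v := u) (by rwa [abs_sub_comm]) hv hu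
      (lt_of_le_of_ne (not_lt.1 huv) hne.symm)
    exact ⟨l, hl, by rwa [Set.uIcc_comm]⟩
  · rw [abs_of_neg (by linarith)] at h
    have hu' := abs_le.1 hu
    have hv' := abs_le.1 hv
    have h1 : u * M + 1 < v * M := by
      rw [div_lt_iff₀ hM'] at h
      nlinarith
    have h2 := Int.le_ceil (u * M)
    have h3 := Int.ceil_lt_add_one (u * M)
    refine ⟨⌈u * M⌉, ?_, ?_⟩
    · rw [Finset.mem_Icc]
      constructor
      · have : (-(M : ℝ)) ≤ ((⌈u * M⌉ : ℤ) : ℝ) := by nlinarith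
        exact_mod_cast this
      · have : ((⌈u * M⌉ : ℤ) : ℝ) ≤ (M : ℝ) := by nlinarith
        exact_mod_cast this
    · rw [Set.uIcc_of_le huv.le, Set.mem_Icc, le_div_iff₀ hM', div_le_iff₀ hM']
      constructor <;> linarith

/-- The set of level points of a polynomial. -/
noncomputable def levelSet (P : ℝ[X]) (M : ℕ) : Finset ℝ :=
  (Finset.Icc (-(M : ℤ)) M).biUnion fun l => (P - C ((l : ℝ) / M)).roots.toFinset

lemma card_levelSet_le {P : ℝ[X]} {d : ℕ} (hP : P.natDegree ≤ d) (M : ℕ) :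
    (levelSet P M).card ≤ (2 * M + 1) * d := by
  classical
  unfold levelSet
  refine (Finset.card_biUnion_le_card_mul _ _ d ?_).trans ?_
  · intro l _
    refine (Multiset.toFinset_card_le _).trans ?_
    refine (card_roots' _).trans ?_
    rw [natDegree_sub_C]
    exact hP
  · apply Nat.mul_le_mul_right
    rw [Int.card_Icc]
    omega

lemma exists_mem_levelSet {P : ℝ[X]} {M : ℕ} (hM : 0 < M) {p q : ℝ}
    (h : 1 / (M : ℝ) < |P.eval p - P.eval q|) (hp : |P.eval p| ≤ 1) (hq : |P.eval q| ≤ 1) :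
    ∃ r ∈ levelSet P M, r ∈ Set.uIcc p q := by
  classical
  obtain ⟨l, hl, hl2⟩ := exists_level hM h hp hq
  obtain ⟨r, hr, hr2⟩ := intermediate_value_uIcc (P.continuous.continuousOn) hl2
  refine ⟨r, ?_, hr⟩
  unfold levelSet
  rw [Finset.mem_biUnion]
  refine ⟨l, hl, ?_⟩
  rw [Multiset.mem_toFinset, mem_roots]
  · simp only [IsRoot.def, eval_sub, eval_C]
    simp only at hr2
    rw [hr2, sub_self]
  · intro h0
    have h1 : P = C ((l : ℝ) / M) := sub_eq_zero.1 h0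
    rw [h1] at h
    simp only [eval_C, sub_self, abs_zero] at h
    have : 0 < 1 / (M : ℝ) := by positivity
    linarith

/-- Freezing the coordinates in `T`. -/
def freeze (T : Finset I) (x : I → Bool) : I → Bool := fun i => if i ∈ T then false else x i

lemma card_bad_le (hf : ∀ x, |f x| ≤ 1) (hdeg : ∀ x, (Pc x).natDegree ≤ d)
    (hdep : ∀ x y : I → Bool, (∀ i ∉ V, x i = y i) → Pc x = Pc y)
    (heq : ∀ x, f x = (Pc x).eval (lin a V x)) {J : Finset I} (hJ : J ⊆ V) {Θ M : ℕ}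
    (hM : 0 < M) {b : ℝ} (hb0 : 0 < b) (hs : ∑ j ∈ V \ J, |a j| ≤ Θ * b)
    (hbig : ∀ i ∈ J, b < |a i|) :
    ((Finset.univ : Finset (I → Bool)).filter
      (fun x => 1 / (M : ℝ) < |f x - f (freeze (V \ J) x)|)).card * 2 ^ J.card ≤
      (2 * M + 1) * d * (J.card.choose (J.card / 2) * (Θ + 1)) * 2 ^ Fintype.card I := by
  classical
  apply lo_total
  intro y
  have hsub : (((Finset.univ : Finset (I → Bool)).filter
      (fun x => 1 / (M : ℝ) < |f x - f (freeze (V \ J) x)|)).filter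
        (fun x => ∀ i ∉ J, x i = y i)) ⊆
      (levelSet (Pc y) M).biUnion (fun r => (Finset.univ : Finset (I → Bool)).filter
        (fun x => (∀ i ∉ J, x i = y i) ∧ |lin a J x - r| ≤ ∑ j ∈ V \ J, |a j|)) := by
    intro x hx
    obtain ⟨hx1, hx2⟩ := Finset.mem_filter.1 hx
    have hx3 := (Finset.mem_filter.1 hx1).2
    have hP1 : Pc x = Pc y := hdep x y fun i hi => hx2 i fun h => hi (hJ h)
    have hP2 : Pc (freeze (V \ J) x) = Pc y := by
      rw [← hP1]
      apply hdep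
      intro i hi
      have : i ∉ V \ J := fun h => hi (Finset.mem_sdiff.1 h).1
      simp [freeze, this]
    have hlin : lin a J (freeze (V \ J) x) = lin a J x := by
      apply lin_congr
      intro i hi
      have : i ∉ V \ J := fun h => (Finset.mem_sdiff.1 h).2 hi
      simp [freeze, this]
    have e1 : f x = (Pc y).eval (lin a J x + lin a (V \ J) x) := by
      rw [heq x, hP1, lin_split a hJ x]
    have e2 : f (freeze (V \ J) x) =
        (Pc y).eval (lin a J x + lin a (V \ J) (freeze (V \ J) x)) := by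
      rw [heq, hP2, lin_split a hJ (freeze (V \ J) x), hlin]
    have hb1 := hf x
    have hb2 := hf (freeze (V \ J) x)
    rw [e1, e2] at hx3
    rw [e1] at hb1
    rw [e2] at hb2
    obtain ⟨r, hr1, hr2⟩ := exists_mem_levelSet hM hx3 hb1 hb2
    rw [Finset.mem_biUnion]
    refine ⟨r, hr1, Finset.mem_filter.2 ⟨Finset.mem_univ _, hx2, ?_⟩⟩
    have h1 := abs_le.1 (abs_lin_le a (V \ J) x)
    have h2 := abs_le.1 (abs_lin_le a (V \ J) (freeze (V \ J) x))
    rw [Set.mem_uIcc] at hr2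
    rw [abs_le]
    rcases hr2 with hr2 | hr2
    · constructor <;> linarith [hr2.1, hr2.2, h1.1, h1.2, h2.1, h2.2]
    · constructor <;> linarith [hr2.1, hr2.2, h1.1, h1.2, h2.1, h2.2]
  refine (Finset.card_le_card hsub).trans ?_
  refine (Finset.card_biUnion_le_card_mul _ _ (J.card.choose (J.card / 2) * (Θ + 1)) ?_).trans ?_
  · intro r _
    refine lo_many a J Θ hb0 hs hbig r _ ?_ ?_
    · intro x hx z hz i hi
      rw [(Finset.mem_filter.1 hx).2.1 i hi, (Finset.mem_filter.1 hz).2.1 i hi]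
    · intro x hx
      exact (Finset.mem_filter.1 hx).2.2
  · exact Nat.mul_le_mul_right _ (card_levelSet_le (hdeg y) M)

/-- The case of many large coefficients. -/
lemma case_rough (hf : ∀ x, |f x| ≤ 1) (hdeg : ∀ x, (Pc x).natDegree ≤ d)
    (hdep : ∀ x y : I → Bool, (∀ i ∉ V, x i = y i) → Pc x = Pc y)
    (heq : ∀ x, f x = (Pc x).eval (lin a V x)) {J : Finset I} (hJ : J ⊆ V) {Θ M m : ℕ}
    (hM : 0 < M) (hΘ : 0 < Θ) (hs : 0 < ∑ j ∈ V \ J, |a j|) (hcard : J.card = 2 * m)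
    (hbig : ∀ i ∈ J, 1 / (Θ : ℝ) * ∑ j ∈ V \ J, |a j| < |a i|) {ε : ℝ} (hε : 0 < ε)
    (hm : (8 * ((2 * M + 1) * d * (Θ + 1) : ℝ) / ε) ^ 2 ≤ 2 * m + 1) :
    ((2 : ℝ) ^ (Fintype.card I))⁻¹ * ∑ x : I → Bool, (f x - f (freeze (V \ J) x)) ^ 2 ≤
      1 / (M : ℝ) ^ 2 + ε / 2 := by
  classical
  have hM' : (0 : ℝ) < M := by exact_mod_cast hM
  have hΘ' : (0 : ℝ) < Θ := by exact_mod_cast hΘ
  set b : ℝ := 1 / (Θ : ℝ) * ∑ j ∈ V \ J, |a j| with hb
  have hb0 : 0 < b := by positivity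
  set B : Finset (I → Bool) := (Finset.univ : Finset (I → Bool)).filter
      (fun x => 1 / (M : ℝ) < |f x - f (freeze (V \ J) x)|) with hB
  have h1 := card_bad_le hf hdeg hdep heq hJ hM hb0 (le_of_eq (by
    rw [hb]; field_simp)) hbig (Θ := Θ)
  rw [hcard, show 2 * m / 2 = m by omega, ← Nat.centralBinom_eq_two_mul_choose, ← hB] at h1
  have h2 : (B.card : ℝ) * 2 ^ (2 * m) ≤
      (2 * M + 1) * d * (Nat.centralBinom m * (Θ + 1)) * 2 ^ Fintype.card I := by
    exact_mod_cast h1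
  set q : ℝ := (2 * M + 1) * d * (Θ + 1) with hq
  have hq0 : 0 ≤ q := by positivity
  -- the central binomial bound
  have h3 : (Nat.centralBinom m : ℝ) * q ≤ ε / 8 * 2 ^ (2 * m) := by
    have h4 : ((Nat.centralBinom m : ℝ)) ^ 2 * (2 * m + 1) ≤ 16 ^ m := by
      exact_mod_cast centralBinom_sq_le m
    have h5 : ((Nat.centralBinom m : ℝ) * q) ^ 2 ≤ (ε / 8 * 2 ^ (2 * m)) ^ 2 := by
      have h6 : q ^ 2 ≤ (ε / 8) ^ 2 * (2 * m + 1) := by
        have : q ^ 2 = (ε / 8) ^ 2 * (8 * q / ε) ^ 2 := by field_simp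
        rw [this]
        gcongr
      calc ((Nat.centralBinom m : ℝ) * q) ^ 2 = (Nat.centralBinom m : ℝ) ^ 2 * q ^ 2 := by ring
        _ ≤ (Nat.centralBinom m : ℝ) ^ 2 * ((ε / 8) ^ 2 * (2 * m + 1)) := by gcongr
        _ = (ε / 8) ^ 2 * ((Nat.centralBinom m : ℝ) ^ 2 * (2 * m + 1)) := by ring
        _ ≤ (ε / 8) ^ 2 * 16 ^ m := by gcongr
        _ = (ε / 8 * 2 ^ (2 * m)) ^ 2 := by
            rw [mul_pow, ← pow_mul, show (16 : ℝ) = 2 ^ 4 by norm_num, ← pow_mul]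
            congr 2
            ring
    exact (pow_le_pow_iff_left₀ (by positivity) (by positivity) two_ne_zero).1 h5
  have h7 : (B.card : ℝ) ≤ ε / 8 * 2 ^ Fintype.card I := by
    have h8 : (B.card : ℝ) * 2 ^ (2 * m) ≤ (ε / 8 * 2 ^ Fintype.card I) * 2 ^ (2 * m) := by
      calc (B.card : ℝ) * 2 ^ (2 * m) ≤
            (2 * M + 1) * d * (Nat.centralBinom m * (Θ + 1)) * 2 ^ Fintype.card I := h2
        _ = (Nat.centralBinom m * q) * 2 ^ Fintype.card I := by rw [hq]; ring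
        _ ≤ (ε / 8 * 2 ^ (2 * m)) * 2 ^ Fintype.card I := by gcongr
        _ = (ε / 8 * 2 ^ Fintype.card I) * 2 ^ (2 * m) := by ring
    exact le_of_mul_le_mul_right h8 (by positivity)
  have h9 : ∀ x : I → Bool, (f x - f (freeze (V \ J) x)) ^ 2 ≤
      1 / (M : ℝ) ^ 2 + if x ∈ B then 4 else 0 := by
    intro x
    by_cases hx : x ∈ B
    · rw [if_pos hx]
      have h10 := abs_le.1 (hf x)
      have h11 := abs_le.1 (hf (freeze (V \ J) x))
      have h12 : (f x - f (freeze (V \ J) x)) ^ 2 ≤ 4 := by nlinarith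
      have : 0 ≤ 1 / (M : ℝ) ^ 2 := by positivity
      linarith
    · rw [if_neg hx, add_zero]
      have h13 : |f x - f (freeze (V \ J) x)| ≤ 1 / (M : ℝ) := by
        by_contra hcon
        push Not at hcon
        exact hx (Finset.mem_filter.2 ⟨Finset.mem_univ _, hcon⟩)
      calc (f x - f (freeze (V \ J) x)) ^ 2 = |f x - f (freeze (V \ J) x)| ^ 2 := (sq_abs _).symm
        _ ≤ (1 / (M : ℝ)) ^ 2 := pow_le_pow_left₀ (abs_nonneg _) h13 2
        _ = 1 / (M : ℝ) ^ 2 := by rw [div_pow, one_pow]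
  calc ((2 : ℝ) ^ (Fintype.card I))⁻¹ * ∑ x : I → Bool, (f x - f (freeze (V \ J) x)) ^ 2
      ≤ ((2 : ℝ) ^ (Fintype.card I))⁻¹ * ∑ x : I → Bool,
          (1 / (M : ℝ) ^ 2 + if x ∈ B then 4 else 0) := by
        gcongr with x _
        exact h9 x
    _ = 1 / (M : ℝ) ^ 2 + 4 * ((2 : ℝ) ^ (Fintype.card I))⁻¹ * B.card := by
        rw [Finset.sum_add_distrib, Finset.sum_const, Finset.card_univ, nsmul_eq_mul,
          ← Finset.sum_filter, Finset.sum_const, nsmul_eq_mul, Finset.filter_mem_eq_inter,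
          Finset.univ_inter]
        simp only [Fintype.card_pi, Fintype.card_bool, Finset.prod_const, Finset.card_univ,
          Nat.cast_pow, Nat.cast_ofNat]
        field_simp
    _ ≤ 1 / (M : ℝ) ^ 2 + 4 * ((2 : ℝ) ^ (Fintype.card I))⁻¹ * (ε / 8 * 2 ^ Fintype.card I) := by
        gcongr
    _ = 1 / (M : ℝ) ^ 2 + ε / 2 := by field_simp; ring

/-- **The block lemma.** If on a block `V` of coordinates `f` is a polynomial of degree at most `d`
of one linear form, then all but `ε` of the Fourier weight of `f` avoids all but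
`poly(d, 1/ε)` coordinates of the block. -/
theorem block (hf : ∀ x, |f x| ≤ 1) (hd : 1 ≤ d) (hdeg : ∀ x, (Pc x).natDegree ≤ d)
    (hdep : ∀ x y : I → Bool, (∀ i ∉ V, x i = y i) → Pc x = Pc y)
    (heq : ∀ x, f x = (Pc x).eval (lin a V x)) {ε : ℝ} (hε : 0 < ε) (hε1 : ε ≤ 1) :
    ∃ J ⊆ V, (J.card : ℝ) ≤ 2 ^ 21 * (d : ℝ) ^ 10 / ε ^ 6 ∧
      ∑ S ∈ (Finset.univ : Finset (Finset I)).filter (fun S => ¬ Disjoint S (V \ J)),
        coef f S ^ 2 ≤ ε := by
  have hd' : (1 : ℝ) ≤ d := by exact_mod_cast hd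
  set Θ : ℕ := ⌈16 * (d : ℝ) ^ 4 / ε⌉₊ with hΘdef
  set M : ℕ := ⌈2 / ε⌉₊ with hMdef
  set m : ℕ := ⌈2 ^ 19 * (d : ℝ) ^ 10 / ε ^ 6⌉₊ with hmdef
  have hd2 : (1 : ℝ) ≤ (d : ℝ) ^ 2 := one_le_pow₀ hd'
  have hd4 : (1 : ℝ) ≤ (d : ℝ) ^ 4 := one_le_pow₀ hd'
  have hd10 : (1 : ℝ) ≤ (d : ℝ) ^ 10 := one_le_pow₀ hd'
  have hε6 : ε ^ 6 ≤ 1 := pow_le_one₀ hε.le hε1
  have hΘ1 : 16 * (d : ℝ) ^ 4 / ε ≤ Θ := Nat.le_ceil _
  have hΘ2 : (Θ : ℝ) < 16 * (d : ℝ) ^ 4 / ε + 1 := Nat.ceil_lt_add_one (by positivity)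
  have hM1 : 2 / ε ≤ M := Nat.le_ceil _
  have hM2 : (M : ℝ) < 2 / ε + 1 := Nat.ceil_lt_add_one (by positivity)
  have hm1 : 2 ^ 19 * (d : ℝ) ^ 10 / ε ^ 6 ≤ m := Nat.le_ceil _
  have hm2 : (m : ℝ) < 2 ^ 19 * (d : ℝ) ^ 10 / ε ^ 6 + 1 := Nat.ceil_lt_add_one (by positivity)
  have hone : (1 : ℝ) ≤ 1 / ε := by rw [le_div_iff₀ hε]; linarith
  have hΘpos : 0 < Θ := by
    have : (0 : ℝ) < Θ := lt_of_lt_of_le (by positivity) hΘ1
    exact_mod_cast this
  have hMpos : 0 < M := by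
    have : (0 : ℝ) < M := lt_of_lt_of_le (by positivity) hM1
    exact_mod_cast this
  have hΘpos' : (0 : ℝ) < Θ := by exact_mod_cast hΘpos
  have hMpos' : (0 : ℝ) < M := by exact_mod_cast hMpos
  obtain ⟨J, hJV, hJK, hcase⟩ := greedy a V (θ := 1 / (Θ : ℝ)) (by positivity) (2 * m)
  refine ⟨J, hJV, ?_, ?_⟩
  · have h1 : (J.card : ℝ) ≤ 2 * m := by exact_mod_cast hJK
    have h2 : (1 : ℝ) ≤ (d : ℝ) ^ 10 / ε ^ 6 := by
      rw [le_div_iff₀ (by positivity)]; linarith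
    calc (J.card : ℝ) ≤ 2 * m := h1
      _ ≤ 2 * (2 ^ 19 * (d : ℝ) ^ 10 / ε ^ 6 + 1) := by linarith
      _ = 2 ^ 20 * ((d : ℝ) ^ 10 / ε ^ 6) + 2 := by ring
      _ ≤ 2 ^ 21 * ((d : ℝ) ^ 10 / ε ^ 6) := by nlinarith
      _ = 2 ^ 21 * (d : ℝ) ^ 10 / ε ^ 6 := by ring
  by_cases hsmooth : ∀ i ∈ V \ J, |a i| ≤ 1 / (Θ : ℝ) * ∑ j ∈ V \ J, |a j|
  · have hθ : 16 * (d : ℝ) ^ 4 * (1 / (Θ : ℝ)) ≤ ε := by
      rw [mul_one_div, div_le_iff₀ hΘpos']
      rw [div_le_iff₀ hε] at hΘ1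
      linarith
    have h1 := case_smooth hf hdeg hdep heq hJV (θ := 1 / (Θ : ℝ)) (by positivity)
      (by
        rw [mul_one_div, div_le_one hΘpos']
        refine le_trans ?_ hΘ1
        rw [le_div_iff₀ hε]
        have h3 : (d : ℝ) ^ 2 ≤ (d : ℝ) ^ 4 := pow_le_pow_right₀ hd' (by norm_num)
        nlinarith) hsmooth
    refine weight_touching_le (g := fun x => (Pc x).eval (lin a J x)) ?_ (h1.trans hθ)
    intro x y hxy
    have h4 : Pc x = Pc y := hdep x y fun i hi => hxy i fun h => hi (Finset.mem_sdiff.1 h).1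
    have h5 : lin a J x = lin a J y := lin_congr a fun i hi =>
      hxy i fun h => (Finset.mem_sdiff.1 h).2 hi
    simp only [h4, h5]
  · rcases hcase with hcase | ⟨hcard, hbig⟩
    · exact absurd hcase hsmooth
    have hs : 0 < ∑ j ∈ V \ J, |a j| := by
      by_contra hcon
      have h0 : ∑ j ∈ V \ J, |a j| = 0 :=
        le_antisymm (not_lt.1 hcon) (Finset.sum_nonneg fun _ _ => abs_nonneg _)
      apply hsmooth
      intro i hi
      have h6 : |a i| ≤ ∑ j ∈ V \ J, |a j| :=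
        Finset.single_le_sum (f := fun j => |a j|) (fun _ _ => abs_nonneg _) hi
      rw [h0, mul_zero]
      rw [h0] at h6
      exact h6
    have hm3 : (8 * ((2 * M + 1) * d * (Θ + 1) : ℝ) / ε) ^ 2 ≤ 2 * m + 1 := by
      have h7 : (2 * (M : ℝ) + 1) ≤ 7 / ε := by
        have : 7 / ε = 2 * (2 / ε) + 3 * (1 / ε) := by ring
        linarith
      have h8 : (Θ : ℝ) + 1 ≤ 18 * (d : ℝ) ^ 4 / ε := by
        have h9 : 18 * (d : ℝ) ^ 4 / ε = 16 * (d : ℝ) ^ 4 / ε + 2 * ((d : ℝ) ^ 4 * (1 / ε)) := by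
          ring
        have h10 : 1 ≤ (d : ℝ) ^ 4 * (1 / ε) := by nlinarith
        linarith
      have h11 : 8 * ((2 * M + 1) * d * (Θ + 1) : ℝ) / ε ≤ 2 ^ 10 * (d : ℝ) ^ 5 / ε ^ 3 := by
        calc 8 * ((2 * M + 1) * d * (Θ + 1) : ℝ) / ε
            ≤ 8 * ((7 / ε) * d * (18 * (d : ℝ) ^ 4 / ε)) / ε := by gcongr
          _ = 1008 * ((d : ℝ) ^ 5 / ε ^ 3) := by field_simp; ring
          _ ≤ 2 ^ 10 * ((d : ℝ) ^ 5 / ε ^ 3) := by
              have : 0 ≤ (d : ℝ) ^ 5 / ε ^ 3 := by positivity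
              nlinarith
          _ = 2 ^ 10 * (d : ℝ) ^ 5 / ε ^ 3 := by ring
      calc (8 * ((2 * M + 1) * d * (Θ + 1) : ℝ) / ε) ^ 2
          ≤ (2 ^ 10 * (d : ℝ) ^ 5 / ε ^ 3) ^ 2 := by gcongr
        _ = 2 * (2 ^ 19 * (d : ℝ) ^ 10 / ε ^ 6) := by
            rw [div_pow, mul_pow, ← pow_mul, ← pow_mul]
            ring
        _ ≤ 2 * m + 1 := by linarith
    have h12 := case_rough hf hdeg hdep heq hJV hMpos hΘpos hs hcard hbig hε hm3
    have h13 : 1 / (M : ℝ) ^ 2 ≤ ε / 2 := by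
      rw [div_le_iff₀ (by positivity)]
      rw [div_le_iff₀ hε] at hM1
      have h14 : (1 : ℝ) ≤ M := by exact_mod_cast hMpos
      nlinarith
    refine weight_touching_le (g := fun x => f (freeze (V \ J) x)) ?_
      (h12.trans (by linarith))
    intro x y hxy
    have : freeze (V \ J) x = freeze (V \ J) y := by
      funext i
      unfold freeze
      by_cases hi : i ∈ V \ J
      · simp [hi]
      · simp only [hi, if_false]
        exact hxy i hi
    simp only [this]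

end

end Pool.Agent.Lib_helper30.AA
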