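import Pool.Agent.Lib_helper30.AA.Degree

set_option autoImplicit false
set_option linter.unusedSectionVars false

open Finset Polynomial

namespace Pool.Agent.Lib_helper30.AA

variable {I : Type} [Fintype I] [DecidableEq I]

/-- Flipping all the coordinates in `B`. -/
def flipSet (B : Finset I) (x : I → Bool) : I → Bool := fun i => if i ∈ B then !x i else x i

lemma flipSet_empty (x : I → Bool) : flipSet ∅ x = x := by
  funext i; simp [flipSet]

lemma flipSet_singleton (i : I) (x : I → Bool) : flipSet {i} x = flip i x := by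
  funext j
  unfold flipSet flip
  by_cases h : j = i
  · subst h; simp
  · simp [h]

lemma flip_flipSet_erase {B : Finset I} {i : I} (hi : i ∈ B) (x : I → Bool) :
    flip i (flipSet (B.erase i) x) = flipSet B x := by
  funext j
  unfold flipSet flip
  by_cases h : j = i
  · subst h; simp [hi]
  · simp [h]

lemma flip_flipSet {B : Finset I} {i : I} (hi : i ∈ B) (x : I → Bool) :
    flip i (flipSet B x) = flipSet (B.erase i) x := by
  rw [← flip_flipSet_erase hi x, flip_flip]

lemma chi_flipSet (S B : Finset I) (x : I → Bool) :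
    chi S (flipSet B x) = (-1 : ℝ) ^ (S ∩ B).card * chi S x := by
  unfold chi flipSet
  rw [← Finset.prod_inter_mul_prod_sdiff S B
      (fun i => (-1 : ℝ) ^ (if i ∈ B then !x i else x i).toNat),
    ← Finset.prod_inter_mul_prod_sdiff S B (fun i => (-1 : ℝ) ^ (x i).toNat), ← mul_assoc]
  congr 1
  · rw [← Finset.prod_const, ← Finset.prod_mul_distrib]
    refine Finset.prod_congr rfl fun i hi => ?_
    rw [if_pos (Finset.mem_inter.1 hi).2, sign_mul_not]
    ring
  · refine Finset.prod_congr rfl fun i hi => ?_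
    rw [if_neg (Finset.mem_sdiff.1 hi).2]

lemma card_inter_biUnion (S : Finset I) (R : Finset (Finset I))
    (hR : (R : Set (Finset I)).PairwiseDisjoint id) :
    (S ∩ R.biUnion id).card = ∑ B ∈ R, (S ∩ B).card := by
  rw [Finset.inter_biUnion, Finset.card_biUnion]
  · rfl
  · intro B hB B' hB' hne
    exact Finset.disjoint_of_subset_left Finset.inter_subset_right
      (Finset.disjoint_of_subset_right Finset.inter_subset_right (hR hB hB' hne))

/-- The number of blocks met by `S` an odd number of times. -/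
def oddc (𝓑 : Finset (Finset I)) (S : Finset I) : ℕ := (𝓑.filter (fun B => Odd (S ∩ B).card)).card

lemma oddc_le {𝓑 : Finset (Finset I)} (h𝓑 : (𝓑 : Set (Finset I)).PairwiseDisjoint id)
    (S : Finset I) : oddc 𝓑 S ≤ S.card := by
  unfold oddc
  calc (𝓑.filter (fun B => Odd (S ∩ B).card)).card
      = ∑ B ∈ 𝓑.filter (fun B => Odd (S ∩ B).card), 1 := by simp
    _ ≤ ∑ B ∈ 𝓑.filter (fun B => Odd (S ∩ B).card), (S ∩ B).card :=
        Finset.sum_le_sum fun B hB => by
          have := (Finset.mem_filter.1 hB).2.pos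
          omega
    _ ≤ ∑ B ∈ 𝓑, (S ∩ B).card :=
        Finset.sum_le_sum_of_subset (Finset.filter_subset _ _)
    _ = (S ∩ 𝓑.biUnion id).card := (card_inter_biUnion S 𝓑 h𝓑).symm
    _ ≤ S.card := Finset.card_le_card Finset.inter_subset_left

lemma prod_blocks (𝓑 : Finset (Finset I)) (S : Finset I) (t : ℝ) :
    ∏ B ∈ 𝓑, (t * (-1 : ℝ) ^ (S ∩ B).card + (1 - t)) = (1 - 2 * t) ^ oddc 𝓑 S := by
  unfold oddc
  rw [← Finset.prod_const, Finset.prod_filter]
  refine Finset.prod_congr rfl fun B _ => ?_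
  split_ifs with h
  · rw [h.neg_one_pow]; ring
  · rw [(Nat.not_odd_iff_even.1 h).neg_one_pow]; ring

/-- The path polynomial. -/
noncomputable def pathP (f : (I → Bool) → ℝ) (𝓑 : Finset (Finset I)) (x : I → Bool) : ℝ[X] :=
  ∑ S : Finset I, C (coef f S * chi S x) * (1 - 2 * X) ^ oddc 𝓑 S

lemma pathP_natDegree {f : (I → Bool) → ℝ} {d : ℕ} (hdeg : ∀ S : Finset I, d < S.card → coef f S = 0)
    {𝓑 : Finset (Finset I)} (h𝓑 : (𝓑 : Set (Finset I)).PairwiseDisjoint id) (x : I → Bool) :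
    (pathP f 𝓑 x).natDegree ≤ d := by
  unfold pathP
  refine natDegree_sum_le_of_forall_le _ _ fun S _ => ?_
  by_cases hS : d < S.card
  · rw [hdeg S hS]; simp
  · refine (natDegree_C_mul_le _ _).trans ?_
    refine (natDegree_pow_le).trans ?_
    have h1 : (1 - 2 * X : ℝ[X]).natDegree ≤ 1 := by
      compute_degree
    calc oddc 𝓑 S * (1 - 2 * X : ℝ[X]).natDegree ≤ S.card * 1 :=
          Nat.mul_le_mul (oddc_le h𝓑 S) h1
      _ ≤ d := by omega

lemma pathP_eval (f : (I → Bool) → ℝ) {𝓑 : Finset (Finset I)}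
    (h𝓑 : (𝓑 : Set (Finset I)).PairwiseDisjoint id) (x : I → Bool) (t : ℝ) :
    (pathP f 𝓑 x).eval t = ∑ R ∈ 𝓑.powerset,
      (t ^ R.card * (1 - t) ^ (𝓑 \ R).card) * f (flipSet (R.biUnion id) x) := by
  unfold pathP
  rw [eval_finsetSum]
  have h1 : ∀ S : Finset I, (C (coef f S * chi S x) * (1 - 2 * X) ^ oddc 𝓑 S).eval t =
      ∑ R ∈ 𝓑.powerset, (t ^ R.card * (1 - t) ^ (𝓑 \ R).card) *
        (coef f S * chi S (flipSet (R.biUnion id) x)) := by
    intro S
    simp only [eval_mul, eval_C, eval_pow, eval_sub, eval_one, eval_X, eval_ofNat]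
    rw [← prod_blocks, Finset.prod_add, Finset.mul_sum]
    refine Finset.sum_congr rfl fun R hR => ?_
    have hRsub := Finset.mem_powerset.1 hR
    rw [chi_flipSet, card_inter_biUnion S R (h𝓑.subset (by exact_mod_cast hRsub)),
      ← Finset.prod_pow_eq_pow_sum, Finset.prod_mul_distrib, Finset.prod_const, Finset.prod_const]
    ring
  simp_rw [h1]
  rw [Finset.sum_comm]
  refine Finset.sum_congr rfl fun R _ => ?_
  rw [← Finset.mul_sum, ← inversion]

lemma pathP_bound {f : (I → Bool) → ℝ} (hf : ∀ x, |f x| ≤ 1) {𝓑 : Finset (Finset I)}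
    (h𝓑 : (𝓑 : Set (Finset I)).PairwiseDisjoint id) (x : I → Bool) {t : ℝ}
    (ht : t ∈ Set.Icc (0 : ℝ) 1) : |(pathP f 𝓑 x).eval t| ≤ 1 := by
  rw [pathP_eval f h𝓑]
  have hw : ∀ R : Finset (Finset I), 0 ≤ t ^ R.card * (1 - t) ^ (𝓑 \ R).card := fun R =>
    mul_nonneg (pow_nonneg ht.1 _) (pow_nonneg (by linarith [ht.2]) _)
  calc |∑ R ∈ 𝓑.powerset, (t ^ R.card * (1 - t) ^ (𝓑 \ R).card) * f (flipSet (R.biUnion id) x)|
      ≤ ∑ R ∈ 𝓑.powerset, |(t ^ R.card * (1 - t) ^ (𝓑 \ R).card) *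
          f (flipSet (R.biUnion id) x)| := Finset.abs_sum_le_sum_abs _ _
    _ ≤ ∑ R ∈ 𝓑.powerset, t ^ R.card * (1 - t) ^ (𝓑 \ R).card := by
        refine Finset.sum_le_sum fun R _ => ?_
        rw [abs_mul, abs_of_nonneg (hw R)]
        exact mul_le_of_le_one_right (hw R) (hf _)
    _ = 1 := by
        have h1 := Finset.prod_add (fun _ : Finset I => t) (fun _ => 1 - t) 𝓑
        simp only [Finset.prod_const] at h1
        rw [← h1]
        simp

lemma pathP_deriv (f : (I → Bool) → ℝ) (𝓑 : Finset (Finset I)) (x : I → Bool) :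
    (pathP f 𝓑 x).derivative.eval 0 = ∑ B ∈ 𝓑, (f (flipSet B x) - f x) := by
  have h1 : ∀ B : Finset I, f (flipSet B x) - f x = ∑ S : Finset I, coef f S * chi S x *
      (if Odd (S ∩ B).card then (-2 : ℝ) else 0) := by
    intro B
    rw [inversion f (flipSet B x)]
    conv_lhs => rw [inversion f x]
    rw [← Finset.sum_sub_distrib]
    refine Finset.sum_congr rfl fun S _ => ?_
    rw [chi_flipSet]
    split_ifs with h
    · rw [h.neg_one_pow]; ring
    · rw [(Nat.not_odd_iff_even.1 h).neg_one_pow]; ring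
  simp_rw [h1]
  rw [Finset.sum_comm]
  unfold pathP
  rw [derivative_sum, eval_finsetSum]
  refine Finset.sum_congr rfl fun S _ => ?_
  rw [← Finset.mul_sum, ← Finset.sum_filter, Finset.sum_const, nsmul_eq_mul, derivative_C_mul,
    eval_C_mul, derivative_pow]
  unfold oddc
  simp

/-- **Block sensitivity of bounded functions.** -/
lemma block_signed {f : (I → Bool) → ℝ} (hf : ∀ x, |f x| ≤ 1) {d : ℕ}
    (hdeg : ∀ S : Finset I, d < S.card → coef f S = 0) {𝓑 : Finset (Finset I)}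
    (h𝓑 : (𝓑 : Set (Finset I)).PairwiseDisjoint id) (x : I → Bool) :
    |∑ B ∈ 𝓑, (f (flipSet B x) - f x)| ≤ 4 * (d : ℝ) ^ 2 := by
  rw [← pathP_deriv]
  have := markov_interval (pathP_natDegree hdeg h𝓑 x) (U := 1) (B := 1) one_pos one_pos
    (fun t ht => pathP_bound hf h𝓑 x ht) (t := 0) (by simp)
  simpa using this

lemma block_l1 {f : (I → Bool) → ℝ} (hf : ∀ x, |f x| ≤ 1) {d : ℕ}
    (hdeg : ∀ S : Finset I, d < S.card → coef f S = 0) {𝓑 : Finset (Finset I)}
    (h𝓑 : (𝓑 : Set (Finset I)).PairwiseDisjoint id) (x : I → Bool) :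
    ∑ B ∈ 𝓑, |f (flipSet B x) - f x| ≤ 8 * (d : ℝ) ^ 2 := by
  classical
  rw [← Finset.sum_filter_add_sum_filter_not 𝓑 (fun B => 0 ≤ f (flipSet B x) - f x)]
  have h1 := block_signed hf hdeg (𝓑 := 𝓑.filter (fun B => 0 ≤ f (flipSet B x) - f x))
    (h𝓑.subset (fun B hB => (Finset.mem_filter.1 (Finset.mem_coe.1 hB)).1)) x
  have h2 := block_signed hf hdeg (𝓑 := 𝓑.filter (fun B => ¬ 0 ≤ f (flipSet B x) - f x))
    (h𝓑.subset (fun B hB => (Finset.mem_filter.1 (Finset.mem_coe.1 hB)).1)) x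
  have h3 : ∑ B ∈ 𝓑.filter (fun B => 0 ≤ f (flipSet B x) - f x), |f (flipSet B x) - f x| =
      ∑ B ∈ 𝓑.filter (fun B => 0 ≤ f (flipSet B x) - f x), (f (flipSet B x) - f x) :=
    Finset.sum_congr rfl fun B hB => abs_of_nonneg (Finset.mem_filter.1 hB).2
  have h4 : ∑ B ∈ 𝓑.filter (fun B => ¬ 0 ≤ f (flipSet B x) - f x), |f (flipSet B x) - f x| =
      - ∑ B ∈ 𝓑.filter (fun B => ¬ 0 ≤ f (flipSet B x) - f x), (f (flipSet B x) - f x) := by
    rw [← Finset.sum_neg_distrib]
    exact Finset.sum_congr rfl fun B hB =>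
      abs_of_neg (not_le.1 (Finset.mem_filter.1 hB).2)
  rw [h3, h4]
  have h5 := (abs_le.1 h1).2
  have h6 := (abs_le.1 h2).1
  linarith

lemma sens_l1 {f : (I → Bool) → ℝ} (hf : ∀ x, |f x| ≤ 1) {d : ℕ}
    (hdeg : ∀ S : Finset I, d < S.card → coef f S = 0) (T : Finset I) (x : I → Bool) :
    ∑ i ∈ T, |f x - f (flip i x)| ≤ 8 * (d : ℝ) ^ 2 := by
  classical
  have h1 := block_l1 hf hdeg (𝓑 := T.image (fun i => ({i} : Finset I))) (by
    intro B hB B' hB' hne
    rw [Finset.coe_image] at hB hB'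
    obtain ⟨i, _, rfl⟩ := hB
    obtain ⟨j, _, rfl⟩ := hB'
    rw [Function.onFun, id, id, Finset.disjoint_singleton]
    rintro rfl
    exact hne rfl) x
  rw [Finset.sum_image (fun i _ j _ h => Finset.singleton_injective h)] at h1
  refine le_trans (le_of_eq ?_) h1
  refine Finset.sum_congr rfl fun i _ => ?_
  rw [flipSet_singleton, abs_sub_comm]

/-- **Small certificates** for functions whose nonzero derivatives are at least `κ`. -/
lemma exists_cert {f : (I → Bool) → ℝ} (hf : ∀ x, |f x| ≤ 1) {d : ℕ}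
    (hdeg : ∀ S : Finset I, d < S.card → coef f S = 0) {κ : ℝ} (hκ : 0 < κ)
    (hgran : ∀ (i : I) (x : I → Bool), f x ≠ f (flip i x) → κ ≤ |f x - f (flip i x)|)
    {s : ℕ} (hs : 8 * (d : ℝ) ^ 2 < κ * (s + 1)) (x : I → Bool) :
    ∃ S : Finset I, S.card ≤ s * s ∧ ∀ y : I → Bool, (∀ i ∈ S, y i = x i) → f y = f x := by
  classical
  set 𝓜 : Finset (Finset I) := Finset.univ.filter (fun B => f (flipSet B x) ≠ f x ∧
    ∀ i ∈ B, f (flipSet (B.erase i) x) = f x) with h𝓜
  have hmem : ∀ B, B ∈ 𝓜 ↔ (f (flipSet B x) ≠ f x ∧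
      ∀ i ∈ B, f (flipSet (B.erase i) x) = f x) := by
    intro B; rw [h𝓜]; simp
  -- maximal disjoint subfamily
  obtain ⟨𝓑, h𝓑mem, h𝓑max⟩ := Finset.exists_max_image
    (𝓜.powerset.filter (fun 𝓑 => ((𝓑 : Finset (Finset I)) : Set (Finset I)).PairwiseDisjoint id))
    Finset.card ⟨∅, by simp⟩
  rw [Finset.mem_filter, Finset.mem_powerset] at h𝓑mem
  obtain ⟨hsub, hdisj⟩ := h𝓑mem
  have hne : ∀ B ∈ 𝓜, B.Nonempty := by
    intro B hB
    by_contra hcon
    rw [Finset.not_nonempty_iff_eq_empty] at hcon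
    have := ((hmem B).1 hB).1
    rw [hcon, flipSet_empty] at this
    exact this rfl
  have hbig : ∀ B ∈ 𝓜, κ ≤ |f (flipSet B x) - f x| := by
    intro B hB
    obtain ⟨i, hi⟩ := hne B hB
    obtain ⟨h1, h2⟩ := (hmem B).1 hB
    have h3 := hgran i (flipSet (B.erase i) x) (by
      rw [flip_flipSet_erase hi, h2 i hi]
      exact fun h => h1 h.symm)
    rw [flip_flipSet_erase hi, h2 i hi, abs_sub_comm] at h3
    exact h3
  have hcount : ∀ m : ℕ, (m : ℝ) * κ ≤ 8 * (d : ℝ) ^ 2 → m ≤ s := by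
    intro m hm
    by_contra hcon
    push Not at hcon
    have h1 : (s : ℝ) + 1 ≤ m := by exact_mod_cast hcon
    nlinarith
  have h𝓑card : 𝓑.card ≤ s := by
    apply hcount
    refine le_trans ?_ (block_l1 hf hdeg hdisj x)
    rw [← nsmul_eq_mul]
    exact Finset.card_nsmul_le_sum _ _ _ fun B hB => hbig B (hsub hB)
  have hBcard : ∀ B ∈ 𝓜, B.card ≤ s := by
    intro B hB
    apply hcount
    refine le_trans ?_ (sens_l1 hf hdeg B (flipSet B x))
    rw [← nsmul_eq_mul]
    refine Finset.card_nsmul_le_sum _ _ _ fun i hi => ?_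
    obtain ⟨h1, h2⟩ := (hmem B).1 hB
    apply hgran
    rw [flip_flipSet hi, h2 i hi]
    exact h1
  refine ⟨𝓑.biUnion id, ?_, ?_⟩
  · calc (𝓑.biUnion id).card ≤ 𝓑.card * s :=
        Finset.card_biUnion_le_card_mul _ _ _ fun B hB => hBcard B (hsub hB)
      _ ≤ s * s := Nat.mul_le_mul_right _ h𝓑card
  · intro y hy
    by_contra hcon
    set B0 : Finset I := Finset.univ.filter (fun i => x i ≠ y i) with hB0
    have hB0y : flipSet B0 x = y := by
      funext i
      unfold flipSet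
      by_cases h : x i = y i
      · simp [hB0, h]
      · have : i ∈ B0 := by rw [hB0]; simp [h]
        rw [if_pos this]
        cases hx : x i <;> cases hy' : y i <;> simp_all
    -- a minimal sensitive subset of `B0`
    obtain ⟨B, hBmem, hBmin⟩ := Finset.exists_min_image
      (B0.powerset.filter (fun B => f (flipSet B x) ≠ f x)) Finset.card
      ⟨B0, by rw [Finset.mem_filter, hB0y]; exact ⟨Finset.mem_powerset_self _, hcon⟩⟩
    rw [Finset.mem_filter, Finset.mem_powerset] at hBmem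
    have hB𝓜 : B ∈ 𝓜 := by
      rw [hmem]
      refine ⟨hBmem.2, fun i hi => ?_⟩
      by_contra h
      have := hBmin (B.erase i) (by
        rw [Finset.mem_filter, Finset.mem_powerset]
        exact ⟨(Finset.erase_subset _ _).trans hBmem.1, h⟩)
      rw [Finset.card_erase_of_mem hi] at this
      have := Finset.card_pos.2 ⟨i, hi⟩
      omega
    have hBdisj : ∀ B' ∈ 𝓑, Disjoint B B' := by
      intro B' hB'
      rw [Finset.disjoint_left]
      intro i hi hi'
      have h1 : i ∈ 𝓑.biUnion id := Finset.mem_biUnion.2 ⟨B', hB', hi'⟩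
      have h2 := (Finset.mem_filter.1 (hBmem.1 hi)).2
      exact h2 (hy i h1).symm
    have hBnot : B ∉ 𝓑 := by
      intro h
      have := hBdisj B h
      rw [Finset.disjoint_self_iff_empty] at this
      exact (hne B hB𝓜).ne_empty this
    have := h𝓑max (insert B 𝓑) (by
      rw [Finset.mem_filter, Finset.mem_powerset]
      refine ⟨Finset.insert_subset hB𝓜 hsub, ?_⟩
      rw [Finset.coe_insert, Set.pairwiseDisjoint_insert]
      exact ⟨hdisj, fun B' hB' _ => hBdisj B' hB'⟩)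
    rw [Finset.card_insert_of_notMem hBnot] at this
    omega

end Pool.Agent.Lib_helper30.AA
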