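import Pool.Agent.Lib_helper30.AA.Block

set_option autoImplicit false
set_option linter.unusedSectionVars false

open Finset Polynomial

namespace Pool.Agent.Lib_helper30.AA

variable {I : Type} [Fintype I] [DecidableEq I]

lemma coef_chi (W S : Finset I) : coef (chi W) S = if W = S then 1 else 0 := by
  split_ifs with h
  · subst h
    unfold coef
    simp_rw [chi_mul_self]
    rw [Finset.sum_const, Finset.card_univ, nsmul_eq_mul]
    simp
  · have h1 : ∃ j, (j ∈ W ∧ j ∉ S) ∨ (j ∉ W ∧ j ∈ S) := by
      by_contra hcon
      push Not at hcon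
      apply h
      ext j
      constructor
      · intro hj; exact (hcon j).1 hj
      · intro hj
        by_contra hj2
        exact (hcon j).2 hj2 hj
    obtain ⟨j, hj | hj⟩ := h1
    · have h2 := coef_comp_flip (chi W) j S
      rw [if_neg hj.2] at h2
      have h3 : (fun x => chi W (flip j x)) = fun x => (-1) * chi W x := by
        funext x
        rw [chi_flip_of_mem hj.1]
        ring
      rw [h3, coef_const_mul] at h2
      linarith
    · have h2 := coef_comp_flip (chi W) j S
      rw [if_pos hj.2] at h2
      have h3 : (fun x => chi W (flip j x)) = chi W := by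
        funext x
        rw [chi_flip_of_notMem hj.1]
      rw [h3] at h2
      linarith

lemma coef_sign_mul (g : (I → Bool) → ℝ) (i : I) (S : Finset I) :
    coef (fun x => (-1 : ℝ) ^ (x i).toNat * g x) S =
      coef g (if i ∈ S then S.erase i else insert i S) := by
  unfold coef
  congr 1
  refine Finset.sum_congr rfl fun x _ => ?_
  split_ifs with h
  · unfold chi
    rw [← Finset.mul_prod_erase S _ h]
    have := sign_mul_self (x i)
    linear_combination (g x * ∏ j ∈ S.erase i, (-1 : ℝ) ^ (x j).toNat) * this
  · unfold chi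
    rw [Finset.prod_insert h]
    ring

lemma coef_lin_mul (a : I → ℝ) (V : Finset I) (g : (I → Bool) → ℝ) (S : Finset I) :
    coef (fun x => lin a V x * g x) S =
      ∑ i ∈ V, a i * coef g (if i ∈ S then S.erase i else insert i S) := by
  have h1 : (fun x => lin a V x * g x) =
      fun x => ∑ i ∈ V, a i * ((-1 : ℝ) ^ (x i).toNat * g x) := by
    funext x
    unfold lin
    rw [Finset.sum_mul]
    refine Finset.sum_congr rfl fun i _ => ?_
    ring
  rw [h1, coef_sum]
  refine Finset.sum_congr rfl fun i _ => ?_
  rw [coef_const_mul, coef_sign_mul]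

lemma coef_lin_pow (a : I → ℝ) (V : Finset I) (k : ℕ) :
    (∀ S : Finset I, k < S.card → coef (fun x => lin a V x ^ k) S = 0) ∧
    (∀ S ⊆ V, S.card = k → coef (fun x => lin a V x ^ k) S = k.factorial * ∏ i ∈ S, a i) := by
  induction k with
  | zero =>
    constructor
    · intro S hS
      have h1 : (fun x => lin a V x ^ 0) = chi (∅ : Finset I) := by
        funext x; simp [chi]
      rw [h1, coef_chi, if_neg]
      rintro rfl
      simp at hS
    · intro S _ hS
      rw [Finset.card_eq_zero] at hS
      subst hS
      have h1 : (fun x => lin a V x ^ 0) = chi (∅ : Finset I) := by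
        funext x; simp [chi]
      rw [h1, coef_chi, if_pos rfl]
      simp
  | succ k ih =>
    have h1 : (fun x => lin a V x ^ (k + 1)) = fun x => lin a V x * lin a V x ^ k := by
      funext x; rw [pow_succ, mul_comm]
    rw [h1]
    constructor
    · intro S hS
      rw [coef_lin_mul]
      refine Finset.sum_eq_zero fun i _ => ?_
      rw [ih.1, mul_zero]
      split_ifs with hi
      · rw [Finset.card_erase_of_mem hi]; omega
      · rw [Finset.card_insert_of_notMem hi]; omega
    · intro S hSV hS
      rw [coef_lin_mul]
      rw [← Finset.sum_subset hSV]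
      · have h2 : ∀ i ∈ S, a i * coef (fun x => lin a V x ^ k)
            (if i ∈ S then S.erase i else insert i S) = k.factorial * ∏ j ∈ S, a j := by
          intro i hi
          rw [if_pos hi, ih.2 _ ((Finset.erase_subset _ _).trans hSV) (by
            rw [Finset.card_erase_of_mem hi]; omega), ← Finset.mul_prod_erase S a hi]
          ring
        rw [Finset.sum_congr rfl h2, Finset.sum_const, hS, nsmul_eq_mul, Nat.factorial_succ]
        push_cast
        ring
      · intro i _ hi
        rw [if_neg hi, ih.1, mul_zero]
        rw [Finset.card_insert_of_notMem hi]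
        omega

lemma coef_zero_fun (S : Finset I) : coef (fun _ => (0 : ℝ)) S = 0 := by
  simp [coef]

/-- The degree of a polynomial of a linear form. -/
lemma natDegree_le_of_coef {a : I → ℝ} {V : Finset I} {P : ℝ[X]} {d : ℕ}
    (hP : P.natDegree ≤ (V.filter (fun i => a i ≠ 0)).card)
    (h : ∀ S : Finset I, d < S.card → coef (fun x => P.eval (lin a V x)) S = 0) :
    P.natDegree ≤ d := by
  by_contra hcon
  push Not at hcon
  obtain ⟨S, hS, hcard⟩ := Finset.exists_subset_card_eq hP
  have h1 := h S (by omega)
  have h2 : (fun x => P.eval (lin a V x)) =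
      fun x => ∑ k ∈ Finset.range (P.natDegree + 1), P.coeff k * lin a V x ^ k := by
    funext x
    rw [eval_eq_sum_range]
  rw [h2, coef_sum, Finset.sum_range_succ] at h1
  have h3 : ∑ k ∈ Finset.range P.natDegree, coef (fun x => P.coeff k * lin a V x ^ k) S = 0 := by
    refine Finset.sum_eq_zero fun k hk => ?_
    rw [coef_const_mul, (coef_lin_pow a V k).1 S (by
      rw [hcard]; exact Finset.mem_range.1 hk), mul_zero]
  rw [h3, zero_add, coef_const_mul, (coef_lin_pow a V _).2 S
    (hS.trans (Finset.filter_subset _ _)) hcard] at h1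
  have h4 : P.coeff P.natDegree ≠ 0 := by
    intro h0
    have h5 : P = 0 := leadingCoeff_eq_zero.1 h0
    rw [h5, natDegree_zero] at hcon
    omega
  have h6 : ∏ i ∈ S, a i ≠ 0 := by
    rw [Finset.prod_ne_zero_iff]
    intro i hi
    exact (Finset.mem_filter.1 (hS hi)).2
  have h7 : ((P.natDegree.factorial : ℕ) : ℝ) ≠ 0 := by
    exact_mod_cast Nat.factorial_ne_zero _
  exact (mul_ne_zero h4 (mul_ne_zero h7 h6)) h1

/-- Combining two points. -/
def mix (V : Finset I) (x₀ z : I → Bool) : I → Bool := fun i => if i ∈ V then z i else x₀ i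

lemma chi_mix (V W : Finset I) (x₀ z : I → Bool) :
    chi W (mix V x₀ z) = chi (W \ V) x₀ * chi (W ∩ V) z := by
  unfold chi mix
  rw [← Finset.prod_sdiff (Finset.inter_subset_left : W ∩ V ⊆ W), Finset.sdiff_inter_self_left]
  congr 1
  · refine Finset.prod_congr rfl fun i hi => ?_
    rw [if_neg (Finset.mem_sdiff.1 hi).2]
  · refine Finset.prod_congr rfl fun i hi => ?_
    rw [if_pos (Finset.mem_inter.1 hi).2]

/-- Restrictions do not increase the degree. -/
lemma coef_mix_eq_zero {f : (I → Bool) → ℝ} {V : Finset I} {x₀ : I → Bool} {d : ℕ}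
    (hdeg : ∀ S : Finset I, d < S.card → coef f S = 0) {S : Finset I} (hS : d < S.card) :
    coef (fun z => f (mix V x₀ z)) S = 0 := by
  have h1 : (fun z => f (mix V x₀ z)) = fun z => ∑ W : Finset I,
      (coef f W * chi (W \ V) x₀) * chi (W ∩ V) z := by
    funext z
    rw [inversion f (mix V x₀ z)]
    refine Finset.sum_congr rfl fun W _ => ?_
    rw [chi_mix]
    ring
  rw [h1, coef_sum]
  refine Finset.sum_eq_zero fun W _ => ?_
  rw [coef_const_mul, coef_chi]
  split_ifs with h
  · have h2 : S.card ≤ W.card := by
      rw [← h]; exact Finset.card_le_card Finset.inter_subset_left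
    rw [hdeg W (by omega)]
    ring
  · ring

end Pool.Agent.Lib_helper30.AA
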