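import Mathlib

set_option autoImplicit false
set_option linter.unusedSectionVars false

open Finset

namespace Pool.Agent.Lib_helper30.AA

variable {I : Type} [Fintype I] [DecidableEq I]

/-- The character `χ_S`. -/
noncomputable def chi (S : Finset I) (x : I → Bool) : ℝ := ∏ i ∈ S, (-1 : ℝ) ^ (x i).toNat

/-- The Fourier coefficient. -/
noncomputable def coef (f : (I → Bool) → ℝ) (S : Finset I) : ℝ :=
  ((2 : ℝ) ^ (Fintype.card I))⁻¹ * ∑ x : I → Bool, f x * chi S x

lemma sign_mul_self (b : Bool) : (-1 : ℝ) ^ b.toNat * (-1 : ℝ) ^ b.toNat = 1 := by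
  cases b <;> simp

lemma sign_mul_not (b : Bool) : (-1 : ℝ) ^ (!b).toNat = - (-1 : ℝ) ^ b.toNat := by
  cases b <;> simp

lemma chi_mul_self (S : Finset I) (x : I → Bool) : chi S x * chi S x = 1 := by
  unfold chi
  rw [← Finset.prod_mul_distrib]
  exact Finset.prod_eq_one fun i _ => sign_mul_self _

lemma abs_chi (S : Finset I) (x : I → Bool) : |chi S x| = 1 := by
  have := chi_mul_self S x
  have h : |chi S x| * |chi S x| = 1 := by rw [← abs_mul, this, abs_one]
  nlinarith [abs_nonneg (chi S x)]

lemma sum_chi_mul_chi (x y : I → Bool) :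
    ∑ S : Finset I, chi S x * chi S y = if x = y then (2 : ℝ) ^ (Fintype.card I) else 0 := by
  have h1 : ∀ S : Finset I, chi S x * chi S y =
      ∏ i ∈ S, ((-1 : ℝ) ^ (x i).toNat * (-1 : ℝ) ^ (y i).toNat) := by
    intro S; unfold chi; rw [Finset.prod_mul_distrib]
  simp_rw [h1]
  have h2 := Finset.prod_one_add (R := ℝ)
    (f := fun i : I => (-1 : ℝ) ^ (x i).toNat * (-1 : ℝ) ^ (y i).toNat) (Finset.univ : Finset I)
  rw [Finset.powerset_univ] at h2
  rw [← h2]
  split_ifs with h
  · subst h
    simp only [sign_mul_self]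
    norm_num
  · have : ∃ i, x i ≠ y i := by
      by_contra hcon
      push Not at hcon
      exact h (funext hcon)
    obtain ⟨i, hi⟩ := this
    apply Finset.prod_eq_zero (Finset.mem_univ i)
    cases hx : x i <;> cases hy : y i <;> simp_all

lemma inversion (f : (I → Bool) → ℝ) (x : I → Bool) :
    f x = ∑ S : Finset I, coef f S * chi S x := by
  unfold coef
  have h : ∀ S : Finset I, ((2 : ℝ) ^ (Fintype.card I))⁻¹ * (∑ y : I → Bool, f y * chi S y) *
      chi S x = ∑ y : I → Bool, ((2 : ℝ) ^ (Fintype.card I))⁻¹ * f y * (chi S y * chi S x) := by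
    intro S
    rw [mul_assoc, Finset.sum_mul, Finset.mul_sum]
    refine Finset.sum_congr rfl fun y _ => ?_
    ring
  simp_rw [h]
  rw [Finset.sum_comm]
  simp_rw [← Finset.mul_sum, sum_chi_mul_chi]
  simp only [mul_ite, mul_zero, Finset.sum_ite_eq', Finset.mem_univ, if_true]
  field_simp

lemma parseval (f g : (I → Bool) → ℝ) :
    ∑ S : Finset I, coef f S * coef g S =
      ((2 : ℝ) ^ (Fintype.card I))⁻¹ * ∑ x : I → Bool, f x * g x := by
  have h : ∀ x, f x * g x = ∑ S : Finset I, coef f S * (g x * chi S x) := by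
    intro x
    conv_lhs => rw [inversion f x]
    rw [Finset.sum_mul]
    refine Finset.sum_congr rfl fun S _ => ?_
    ring
  simp_rw [h]
  rw [Finset.sum_comm, Finset.mul_sum]
  refine Finset.sum_congr rfl fun S _ => ?_
  rw [← Finset.mul_sum]
  unfold coef
  ring

lemma parseval_sq (f : (I → Bool) → ℝ) :
    ∑ S : Finset I, coef f S ^ 2 =
      ((2 : ℝ) ^ (Fintype.card I))⁻¹ * ∑ x : I → Bool, f x ^ 2 := by
  simpa [sq] using parseval f f

/-- Flipping coordinate `j`. -/
def flip (j : I) (x : I → Bool) : I → Bool := Function.update x j (!x j)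

lemma flip_flip (j : I) (x : I → Bool) : flip j (flip j x) = x := by
  unfold flip
  ext i
  by_cases h : i = j
  · subst h; simp
  · simp [h]

lemma flip_apply_of_ne {i j : I} (h : i ≠ j) (x : I → Bool) : flip j x i = x i := by
  simp [flip, h]

lemma chi_flip_of_mem {S : Finset I} {j : I} (hj : j ∈ S) (x : I → Bool) :
    chi S (flip j x) = - chi S x := by
  unfold chi
  rw [← Finset.mul_prod_erase _ _ hj, ← Finset.mul_prod_erase _ _ hj]
  have h1 : (-1 : ℝ) ^ (flip j x j).toNat = - (-1 : ℝ) ^ (x j).toNat := by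
    simp only [flip, Function.update_self]
    exact sign_mul_not _
  have h2 : ∏ i ∈ S.erase j, (-1 : ℝ) ^ (flip j x i).toNat =
      ∏ i ∈ S.erase j, (-1 : ℝ) ^ (x i).toNat := by
    refine Finset.prod_congr rfl fun i hi => ?_
    rw [flip_apply_of_ne (Finset.ne_of_mem_erase hi)]
  rw [h1, h2]
  ring

lemma chi_flip_of_notMem {S : Finset I} {j : I} (hj : j ∉ S) (x : I → Bool) :
    chi S (flip j x) = chi S x := by
  unfold chi
  refine Finset.prod_congr rfl fun i hi => ?_
  rw [flip_apply_of_ne (by rintro rfl; exact hj hi)]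

/-- The flip as an equivalence. -/
def flipEquiv (j : I) : (I → Bool) ≃ (I → Bool) where
  toFun := flip j
  invFun := flip j
  left_inv := flip_flip j
  right_inv := flip_flip j

lemma coef_comp_flip (f : (I → Bool) → ℝ) (j : I) (S : Finset I) :
    coef (fun x => f (flip j x)) S = if j ∈ S then - coef f S else coef f S := by
  unfold coef
  have h : ∑ x : I → Bool, f (flip j x) * chi S x = ∑ x : I → Bool, f x * chi S (flip j x) := by
    rw [← Equiv.sum_comp (flipEquiv j) (fun x => f x * chi S (flip j x))]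
    refine Finset.sum_congr rfl fun x _ => ?_
    simp [flipEquiv, flip_flip]
  simp only [h]
  split_ifs with hj
  · simp_rw [chi_flip_of_mem hj]
    rw [← mul_neg, ← Finset.sum_neg_distrib]
    simp
  · simp_rw [chi_flip_of_notMem hj]

/-- A function depending only on the coordinates in `J` has no Fourier weight outside `J`. -/
lemma coef_eq_zero_of_dep {f : (I → Bool) → ℝ} {J : Finset I}
    (hf : ∀ x y : I → Bool, (∀ i ∈ J, x i = y i) → f x = f y) {S : Finset I} (hS : ¬ S ⊆ J) :
    coef f S = 0 := by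
  rw [Finset.not_subset] at hS
  obtain ⟨j, hjS, hjJ⟩ := hS
  have h1 : (fun x => f (flip j x)) = f := by
    funext x
    apply hf
    intro i hi
    exact flip_apply_of_ne (by rintro rfl; exact hjJ hi) x
  have h2 := coef_comp_flip f j S
  rw [h1, if_pos hjS] at h2
  linarith

lemma coef_empty (f : (I → Bool) → ℝ) :
    coef f ∅ = ((2 : ℝ) ^ (Fintype.card I))⁻¹ * ∑ x : I → Bool, f x := by
  simp [coef, chi]

/-- Variance in Fourier terms. -/
lemma variance_eq (f : (I → Bool) → ℝ) :
    ((2 : ℝ) ^ (Fintype.card I))⁻¹ * ∑ x : I → Bool, f x ^ 2 -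
      (((2 : ℝ) ^ (Fintype.card I))⁻¹ * ∑ x : I → Bool, f x) ^ 2 =
      ∑ S ∈ (Finset.univ : Finset (Finset I)).filter (fun S => S.Nonempty), coef f S ^ 2 := by
  rw [← parseval_sq, ← coef_empty]
  have h := Finset.sum_filter_add_sum_filter_not (Finset.univ : Finset (Finset I))
    (fun S => S.Nonempty) (fun S => coef f S ^ 2)
  rw [← h]
  have h2 : ((Finset.univ : Finset (Finset I)).filter (fun S => ¬ S.Nonempty)) = {∅} := by
    ext S
    simp [Finset.not_nonempty_iff_eq_empty]
  rw [h2]
  simp

/-- Influence in Fourier terms. -/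
lemma influence_eq (f : (I → Bool) → ℝ) (j : I) :
    ((2 : ℝ) ^ (Fintype.card I))⁻¹ * ∑ x : I → Bool,
      ((f x - f (Function.update x j (!x j))) / 2) ^ 2 =
      ∑ S ∈ (Finset.univ : Finset (Finset I)).filter (fun S => j ∈ S), coef f S ^ 2 := by
  have h := parseval_sq (fun x => (f x - f (flip j x)) / 2)
  have h1 : ∀ S, coef (fun x => (f x - f (flip j x)) / 2) S =
      if j ∈ S then coef f S else 0 := by
    intro S
    have h2 : coef (fun x => (f x - f (flip j x)) / 2) S =
        (coef f S - coef (fun x => f (flip j x)) S) / 2 := by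
      unfold coef
      rw [← mul_sub, ← Finset.sum_sub_distrib, mul_div_assoc, Finset.sum_div]
      congr 1
      refine Finset.sum_congr rfl fun x _ => ?_
      ring
    rw [h2, coef_comp_flip]
    split_ifs <;> ring
  simp_rw [h1] at h
  simp only [flip] at h
  rw [← h, Finset.sum_filter]
  refine Finset.sum_congr rfl fun S _ => ?_
  split_ifs <;> simp

lemma coef_sum {α : Type} (s : Finset α) (g : α → (I → Bool) → ℝ) (S : Finset I) :
    coef (fun x => ∑ a ∈ s, g a x) S = ∑ a ∈ s, coef (g a) S := by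
  unfold coef
  simp_rw [Finset.sum_mul]
  rw [Finset.sum_comm, Finset.mul_sum]

lemma coef_const_mul (c : ℝ) (g : (I → Bool) → ℝ) (S : Finset I) :
    coef (fun x => c * g x) S = c * coef g S := by
  unfold coef
  have h : ∑ x : I → Bool, c * g x * chi S x = c * ∑ x : I → Bool, g x * chi S x := by
    rw [Finset.mul_sum]
    refine Finset.sum_congr rfl fun x _ => ?_
    ring
  rw [h]
  ring

lemma coef_sub (f g : (I → Bool) → ℝ) (S : Finset I) :
    coef (fun x => f x - g x) S = coef f S - coef g S := by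
  unfold coef
  rw [← mul_sub, ← Finset.sum_sub_distrib]
  congr 1
  refine Finset.sum_congr rfl fun x _ => ?_
  ring

/-- If `|f| ≤ c` then the total Fourier weight is at most `c ^ 2`. -/
lemma sum_coef_sq_le {f : (I → Bool) → ℝ} {c : ℝ} (hf : ∀ x, |f x| ≤ c)
    (T : Finset (Finset I)) : ∑ S ∈ T, coef f S ^ 2 ≤ c ^ 2 := by
  calc ∑ S ∈ T, coef f S ^ 2 ≤ ∑ S : Finset I, coef f S ^ 2 :=
        Finset.sum_le_sum_of_subset_of_nonneg (Finset.subset_univ _) (fun _ _ _ => sq_nonneg _)
    _ = ((2 : ℝ) ^ (Fintype.card I))⁻¹ * ∑ x : I → Bool, f x ^ 2 := parseval_sq f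
    _ ≤ ((2 : ℝ) ^ (Fintype.card I))⁻¹ * ∑ x : I → Bool, c ^ 2 := by
        refine mul_le_mul_of_nonneg_left (Finset.sum_le_sum fun x _ => ?_) (by positivity)
        have h1 := hf x
        have h2 := neg_abs_le (f x)
        have h3 := le_abs_self (f x)
        have h4 : -c ≤ f x := by linarith
        have h5 : f x ≤ c := by linarith
        exact sq_le_sq' h4 h5
    _ = c ^ 2 := by
        rw [Finset.sum_const, Finset.card_univ, nsmul_eq_mul]
        simp

end Pool.Agent.Lib_helper30.AA
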