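import Pool.Agent.Lib_helper30.AA.Fourier
import Pool.Agent.Lib_helper30.AA.Markov

set_option autoImplicit false
set_option linter.unusedSectionVars false

open Finset Polynomial

namespace Pool.Agent.Lib_helper30.AA

variable {I : Type} [Fintype I] [DecidableEq I]

/-- The linear form `∑_{i ∈ T} a_i x_i` on the cube. -/
noncomputable def lin (a : I → ℝ) (T : Finset I) (x : I → Bool) : ℝ :=
  ∑ i ∈ T, a i * (-1 : ℝ) ^ (x i).toNat

lemma lin_congr (a : I → ℝ) {T : Finset I} {x y : I → Bool} (h : ∀ i ∈ T, x i = y i) :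
    lin a T x = lin a T y := by
  unfold lin
  exact Finset.sum_congr rfl fun i hi => by rw [h i hi]

lemma lin_union (a : I → ℝ) {J T : Finset I} (h : Disjoint J T) (x : I → Bool) :
    lin a (J ∪ T) x = lin a J x + lin a T x := by
  unfold lin
  exact Finset.sum_union h

lemma abs_sign (b : Bool) : |(-1 : ℝ) ^ b.toNat| = 1 := by cases b <;> simp

lemma abs_lin_le (a : I → ℝ) (T : Finset I) (x : I → Bool) :
    |lin a T x| ≤ ∑ i ∈ T, |a i| := by
  unfold lin
  refine (Finset.abs_sum_le_sum_abs _ _).trans (Finset.sum_le_sum fun i _ => ?_)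
  rw [abs_mul, abs_sign, mul_one]

lemma sum_sign_mul_sign (i j : I) :
    ∑ x : I → Bool, ((-1 : ℝ) ^ (x i).toNat * (-1 : ℝ) ^ (x j).toNat) =
      if i = j then (2 : ℝ) ^ (Fintype.card I) else 0 := by
  split_ifs with h
  · subst h
    simp only [sign_mul_self]
    rw [Finset.sum_const, Finset.card_univ, nsmul_eq_mul]
    simp
  · have h1 : ∑ x : I → Bool, ((-1 : ℝ) ^ (x i).toNat * (-1 : ℝ) ^ (x j).toNat) =
        ∑ x : I → Bool, ((-1 : ℝ) ^ (flip i x i).toNat * (-1 : ℝ) ^ (flip i x j).toNat) := by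
      rw [← Equiv.sum_comp (flipEquiv i)
        (fun x : I → Bool => (-1 : ℝ) ^ (x i).toNat * (-1 : ℝ) ^ (x j).toNat)]
      rfl
    have h2 : ∀ x : I → Bool, ((-1 : ℝ) ^ (flip i x i).toNat * (-1 : ℝ) ^ (flip i x j).toNat) =
        -((-1 : ℝ) ^ (x i).toNat * (-1 : ℝ) ^ (x j).toNat) := by
      intro x
      rw [flip_apply_of_ne (Ne.symm h)]
      have h3 : (-1 : ℝ) ^ (flip i x i).toNat = - (-1 : ℝ) ^ (x i).toNat := by
        simp only [flip, Function.update_self]
        exact sign_mul_not _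
      rw [h3, neg_mul]
    simp_rw [h2] at h1
    rw [Finset.sum_neg_distrib] at h1
    linarith

/-- The second moment of a linear form. -/
lemma lin_second_moment (a : I → ℝ) (T : Finset I) :
    ((2 : ℝ) ^ (Fintype.card I))⁻¹ * ∑ x : I → Bool, lin a T x ^ 2 = ∑ i ∈ T, a i ^ 2 := by
  have h1 : ∀ x : I → Bool, lin a T x ^ 2 = ∑ i ∈ T, ∑ j ∈ T,
      (a i * a j) * ((-1 : ℝ) ^ (x i).toNat * (-1 : ℝ) ^ (x j).toNat) := by
    intro x
    unfold lin
    rw [sq, Finset.sum_mul_sum]
    refine Finset.sum_congr rfl fun i _ => Finset.sum_congr rfl fun j _ => ?_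
    ring
  simp_rw [h1]
  rw [Finset.sum_comm]
  have h2 : ∀ i ∈ T, ∑ x : I → Bool, ∑ j ∈ T,
      (a i * a j) * ((-1 : ℝ) ^ (x i).toNat * (-1 : ℝ) ^ (x j).toNat) =
      a i ^ 2 * (2 : ℝ) ^ (Fintype.card I) := by
    intro i hi
    rw [Finset.sum_comm]
    simp_rw [← Finset.mul_sum, sum_sign_mul_sign]
    simp only [mul_ite, mul_zero, Finset.sum_ite_eq, hi, if_true]
    ring
  rw [Finset.sum_congr rfl h2, ← Finset.sum_mul]
  field_simp

/-- The values of a linear form with small coefficients are dense. -/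
lemma lin_dense (a : I → ℝ) (T : Finset I) {b : ℝ} (hb : ∀ i ∈ T, |a i| ≤ b) (hb0 : 0 ≤ b)
    (x₀ : I → Bool) {t : ℝ} (ht1 : -(∑ i ∈ T, |a i|) ≤ t) (ht2 : t ≤ ∑ i ∈ T, |a i|) :
    ∃ z : I → Bool, (∀ i ∉ T, z i = x₀ i) ∧ |lin a T z - t| ≤ b := by
  classical
  set A : Finset (I → Bool) :=
    Finset.univ.filter (fun z => (∀ i ∉ T, z i = x₀ i) ∧ lin a T z ≤ t) with hA
  have hne : A.Nonempty := by
    refine ⟨fun i => if i ∈ T then decide (0 < a i) else x₀ i, ?_⟩
    rw [hA, Finset.mem_filter]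
    refine ⟨Finset.mem_univ _, fun i hi => by simp [hi], ?_⟩
    refine le_trans (le_of_eq ?_) ht1
    unfold lin
    rw [← Finset.sum_neg_distrib]
    refine Finset.sum_congr rfl fun i hi => ?_
    simp only [hi, if_true]
    by_cases h : 0 < a i
    · simp [h, abs_of_pos h]
    · simp only [h, decide_false, Bool.toNat_false, pow_zero, mul_one]
      rw [abs_of_nonpos (not_lt.1 h)]
      ring
  obtain ⟨x, hxA, hmax⟩ := Finset.exists_max_image A (fun z => lin a T z) hne
  rw [hA, Finset.mem_filter] at hxA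
  obtain ⟨-, hx1, hx2⟩ := hxA
  by_cases hall : ∀ i ∈ T, 0 ≤ a i * (-1 : ℝ) ^ (x i).toNat
  · refine ⟨x, hx1, ?_⟩
    have h1 : lin a T x = ∑ i ∈ T, |a i| := by
      unfold lin
      refine Finset.sum_congr rfl fun i hi => ?_
      rw [← abs_of_nonneg (hall i hi), abs_mul, abs_sign, mul_one]
    have h2 : lin a T x = t := le_antisymm hx2 (by rw [h1]; exact ht2)
    rw [h2, sub_self, abs_zero]
    exact hb0
  · push Not at hall
    obtain ⟨i, hi, hneg⟩ := hall
    have habs : a i * (-1 : ℝ) ^ (x i).toNat = -|a i| := by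
      have h1 : |a i * (-1 : ℝ) ^ (x i).toNat| = |a i| := by rw [abs_mul, abs_sign, mul_one]
      rw [← h1, abs_of_neg hneg]
      ring
    have hai : 0 < |a i| := by
      rw [habs] at hneg; linarith
    have hflip : lin a T (flip i x) = lin a T x + 2 * |a i| := by
      unfold lin
      rw [← Finset.add_sum_erase T _ hi, ← Finset.add_sum_erase T _ hi]
      have h1 : a i * (-1 : ℝ) ^ (flip i x i).toNat = |a i| := by
        have : (-1 : ℝ) ^ (flip i x i).toNat = - (-1 : ℝ) ^ (x i).toNat := by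
          simp only [flip, Function.update_self]
          exact sign_mul_not _
        rw [this]
        linarith
      have h2 : ∑ j ∈ T.erase i, a j * (-1 : ℝ) ^ (flip i x j).toNat =
          ∑ j ∈ T.erase i, a j * (-1 : ℝ) ^ (x j).toNat := by
        refine Finset.sum_congr rfl fun j hj => ?_
        rw [flip_apply_of_ne (Finset.ne_of_mem_erase hj)]
      rw [h1, h2, habs]
      ring
    have hgt : t < lin a T (flip i x) := by
      by_contra hcon
      push Not at hcon
      have hmem : flip i x ∈ A := by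
        rw [hA, Finset.mem_filter]
        refine ⟨Finset.mem_univ _, fun j hj => ?_, hcon⟩
        rw [flip_apply_of_ne (by rintro rfl; exact hj hi)]
        exact hx1 j hj
      have := hmax _ hmem
      linarith
    have hab := hb i hi
    rcases le_total (t - lin a T x) b with h | h
    · exact ⟨x, hx1, by rw [abs_le]; constructor <;> linarith⟩
    · refine ⟨flip i x, fun j hj => ?_, ?_⟩
      · rw [flip_apply_of_ne (by rintro rfl; exact hj hi)]
        exact hx1 j hj
      · rw [abs_le]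
        constructor <;> linarith

/-- A polynomial of degree at most `d` bounded by one on a dense subset of an interval. -/
lemma near_center {d : ℕ} {P : ℝ[X]} (hdeg : P.natDegree ≤ d) {c s b : ℝ} (hs : 0 < s)
    (hb : 4 * (d : ℝ) ^ 2 * b ≤ s)
    (hE : ∀ t ∈ Set.Icc (-s) s, ∃ e ∈ Set.Icc (-s) s, |e - t| ≤ b ∧ |P.eval (c + e)| ≤ 1)
    {t : ℝ} (ht : t ∈ Set.Icc (-s) s) :
    |P.eval (c + t) - P.eval c| ≤ 4 * (d : ℝ) ^ 2 / s * |t| := by
  set Q : ℝ[X] := P.comp (X + C (c - s)) with hQ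
  have hQev : ∀ x, Q.eval x = P.eval (c + (x - s)) := by
    intro x
    rw [hQ, eval_comp]
    simp only [eval_add, eval_X, eval_C]
    congr 1
    ring
  have hQdeg : Q.natDegree ≤ d := by
    rw [hQ]
    refine (natDegree_comp_le).trans ?_
    rw [natDegree_X_add_C, mul_one]
    exact hdeg
  have hcont : ContinuousOn (fun x => |Q.eval x|) (Set.Icc 0 (2 * s)) :=
    (continuous_abs.comp Q.continuous).continuousOn
  obtain ⟨u, hu, hmax⟩ := isCompact_Icc.exists_isMaxOn
    (Set.nonempty_Icc.2 (by linarith : (0 : ℝ) ≤ 2 * s)) hcont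
  have hmax' : ∀ x ∈ Set.Icc 0 (2 * s), |Q.eval x| ≤ |Q.eval u| := fun x hx => hmax hx
  have hB2 : |Q.eval u| ≤ 2 := by
    by_contra hcon
    push Not at hcon
    obtain ⟨e, he, he1, he2⟩ := hE (u - s) (by
      rw [Set.mem_Icc] at hu ⊢
      constructor <;> linarith [hu.1, hu.2])
    have he' : e + s ∈ Set.Icc 0 (2 * s) := by
      rw [Set.mem_Icc] at he ⊢
      constructor <;> linarith [he.1, he.2]
    have h1 := markov_lipschitz hQdeg (U := 2 * s) (B := |Q.eval u|) (by linarith)
      (by linarith) hmax' he' hu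
    rw [hQev (e + s), add_sub_cancel_right] at h1
    have h2 : |u - (e + s)| ≤ b := by
      rw [abs_sub_comm, show e + s - u = e - (u - s) by ring]
      exact he1
    have h3 : 4 * (d : ℝ) ^ 2 * |Q.eval u| / (2 * s) * |u - (e + s)| ≤ |Q.eval u| / 2 := by
      calc 4 * (d : ℝ) ^ 2 * |Q.eval u| / (2 * s) * |u - (e + s)|
          ≤ 4 * (d : ℝ) ^ 2 * |Q.eval u| / (2 * s) * b := by gcongr
        _ = (4 * (d : ℝ) ^ 2 * b) * (|Q.eval u| / (2 * s)) := by ring
        _ ≤ s * (|Q.eval u| / (2 * s)) := by gcongr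
        _ = |Q.eval u| / 2 := by field_simp
    have h4 : |Q.eval u| ≤ |Q.eval u - P.eval (c + e)| + |P.eval (c + e)| := by
      have := abs_add_le (Q.eval u - P.eval (c + e)) (P.eval (c + e))
      simpa using this
    linarith
  have hbd : ∀ x ∈ Set.Icc 0 (2 * s), |Q.eval x| ≤ 2 := fun x hx => (hmax' x hx).trans hB2
  have h5 := markov_lipschitz hQdeg (U := 2 * s) (B := 2) (by linarith) (by norm_num) hbd
    (s := s) (t := t + s) (by constructor <;> linarith) (by
      rw [Set.mem_Icc] at ht ⊢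
      constructor <;> linarith [ht.1, ht.2])
  rw [hQev, hQev, add_sub_cancel_right, sub_self, add_zero] at h5
  calc |P.eval (c + t) - P.eval c| ≤ 4 * (d : ℝ) ^ 2 * 2 / (2 * s) * |t| := h5
    _ = 4 * (d : ℝ) ^ 2 / s * |t| := by field_simp

/-- The Erdős–Littlewood–Offord bound, on one interval. -/
lemma lo_one (a : I → ℝ) (J : Finset I) {b : ℝ} (hb0 : 0 ≤ b) (hb : ∀ i ∈ J, b < |a i|) (u : ℝ)
    (A : Finset (I → Bool)) (hA1 : ∀ x ∈ A, ∀ y ∈ A, ∀ i ∉ J, x i = y i)
    (hA2 : ∀ x ∈ A, u ≤ lin a J x ∧ lin a J x ≤ u + 2 * b) :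
    A.card ≤ J.card.choose (J.card / 2) := by
  classical
  set φ : (I → Bool) → Finset J := fun x =>
    Finset.univ.filter (fun i : J => 0 < a i * (-1 : ℝ) ^ (x i).toNat) with hφ
  have hmem : ∀ (x : I → Bool) (i : J), i ∈ φ x ↔ 0 < a i * (-1 : ℝ) ^ (x i).toNat := by
    intro x i
    rw [hφ]
    simp
  have hne : ∀ i ∈ J, a i ≠ 0 := by
    intro i hi h
    have := hb i hi
    rw [h, abs_zero] at this
    linarith
  have hsign : ∀ (x : I → Bool) (i : J), (0 < a i * (-1 : ℝ) ^ (x i).toNat ∧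
      a i * (-1 : ℝ) ^ (x i).toNat = |a i|) ∨ (¬ (0 < a i * (-1 : ℝ) ^ (x i).toNat) ∧
      a i * (-1 : ℝ) ^ (x i).toNat = -|a i|) := by
    intro x i
    have h1 : |a i * (-1 : ℝ) ^ (x i).toNat| = |a i| := by rw [abs_mul, abs_sign, mul_one]
    by_cases h : 0 < a i * (-1 : ℝ) ^ (x i).toNat
    · left
      exact ⟨h, by rw [← h1, abs_of_pos h]⟩
    · right
      refine ⟨h, ?_⟩
      rw [← h1, abs_of_nonpos (not_lt.1 h)]
      ring
  have hbool : ∀ (x y : I → Bool) (i : J), (i ∈ φ x ↔ i ∈ φ y) → x i = y i := by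
    intro x y i h
    rw [hmem, hmem] at h
    have hi := hne i i.2
    cases hx : x i <;> cases hy : y i <;> simp [hx, hy] at h ⊢
    · exact absurd (lt_of_le_of_ne (not_lt.1 (fun h' => by
        have := h.1 h'; linarith)) hi) (fun h' => by have := h.2 h'; linarith)
    · exact absurd (lt_of_le_of_ne (not_lt.1 (fun h' => by
        have := h.2 h'; linarith)) hi) (fun h' => by have := h.1 h'; linarith)
  have hstep : ∀ x ∈ A, ∀ y ∈ A, φ x ⊆ φ y → x = y := by
    intro x hx y hy hsub
    by_contra hxy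
    have hterm : ∀ i ∈ J, 0 ≤ a i * (-1 : ℝ) ^ (y i).toNat - a i * (-1 : ℝ) ^ (x i).toNat := by
      intro i hi
      rcases hsign x ⟨i, hi⟩ with ⟨h1, h2⟩ | ⟨h1, h2⟩
      · have h3 : (⟨i, hi⟩ : J) ∈ φ y := hsub ((hmem x ⟨i, hi⟩).2 h1)
        rw [hmem] at h3
        rcases hsign y ⟨i, hi⟩ with ⟨h4, h5⟩ | ⟨h4, h5⟩
        · simp only at h2 h5
          rw [h2, h5, sub_self]
        · exact absurd h3 h4
      · simp only at h2
        rcases hsign y ⟨i, hi⟩ with ⟨h4, h5⟩ | ⟨h4, h5⟩
        · simp only at h5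
          rw [h2, h5]
          have := abs_nonneg (a i)
          linarith
        · simp only at h5
          rw [h2, h5, sub_self]
    have hex : ∃ i ∈ J, x i ≠ y i := by
      by_contra hcon
      push Not at hcon
      apply hxy
      funext i
      by_cases hi : i ∈ J
      · exact hcon i hi
      · exact hA1 x hx y hy i hi
    obtain ⟨i, hi, hxi⟩ := hex
    have hgap : a i * (-1 : ℝ) ^ (y i).toNat - a i * (-1 : ℝ) ^ (x i).toNat = 2 * |a i| := by
      rcases hsign x ⟨i, hi⟩ with ⟨h1, h2⟩ | ⟨h1, h2⟩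
      · exfalso
        apply hxi
        have h3 : (⟨i, hi⟩ : J) ∈ φ x := (hmem x ⟨i, hi⟩).2 h1
        exact hbool x y ⟨i, hi⟩ (by simp [h3, hsub h3])
      · rcases hsign y ⟨i, hi⟩ with ⟨h4, h5⟩ | ⟨h4, h5⟩
        · simp only at h2 h5
          rw [h2, h5]
          ring
        · exfalso
          apply hxi
          exact hbool x y ⟨i, hi⟩ (by
            rw [hmem, hmem]
            exact ⟨fun h => absurd h h1, fun h => absurd h h4⟩)
    have hdiff : lin a J y - lin a J x =
        ∑ i ∈ J, (a i * (-1 : ℝ) ^ (y i).toNat - a i * (-1 : ℝ) ^ (x i).toNat) := by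
      unfold lin
      rw [Finset.sum_sub_distrib]
    have hge : 2 * |a i| ≤ lin a J y - lin a J x := by
      rw [hdiff, ← hgap]
      exact Finset.single_le_sum hterm hi
    have h1 := hA2 x hx
    have h2 := hA2 y hy
    have h3 := hb i hi
    linarith [h1.1, h2.2]
  have hinj : Set.InjOn φ (A : Set (I → Bool)) := by
    intro x hx y hy h
    exact hstep x hx y hy h.subset
  have hanti : IsAntichain (· ⊆ ·) ((A.image φ : Finset (Finset J)) : Set (Finset J)) := by
    intro s hs t ht hst hsub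
    rw [Finset.coe_image] at hs ht
    obtain ⟨x, hx, rfl⟩ := hs
    obtain ⟨y, hy, rfl⟩ := ht
    exact hst (congrArg φ (hstep x hx y hy hsub))
  have := hanti.sperner
  rw [Finset.card_image_of_injOn hinj, Fintype.card_coe] at this
  exact this

/-- The Erdős–Littlewood–Offord bound, on a long interval. -/
lemma lo_many (a : I → ℝ) (J : Finset I) {b s : ℝ} (Θ : ℕ) (hb0 : 0 < b)
    (hs : s ≤ Θ * b) (hb : ∀ i ∈ J, b < |a i|) (r : ℝ)
    (A : Finset (I → Bool)) (hA1 : ∀ x ∈ A, ∀ y ∈ A, ∀ i ∉ J, x i = y i)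
    (hA2 : ∀ x ∈ A, |lin a J x - r| ≤ s) :
    A.card ≤ J.card.choose (J.card / 2) * (Θ + 1) := by
  classical
  have h1 := Finset.card_le_mul_card_image (f := fun x : I → Bool =>
    ⌊(lin a J x - (r - s)) / (2 * b)⌋₊) A (J.card.choose (J.card / 2)) (by
      intro k hk
      refine lo_one a J hb0.le hb (r - s + k * (2 * b)) _ ?_ ?_
      · intro x hx y hy
        exact hA1 x (Finset.mem_filter.1 hx).1 y (Finset.mem_filter.1 hy).1
      · intro x hx
        obtain ⟨hxA, hxk⟩ := Finset.mem_filter.1 hx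
        have h2 := abs_le.1 (hA2 x hxA)
        have h3 : 0 ≤ (lin a J x - (r - s)) / (2 * b) := by
          apply div_nonneg _ (by linarith)
          linarith [h2.1]
        have h4 := Nat.floor_le h3
        have h5 := Nat.lt_floor_add_one ((lin a J x - (r - s)) / (2 * b))
        rw [hxk] at h4 h5
        rw [le_div_iff₀ (by linarith)] at h4
        rw [div_lt_iff₀ (by linarith)] at h5
        constructor <;> linarith)
  refine h1.trans (Nat.mul_le_mul_left _ ?_)
  have h6 : A.image (fun x : I → Bool => ⌊(lin a J x - (r - s)) / (2 * b)⌋₊) ⊆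
      Finset.range (Θ + 1) := by
    intro k hk
    rw [Finset.mem_image] at hk
    obtain ⟨x, hx, rfl⟩ := hk
    rw [Finset.mem_range, Nat.lt_succ_iff]
    apply Nat.floor_le_of_le
    rw [div_le_iff₀ (by linarith)]
    have h2 := abs_le.1 (hA2 x hx)
    nlinarith [h2.2]
  simpa using Finset.card_le_card h6

/-- Summing the bound over the fibres. -/
lemma lo_total (J : Finset I) (N : ℕ) (A : Finset (I → Bool))
    (h : ∀ y : I → Bool, (A.filter (fun x => ∀ i ∉ J, x i = y i)).card ≤ N) :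
    A.card * 2 ^ J.card ≤ N * 2 ^ Fintype.card I := by
  classical
  have h1 := Finset.card_le_mul_card_image (f := fun (x : I → Bool) (i : {i // i ∉ J}) => x i) A N
    (by
      intro k hk
      rw [Finset.mem_image] at hk
      obtain ⟨y, hy, rfl⟩ := hk
      refine le_trans (Finset.card_le_card ?_) (h y)
      intro x hx
      obtain ⟨hxA, hxk⟩ := Finset.mem_filter.1 hx
      refine Finset.mem_filter.2 ⟨hxA, fun i hi => ?_⟩
      exact congrFun hxk ⟨i, hi⟩)
  have h2 : (A.image (fun (x : I → Bool) (i : {i // i ∉ J}) => x i)).card ≤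
      2 ^ (Fintype.card I - J.card) := by
    refine (Finset.card_le_univ _).trans ?_
    rw [Fintype.card_fun, Fintype.card_bool]
    apply Nat.pow_le_pow_right (by norm_num)
    rw [Fintype.card_subtype_compl, Fintype.card_coe]
  have h3 : J.card ≤ Fintype.card I := Finset.card_le_univ _
  calc A.card * 2 ^ J.card ≤ N * 2 ^ (Fintype.card I - J.card) * 2 ^ J.card := by
        apply Nat.mul_le_mul_right
        exact h1.trans (Nat.mul_le_mul_left _ h2)
    _ = N * 2 ^ Fintype.card I := by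
        rw [mul_assoc, ← pow_add, Nat.sub_add_cancel h3]

lemma centralBinom_sq_le (m : ℕ) : Nat.centralBinom m ^ 2 * (2 * m + 1) ≤ 16 ^ m := by
  induction m with
  | zero => simp
  | succ m ih =>
    have h1 := Nat.succ_mul_centralBinom_succ m
    have h2 : (m + 1) ^ 2 * (Nat.centralBinom (m + 1) ^ 2 * (2 * (m + 1) + 1)) ≤
        (m + 1) ^ 2 * 16 ^ (m + 1) := by
      calc (m + 1) ^ 2 * (Nat.centralBinom (m + 1) ^ 2 * (2 * (m + 1) + 1))
          = ((m + 1) * Nat.centralBinom (m + 1)) ^ 2 * (2 * m + 3) := by ring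
        _ = (2 * (2 * m + 1) * Nat.centralBinom m) ^ 2 * (2 * m + 3) := by rw [h1]
        _ = 4 * ((2 * m + 1) * (2 * m + 3)) * (Nat.centralBinom m ^ 2 * (2 * m + 1)) := by ring
        _ ≤ 4 * (4 * (m + 1) ^ 2) * 16 ^ m := by
            apply Nat.mul_le_mul _ ih
            apply Nat.mul_le_mul_left
            nlinarith
        _ = (m + 1) ^ 2 * 16 ^ (m + 1) := by ring
    exact Nat.le_of_mul_le_mul_left h2 (by positivity)

end Pool.Agent.Lib_helper30.AA
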