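import Pool.Agent.Lib_helper30.AA.Weight

set_option autoImplicit false
set_option linter.unusedSectionVars false

open Finset

namespace Pool.Agent.Lib_helper30.AA

section Orbit

variable {G I : Type} [Group G] [Fintype I] [DecidableEq I] [MulAction G I]

open Classical in
/-- If the orbit map of `i₀` factors through a finite set `Y` then a subset of the orbit has at
most `card Y` elements. -/
lemma card_le_of_factor {Y : Type} [Fintype Y] (h : G → Y) {i₀ : I}
    (hfac : ∀ σ τ : G, h σ = h τ → σ • i₀ = τ • i₀) (A : Finset I)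
    (hA : ∀ i ∈ A, ∃ σ : G, σ • i₀ = i) : A.card ≤ Fintype.card Y := by
  set ψ : Y → I := fun y => if hy : ∃ σ, h σ = y then hy.choose • i₀ else i₀ with hψ
  have h1 : A ⊆ univ.image ψ := by
    intro i hi
    obtain ⟨σ, hσ⟩ := hA i hi
    rw [mem_image]
    refine ⟨h σ, mem_univ _, ?_⟩
    have hy : ∃ τ, h τ = h σ := ⟨σ, rfl⟩
    simp only [hψ]
    rw [dif_pos hy, ← hσ]
    exact hfac _ _ hy.choose_spec
  calc A.card ≤ (univ.image ψ).card := card_le_card h1
    _ ≤ (univ : Finset Y).card := card_image_le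
    _ = Fintype.card Y := card_univ

end Orbit

/-- The product of the symmetric groups of the sorts. -/
abbrev PG {q : ℕ} (V : Fin q → Type) : Type := ∀ a, Equiv.Perm (V a)

/-- Numerical part: choice of the radius. -/
lemma choose_radius {D m : ℕ} (hD : 1 ≤ D) {η q' : ℝ} (hη : 0 < η) (hη1 : η ≤ 1) (hq : 1 ≤ q')
    (hm : 2 ^ 20 * (D : ℝ) ^ 8 * q' ^ 2 / η ^ 2 < m) :
    ∃ r : ℕ, 8 * D ^ 2 ≤ r ∧ 2 * r + 1 ≤ m ∧
      2 * ((r : ℝ) ^ 2 / m) + 2 * (64 * (D : ℝ) ^ 4 / r) ^ 2 ≤ η / (2 * q') := by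
  have hD' : (1 : ℝ) ≤ D := by exact_mod_cast hD
  have hD8 : (1 : ℝ) ≤ (D : ℝ) ^ 8 := one_le_pow₀ hD'
  set y : ℝ := 2 ^ 15 * (D : ℝ) ^ 8 * q' / η with hy
  have hy1 : 2 ^ 15 * (D : ℝ) ^ 8 ≤ y := by
    rw [hy, le_div_iff₀ hη]
    calc 2 ^ 15 * (D : ℝ) ^ 8 * η ≤ 2 ^ 15 * (D : ℝ) ^ 8 * 1 := by gcongr
      _ ≤ 2 ^ 15 * (D : ℝ) ^ 8 * q' := by gcongr
  have hypos : 1 ≤ y := by linarith
  have hs1 : 1 ≤ Real.sqrt y := by
    rw [Real.one_le_sqrt]; exact hypos
  set r : ℕ := ⌈Real.sqrt y⌉₊ with hr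
  have hr1 : Real.sqrt y ≤ r := Nat.le_ceil _
  have hr2 : (r : ℝ) ≤ 2 * Real.sqrt y := by
    have := (Nat.ceil_lt_add_one (Real.sqrt_nonneg y)).le
    linarith
  have hsq : Real.sqrt y ^ 2 = y := Real.sq_sqrt (by linarith)
  have hr3 : y ≤ (r : ℝ) ^ 2 := by
    rw [← hsq]
    gcongr
  have hr4 : (r : ℝ) ^ 2 ≤ 4 * y := by
    calc (r : ℝ) ^ 2 ≤ (2 * Real.sqrt y) ^ 2 := by gcongr
      _ = 4 * y := by rw [mul_pow, hsq]; ring
  have hrpos : (1 : ℝ) ≤ r := le_trans hs1 hr1
  set M : ℝ := 2 ^ 20 * (D : ℝ) ^ 8 * q' ^ 2 / η ^ 2 with hM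
  have hMy : M = 32 * q' * y / η := by
    rw [hM, hy]; field_simp; norm_num
  have hMpos : 0 < M := by rw [hM]; positivity
  have hmpos : (0 : ℝ) < m := lt_trans hMpos hm
  have hMy2 : 32 * y ≤ M := by
    rw [hMy, le_div_iff₀ hη]
    calc 32 * y * η ≤ 32 * y * 1 := by gcongr
      _ ≤ 32 * y * q' := by gcongr
      _ = 32 * q' * y := by ring
  refine ⟨r, ?_, ?_, ?_⟩
  · have h1 : 8 * (D : ℝ) ^ 2 ≤ r := by
      apply le_trans _ hr1
      apply Real.le_sqrt_of_sq_le
      calc (8 * (D : ℝ) ^ 2) ^ 2 = 64 * (D : ℝ) ^ 4 := by ring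
        _ ≤ 64 * (D : ℝ) ^ 8 := by
            gcongr 64 * ?_
            exact pow_le_pow_right₀ hD' (by norm_num)
        _ ≤ 2 ^ 15 * (D : ℝ) ^ 8 := by nlinarith
        _ ≤ y := hy1
    exact_mod_cast h1
  · have h1 : 2 * (r : ℝ) + 1 ≤ m := by
      nlinarith
    exact_mod_cast h1
  · have h1 : 2 * ((r : ℝ) ^ 2 / m) ≤ η / (4 * q') := by
      calc 2 * ((r : ℝ) ^ 2 / m) ≤ 2 * (4 * y / M) := by gcongr
        _ = η / (4 * q') := by
            rw [hMy]
            have : y ≠ 0 := by linarith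
            field_simp
            norm_num
    have h2 : 2 * (64 * (D : ℝ) ^ 4 / r) ^ 2 ≤ η / (4 * q') := by
      calc 2 * (64 * (D : ℝ) ^ 4 / r) ^ 2 = 2 * (4096 * (D : ℝ) ^ 8) / (r : ℝ) ^ 2 := by
            rw [div_pow]; ring
        _ ≤ 2 * (4096 * (D : ℝ) ^ 8) / y := by gcongr
        _ = η / (4 * q') := by
            rw [hy]; field_simp; norm_num
    calc _ ≤ η / (4 * q') + η / (4 * q') := add_le_add h1 h2
      _ = η / (2 * q') := by field_simp; norm_num

/-- The main inequality in Fourier form: for a bounded function of degree `≤ d` which is invariant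
under a product of symmetric groups acting with supports of total size `≤ l` there is an index
whose influence is at least `η / (2 k N ^ l)`. -/
lemma main_fourier (l q : ℕ) (V : Fin q → Type) [∀ a, Fintype (V a)]
    (I : Type) [Fintype I] [DecidableEq I] [MulAction (∀ a, Equiv.Perm (V a)) I]
    (hsupp : ∀ i : I, ∃ s : ∀ a, Finset (V a), (∑ a, (s a).card) ≤ l ∧
        ∀ σ : ∀ a, Equiv.Perm (V a), (∀ a, ∀ v ∈ s a, σ a v = v) → σ • i = i)
    (f : (I → Bool) → ℝ) (hf : ∀ x, |f x| ≤ 1)
    (hinv : ∀ (σ : ∀ a, Equiv.Perm (V a)) (x : I → Bool), f (fun i => x (σ • i)) = f x)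
    (d : ℕ) (hd : 1 ≤ d) (hdeg : ∀ S : Finset I, d < S.card → coef f S = 0)
    (η : ℝ) (hη : 0 < η)
    (hη2 : η = ∑ S ∈ (univ : Finset (Finset I)).filter (fun S => S.Nonempty), coef f S ^ 2) :
    ∃ j : I, η / (2 * (Nat.card (MulAction.orbitRel.Quotient (∀ a, Equiv.Perm (V a)) I)) *
        (2 ^ 20 * ((d * (l + 1) : ℕ) : ℝ) ^ 8 * ((q : ℝ) + 1) ^ 2 / η ^ 2) ^ l) ≤
      ∑ S ∈ (univ : Finset (Finset I)).filter (fun S => j ∈ S), coef f S ^ 2 := by
  classical
  set D : ℕ := d * (l + 1) with hDdef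
  have hD : 1 ≤ D := by rw [hDdef]; nlinarith
  have hD' : (1 : ℝ) ≤ D := by exact_mod_cast hD
  have hη1 : η ≤ 1 := by
    rw [hη2]
    simpa using sum_coef_sq_le hf _
  set q' : ℝ := (q : ℝ) + 1 with hq'
  have hq1 : 1 ≤ q' := by rw [hq']; linarith [Nat.cast_nonneg (α := ℝ) q]
  set M : ℝ := 2 ^ 20 * (D : ℝ) ^ 8 * q' ^ 2 / η ^ 2 with hM
  have hM1 : 1 ≤ M := by
    rw [hM, le_div_iff₀ (by positivity), one_mul]
    have h1 : (1 : ℝ) ≤ (D : ℝ) ^ 8 := one_le_pow₀ hD'
    have h2 : (1 : ℝ) ≤ q' ^ 2 := one_le_pow₀ hq1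
    have h3 : η ^ 2 ≤ 1 := pow_le_one₀ hη.le hη1
    nlinarith
  -- large sorts
  set Lg : Finset (Fin q) := univ.filter (fun a => M < (Fintype.card (V a) : ℝ)) with hLg
  -- action of a single sort
  have hsort : ∀ a ∈ Lg, ∑ S ∈ (univ : Finset (Finset I)).filter
      (fun S => ¬ ∀ i ∈ S, ∀ τ : Equiv.Perm (V a), (Pi.mulSingle a τ : PG V) • i = i), coef f S ^ 2 ≤
      η / (2 * q') := by
    intro a ha
    rw [hLg, mem_filter] at ha
    have hma := ha.2
    obtain ⟨r, hr1, hr2, hr3⟩ := choose_radius hD hη hη1 hq1 hma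
    have : Nonempty (V a) := by
      rw [← Fintype.card_pos_iff]
      omega
    let _ : MulAction (Equiv.Perm (V a)) I :=
      MulAction.compHom I (MonoidHom.mulSingle (fun a => Equiv.Perm (V a)) a)
    choose s hs using hsupp
    have hs1 : ∀ i, Supp (s i a) i := by
      intro i σ hσ
      change (Pi.mulSingle a σ : PG V) • i = i
      apply (hs i).2
      intro b v hv
      by_cases hb : b = a
      · subst hb
        rw [Pi.mulSingle_eq_same]
        exact hσ v hv
      · rw [Pi.mulSingle_eq_of_ne hb]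
        rfl
    have hs2 : ∀ i, (s i a).card ≤ l := by
      intro i
      refine le_trans ?_ (hs i).1
      exact Finset.single_le_sum (f := fun a => (s i a).card) (fun _ _ => Nat.zero_le _)
        (mem_univ a)
    have hinv' : ∀ (σ : Equiv.Perm (V a)) (x : I → Bool), f (fun i => x (σ • i)) = f x := by
      intro σ x
      exact hinv (Pi.mulSingle a σ) x
    have hm64 : 64 * D ^ 4 ≤ Fintype.card (V a) := by
      have h1 : 64 * (D : ℝ) ^ 4 ≤ M := by
        rw [hM, le_div_iff₀ (by positivity)]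
        have h3 : η ^ 2 ≤ 1 := pow_le_one₀ hη.le hη1
        have h4 : (D : ℝ) ^ 4 ≤ (D : ℝ) ^ 8 := pow_le_pow_right₀ hD' (by norm_num)
        have h5 : (1 : ℝ) ≤ q' ^ 2 := one_le_pow₀ hq1
        calc 64 * (D : ℝ) ^ 4 * η ^ 2 ≤ 64 * (D : ℝ) ^ 4 * 1 := by gcongr
          _ ≤ 64 * (D : ℝ) ^ 8 * 1 := by gcongr
          _ ≤ 2 ^ 20 * (D : ℝ) ^ 8 * q' ^ 2 := by
              have : (0 : ℝ) ≤ (D : ℝ) ^ 8 := by positivity
              nlinarith
      have h2 : 64 * (D : ℝ) ^ 4 ≤ Fintype.card (V a) := by linarith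
      exact_mod_cast h2
    have hdl : d * l ≤ D + 1 := by rw [hDdef]; nlinarith
    have hw := weight_le (V := V a) (s := fun i => s i a) hs1 hs2 hD hdl hf hinv' hdeg hm64 hr1 hr2
    refine le_trans (le_of_eq ?_) (hw.trans hr3)
    refine Finset.sum_congr ?_ fun _ _ => rfl
    ext S
    simp only [mem_filter, mem_univ, true_and, Finset.subset_iff, FixSet]
    rfl
  -- good indices
  set J : Finset I := univ.filter (fun i => ∀ a ∈ Lg, ∀ τ : Equiv.Perm (V a),
    (Pi.mulSingle a τ : PG V) • i = i) with hJ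
  have hJw : η / 2 ≤ ∑ S ∈ (univ : Finset (Finset I)).filter (fun S => S.Nonempty ∧ S ⊆ J),
      coef f S ^ 2 := by
    have h1 : ∑ S ∈ (univ : Finset (Finset I)).filter (fun S => S.Nonempty), coef f S ^ 2 ≤
        ∑ S ∈ (univ : Finset (Finset I)).filter (fun S => S.Nonempty ∧ S ⊆ J), coef f S ^ 2 +
        ∑ a ∈ Lg, ∑ S ∈ (univ : Finset (Finset I)).filter
          (fun S => ¬ ∀ i ∈ S, ∀ τ : Equiv.Perm (V a), (Pi.mulSingle a τ : PG V) • i = i),
            coef f S ^ 2 := by
      rw [Finset.sum_filter, Finset.sum_filter]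
      simp_rw [Finset.sum_filter]
      rw [Finset.sum_comm, ← Finset.sum_add_distrib]
      refine Finset.sum_le_sum fun S _ => ?_
      have hnn : 0 ≤ ∑ a ∈ Lg, (if ¬ ∀ i ∈ S, ∀ τ : Equiv.Perm (V a),
          (Pi.mulSingle a τ : PG V) • i = i then coef f S ^ 2 else 0) := by
        refine Finset.sum_nonneg fun a _ => ?_
        split_ifs
        · exact le_rfl
        · exact sq_nonneg _
      by_cases hS : S.Nonempty
      · rw [if_pos hS]
        by_cases hSJ : S ⊆ J
        · rw [if_pos ⟨hS, hSJ⟩]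
          linarith
        · rw [if_neg (fun h => hSJ h.2), zero_add]
          rw [Finset.not_subset] at hSJ
          obtain ⟨i, hiS, hiJ⟩ := hSJ
          have h3 : ∃ a ∈ Lg, ∃ τ : Equiv.Perm (V a), (Pi.mulSingle a τ : PG V) • i ≠ i := by
            by_contra hcon
            push Not at hcon
            apply hiJ
            rw [hJ, mem_filter]
            exact ⟨mem_univ _, hcon⟩
          obtain ⟨a, ha, τ, hτ⟩ := h3
          have h4 := Finset.single_le_sum (f := fun a => (if ¬ ∀ i ∈ S, ∀ τ : Equiv.Perm (V a),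
            (Pi.mulSingle a τ : PG V) • i = i then coef f S ^ 2 else 0)) (s := Lg)
            (fun b _ => by
              split_ifs
              · exact le_rfl
              · exact sq_nonneg _) ha
          refine le_trans (le_of_eq ?_) h4
          rw [if_pos]
          exact fun h => hτ (h i hiS τ)
      · rw [if_neg hS, if_neg (fun h => hS h.1), zero_add]
        exact hnn
    have h2 : ∑ a ∈ Lg, ∑ S ∈ (univ : Finset (Finset I)).filter
          (fun S => ¬ ∀ i ∈ S, ∀ τ : Equiv.Perm (V a), (Pi.mulSingle a τ : PG V) • i = i),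
            coef f S ^ 2 ≤ η / 2 := by
      calc _ ≤ ∑ a ∈ Lg, η / (2 * q') := Finset.sum_le_sum hsort
        _ = (Lg.card : ℝ) * (η / (2 * q')) := by rw [Finset.sum_const, nsmul_eq_mul]
        _ ≤ q' * (η / (2 * q')) := by
            gcongr
            have h3 : Lg.card ≤ q := by
              calc Lg.card ≤ (univ : Finset (Fin q)).card := card_le_card (subset_univ _)
                _ = q := by simp
            have h4 : (Lg.card : ℝ) ≤ q := by exact_mod_cast h3
            rw [hq']; linarith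
        _ = η / 2 := by field_simp
    rw [← hη2] at h1
    linarith
  -- the product of the large sorts fixes good indices
  have hJfix : ∀ i ∈ J, ∀ σ : PG V, (∀ a, a ∉ Lg → σ a = 1) → σ • i = i := by
    intro i hi σ hσ
    rw [hJ, mem_filter] at hi
    have h1 : σ ∈ MulAction.stabilizer (PG V) i := by
      apply Subgroup.pi_mem_of_mulSingle_mem
      intro a
      rw [MulAction.mem_stabilizer_iff]
      by_cases ha : a ∈ Lg
      · exact hi.2 a ha (σ a)
      · rw [hσ a ha]
        simp
    exact h1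
  have hJsmul : ∀ i ∈ J, ∀ σ : PG V, σ • i ∈ J := by
    intro i hi σ
    have hi' := hi
    rw [hJ, mem_filter] at hi ⊢
    refine ⟨mem_univ _, fun a ha τ => ?_⟩
    have h1 : (Pi.mulSingle a τ : PG V) * σ = σ * (Pi.mulSingle a ((σ a)⁻¹ * τ * σ a) : PG V) := by
      funext b
      by_cases hb : b = a
      · subst hb
        simp [mul_assoc]
      · simp [Pi.mulSingle_eq_of_ne hb]
    rw [← mul_smul, h1, mul_smul, hi.2 a ha]
  have hJsupp : ∀ i ∈ J, ∃ s : ∀ a, Finset (V a), (∑ a, (s a).card) ≤ l ∧ (∀ a ∈ Lg, s a = ∅) ∧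
      ∀ σ : PG V, (∀ a, ∀ v ∈ s a, σ a v = v) → σ • i = i := by
    intro i hi
    obtain ⟨s, hs1, hs2⟩ := hsupp i
    refine ⟨fun a => if a ∈ Lg then ∅ else s a, ?_, ?_, ?_⟩
    · refine le_trans (Finset.sum_le_sum fun a _ => ?_) hs1
      by_cases ha : a ∈ Lg <;> simp [ha]
    · intro a ha
      simp [ha]
    · intro σ hσ
      set σ₁ : PG V := fun a => if a ∈ Lg then 1 else σ a with hσ₁
      set σ₂ : PG V := fun a => if a ∈ Lg then σ a else 1 with hσ₂
      have h12 : σ = σ₁ * σ₂ := by
        funext a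
        simp only [hσ₁, hσ₂, Pi.mul_apply]
        by_cases ha : a ∈ Lg <;> simp [ha]
      have h2 : σ₂ • i = i := by
        apply hJfix i hi
        intro a ha
        simp [hσ₂, ha]
      have h1 : σ₁ • i = i := by
        apply hs2
        intro a v hv
        simp only [hσ₁]
        by_cases ha : a ∈ Lg
        · simp [ha]
        · rw [if_neg ha]
          apply hσ a v
          simp [ha, hv]
      rw [h12, mul_smul, h2, h1]
  -- counting the good indices
  set N : ℕ := ⌊M⌋₊ with hN
  set k : ℕ := Nat.card (MulAction.orbitRel.Quotient (PG V) I) with hk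
  have hN1 : 1 ≤ N := by rw [hN, Nat.one_le_floor_iff]; exact hM1
  have hJcard : J.card ≤ N ^ l * k := by
    have h1 := card_le_mul_card_image (f := fun i : I =>
      (Quotient.mk'' i : MulAction.orbitRel.Quotient (PG V) I)) J (N ^ l) (by
        intro ω hω
        rw [mem_image] at hω
        obtain ⟨i₀, hi₀, rfl⟩ := hω
        obtain ⟨s, hs1, hs2, hs3⟩ := hJsupp i₀ hi₀
        have h2 := card_le_of_factor (G := PG V) (Y := ∀ a, (s a → V a))
          (fun σ a v => σ a v) (i₀ := i₀) (by
            intro σ τ hστ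
            have h3 : (τ⁻¹ * σ) • i₀ = i₀ := by
              apply hs3
              intro a v hv
              have h4 := congrFun (congrFun hστ a) ⟨v, hv⟩
              simp only at h4
              simp [h4]
            calc σ • i₀ = τ • ((τ⁻¹ * σ) • i₀) := by rw [mul_smul, smul_inv_smul]
              _ = τ • i₀ := by rw [h3])
          (J.filter (fun i => (Quotient.mk'' i : MulAction.orbitRel.Quotient (PG V) I) =
            Quotient.mk'' i₀)) (by
            intro i hi
            rw [mem_filter] at hi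
            have h5 := Quotient.eq''.mp hi.2
            rw [MulAction.orbitRel_apply] at h5
            exact h5)
        refine h2.trans ?_
        rw [Fintype.card_pi]
        calc ∏ a, Fintype.card (s a → V a) = ∏ a, (Fintype.card (V a)) ^ (s a).card := by
              refine Finset.prod_congr rfl fun a _ => ?_
              simp
          _ ≤ ∏ a, N ^ (s a).card := by
              refine Finset.prod_le_prod' fun a _ => ?_
              by_cases ha : a ∈ Lg
              · rw [hs2 a ha]; simp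
              · have h6 : (Fintype.card (V a) : ℝ) ≤ M := by
                  by_contra hcon
                  push Not at hcon
                  exact ha (by rw [hLg, mem_filter]; exact ⟨mem_univ _, hcon⟩)
                have h7 : Fintype.card (V a) ≤ N := Nat.le_floor h6
                exact Nat.pow_le_pow_left h7 _
          _ = N ^ (∑ a, (s a).card) := by rw [Finset.prod_pow_eq_pow_sum]
          _ ≤ N ^ l := Nat.pow_le_pow_right hN1 hs1)
    refine h1.trans (Nat.mul_le_mul_left _ ?_)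
    have : Finite (MulAction.orbitRel.Quotient (PG V) I) := Quotient.finite _
    have : Fintype (MulAction.orbitRel.Quotient (PG V) I) := Fintype.ofFinite _
    rw [hk, Nat.card_eq_fintype_card, ← card_univ]
    exact card_le_card (subset_univ _)
  -- total influence of the good indices
  have htot : η / 2 ≤ ∑ j ∈ J, ∑ S ∈ (univ : Finset (Finset I)).filter (fun S => j ∈ S),
      coef f S ^ 2 := by
    refine hJw.trans ?_
    rw [Finset.sum_filter]
    simp_rw [Finset.sum_filter]
    rw [Finset.sum_comm]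
    refine Finset.sum_le_sum fun S _ => ?_
    split_ifs with hS
    · obtain ⟨⟨j, hj⟩, hSJ⟩ := hS
      have h4 := Finset.single_le_sum (f := fun j => (if j ∈ S then coef f S ^ 2 else 0)) (s := J)
            (fun b _ => by
              split_ifs
              · exact sq_nonneg _
              · exact le_rfl) (hSJ hj)
      rw [if_pos hj] at h4
      exact h4
    · refine Finset.sum_nonneg fun a _ => ?_
      split_ifs
      · exact sq_nonneg _
      · exact le_rfl
  have hJne : J.Nonempty := by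
    by_contra hcon
    rw [Finset.not_nonempty_iff_eq_empty] at hcon
    rw [hcon] at htot
    simp only [Finset.sum_empty] at htot
    linarith
  obtain ⟨j, hjJ, hj⟩ : ∃ j ∈ J, η / 2 / J.card ≤
      ∑ S ∈ (univ : Finset (Finset I)).filter (fun S => j ∈ S), coef f S ^ 2 := by
    by_contra hcon
    push Not at hcon
    have hJpos : (0 : ℝ) < J.card := by exact_mod_cast hJne.card_pos
    have := Finset.sum_lt_sum_of_nonempty hJne hcon
    rw [Finset.sum_const, nsmul_eq_mul] at this
    have h2 : (J.card : ℝ) * (η / 2 / J.card) = η / 2 := by field_simp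
    rw [h2] at this
    linarith
  refine ⟨j, le_trans ?_ hj⟩
  have hJpos : (0 : ℝ) < J.card := by exact_mod_cast hJne.card_pos
  have hJle : (J.card : ℝ) ≤ M ^ l * k := by
    calc (J.card : ℝ) ≤ ((N ^ l * k : ℕ) : ℝ) := by exact_mod_cast hJcard
      _ = (N : ℝ) ^ l * k := by push_cast; ring
      _ ≤ M ^ l * k := by
          have h1 : (N : ℝ) ≤ M := Nat.floor_le (by linarith)
          gcongr
  rw [div_div]
  apply div_le_div_of_nonneg_left hη.le (by positivity)
  calc 2 * (J.card : ℝ) ≤ 2 * (M ^ l * k) := by gcongr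
    _ = _ := by ring

end Pool.Agent.Lib_helper30.AA
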