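import Mathlib

set_option autoImplicit false
set_option linter.unusedSectionVars false

open Finset Polynomial

namespace Pool.Agent.Lib_helper30.AA

/-- The polynomial `u ^ (N - c) * (1 - u) (1 - 2u) ... (1 - (c-1) u)`. -/
noncomputable def Qp (N c : ℕ) : ℝ[X] :=
  X ^ (N - c) * ∏ j ∈ Finset.range (c - 1), (1 - C ((j : ℝ) + 1) * X)

lemma Qp_natDegree {N c : ℕ} (hN : 1 ≤ N) (hc : 1 ≤ c) (hcN : c ≤ N) :
    (Qp N c).natDegree ≤ N - 1 := by
  unfold Qp
  have h1 : (∏ j ∈ Finset.range (c - 1), (1 - C ((j : ℝ) + 1) * X)).natDegree ≤ c - 1 := by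
    calc _ ≤ ∑ j ∈ Finset.range (c - 1), (1 - C ((j : ℝ) + 1) * X).natDegree :=
          natDegree_prod_le _ _
      _ ≤ ∑ j ∈ Finset.range (c - 1), 1 := by
          refine Finset.sum_le_sum fun j _ => ?_
          refine (natDegree_sub_le _ _).trans ?_
          simp only [natDegree_one, zero_le, sup_of_le_right]
          exact (natDegree_C_mul_le _ _).trans (by simp)
      _ = c - 1 := by simp
  calc _ ≤ (X ^ (N - c) : ℝ[X]).natDegree +
        (∏ j ∈ Finset.range (c - 1), (1 - C ((j : ℝ) + 1) * X)).natDegree := natDegree_mul_le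
    _ ≤ (N - c) + (c - 1) := by
        rw [natDegree_X_pow]; omega
    _ = N - 1 := by omega

lemma descFactorial_cast_succ (r c : ℕ) :
    ((r.descFactorial (c + 1) : ℕ) : ℝ) = ((r : ℝ) - c) * (r.descFactorial c : ℕ) := by
  rw [Nat.descFactorial_succ]
  rcases le_or_gt c r with h | h
  · push_cast [Nat.cast_sub h]
    ring
  · rw [Nat.descFactorial_eq_zero_iff_lt.mpr h]
    simp

lemma prod_eval_eq (r c : ℕ) (hr : 1 ≤ r) :
    (∏ j ∈ Finset.range c, (1 - ((j : ℝ) + 1) * (1 / (r : ℝ)))) * (r : ℝ) ^ (c + 1) =
      ((r.descFactorial (c + 1) : ℕ) : ℝ) := by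
  have hr0 : (r : ℝ) ≠ 0 := by positivity
  induction c with
  | zero => simp
  | succ c ih =>
    rw [Finset.prod_range_succ, descFactorial_cast_succ, ← ih]
    push_cast
    field_simp
    ring

lemma Qp_eval {N c r : ℕ} (hcN : c ≤ N) (hr : 1 ≤ r) :
    (Qp N c).eval (1 / (r : ℝ)) = (r.descFactorial c : ℕ) / (r : ℝ) ^ N := by
  have hr0 : (r : ℝ) ≠ 0 := by positivity
  unfold Qp
  rw [eval_mul, eval_pow, eval_X, eval_prod]
  simp only [eval_sub, eval_one, eval_mul, eval_C, eval_X]
  rcases Nat.eq_zero_or_pos c with h | h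
  · subst h
    simp
  · obtain ⟨c', rfl⟩ : ∃ c', c = c' + 1 := ⟨c - 1, by omega⟩
    rw [Nat.add_sub_cancel, ← prod_eval_eq r c' hr]
    obtain ⟨e, he⟩ : ∃ e, N = e + (c' + 1) := ⟨N - (c' + 1), by omega⟩
    subst he
    rw [Nat.add_sub_cancel, pow_add, one_div, inv_pow]
    field_simp
    ring

lemma Qp_eval_zero {N c : ℕ} (hcN : c ≤ N) :
    (Qp N c).eval 0 = if c = N then 1 else 0 := by
  unfold Qp
  rw [eval_mul, eval_pow, eval_X, eval_prod]
  simp only [eval_sub, eval_one, eval_mul, eval_C, eval_X, mul_zero, sub_zero,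
    Finset.prod_const_one, mul_one]
  split_ifs with h
  · subst h; simp
  · exact zero_pow (by omega)

variable {V : Type} [Fintype V] [DecidableEq V]

/-- The path polynomial attached to a function of maps `A → V`. -/
noncomputable def pathPoly (A : Finset V) (F : (A → V) → ℝ) : ℝ[X] :=
  ∑ β : A → V, C (F β / ((Fintype.card V).descFactorial (univ.image β).card : ℕ)) *
    Qp A.card (univ.image β).card

/-- Average over the maps `V → W`, where `W` runs over the `r`-subsets of `V`. -/
noncomputable def avg (r : ℕ) (G : (V → V) → ℝ) : ℝ :=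
  (((Fintype.card V).choose r : ℝ) * (r : ℝ) ^ (Fintype.card V))⁻¹ *
    ∑ W ∈ powersetCard r (univ : Finset V), ∑ b ∈ Fintype.piFinset (fun _ : V => W), G b

lemma card_image_le_card (A : Finset V) (β : A → V) : (univ.image β).card ≤ A.card := by
  calc _ ≤ (univ : Finset A).card := card_image_le
    _ = A.card := by simp

lemma pathPoly_natDegree_le (A : Finset V) (F : (A → V) → ℝ) :
    (pathPoly A F).natDegree ≤ A.card - 1 := by
  unfold pathPoly
  refine natDegree_sum_le_of_forall_le _ _ fun β _ => ?_
  refine (natDegree_C_mul_le _ _).trans ?_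
  rcases A.eq_empty_or_nonempty with h | h
  · subst h
    simp [Qp]
  · apply Qp_natDegree (by exact Finset.card_pos.mpr h) _ (card_image_le_card A β)
    apply Finset.card_pos.mpr
    obtain ⟨a, ha⟩ := h
    exact ⟨β ⟨a, ha⟩, by simp⟩

lemma card_supersets_mul {C : Finset V} {r : ℕ} :
    ((powersetCard r (univ : Finset V)).filter (fun W => C ⊆ W)).card *
      (Fintype.card V).descFactorial C.card =
      (Fintype.card V).choose r * r.descFactorial C.card := by
  rcases le_or_gt C.card r with h | h
  · rw [card_filter_powersetCard_subset C univ r (subset_univ _) h, card_univ]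
    rw [Nat.descFactorial_eq_factorial_mul_choose, Nat.descFactorial_eq_factorial_mul_choose]
    have := Nat.choose_mul (n := Fintype.card V) h
    calc _ = (C.card).factorial * ((Fintype.card V).choose C.card *
          (Fintype.card V - C.card).choose (r - C.card)) := by ring
      _ = _ := by rw [← this]; ring
  · rw [Nat.descFactorial_eq_zero_iff_lt.mpr h, mul_zero]
    have : (powersetCard r (univ : Finset V)).filter (fun W => C ⊆ W) = ∅ := by
      ext W
      simp only [mem_filter, mem_powersetCard, notMem_empty, iff_false, not_and]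
      intro h1 h2
      have := card_le_card h2
      omega
    rw [this]
    simp

lemma sum_restrict (A W : Finset V) (F : (A → V) → ℝ) :
    ∑ b ∈ Fintype.piFinset (fun _ : V => W), F (fun a : A => b a) =
      (W.card : ℝ) ^ (Fintype.card V - A.card) *
        ∑ β ∈ Fintype.piFinset (fun _ : A => W), F β := by
  classical
  have e := Equiv.piEquivPiSubtypeProd (fun v : V => v ∈ A) (fun _ => V)
  have h1 : ∑ b ∈ Fintype.piFinset (fun _ : V => W), F (fun a : A => b a) =
      ∑ b : V → V, if (∀ v, b v ∈ W) then F (fun a : A => b a) else 0 := by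
    rw [← Finset.sum_filter]
    refine Finset.sum_congr ?_ fun _ _ => rfl
    ext b; simp
  have h2 : ∑ β ∈ Fintype.piFinset (fun _ : A => W), F β =
      ∑ β : A → V, if (∀ v, β v ∈ W) then F β else 0 := by
    rw [← Finset.sum_filter]
    refine Finset.sum_congr ?_ fun _ _ => rfl
    ext b; simp
  have h3 : (W.card : ℝ) ^ (Fintype.card V - A.card) =
      ∑ γ : {v : V // v ∉ A} → V, if (∀ v, γ v ∈ W) then (1 : ℝ) else 0 := by
    rw [← Finset.sum_filter]
    have : (univ.filter (fun γ : {v : V // v ∉ A} → V => ∀ v, γ v ∈ W)) =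
        Fintype.piFinset (fun _ : {v : V // v ∉ A} => W) := by
      ext b; simp
    rw [this, Finset.sum_const, Fintype.card_piFinset]
    simp [Fintype.card_subtype_compl]
  rw [h1, h2, h3]
  rw [← Equiv.sum_comp (Equiv.piEquivPiSubtypeProd (fun v : V => v ∈ A) (fun _ => V)).symm]
  rw [Fintype.sum_prod_type, Finset.mul_sum]
  refine Finset.sum_congr rfl fun β _ => ?_
  rw [Finset.sum_mul]
  refine Finset.sum_congr rfl fun γ _ => ?_
  have h4 : (fun a : A => (Equiv.piEquivPiSubtypeProd (fun v : V => v ∈ A) (fun _ => V)).symm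
      (β, γ) a) = β := by
    funext a
    simp [Equiv.piEquivPiSubtypeProd]
  have h5 : (∀ v, (Equiv.piEquivPiSubtypeProd (fun v : V => v ∈ A) (fun _ => V)).symm
      (β, γ) v ∈ W) ↔ (∀ v, β v ∈ W) ∧ (∀ v, γ v ∈ W) := by
    simp only [Equiv.piEquivPiSubtypeProd_symm_apply]
    constructor
    · intro h
      constructor
      · intro v
        have := h v
        simpa [v.2] using this
      · intro v
        have := h v
        simpa [v.2] using this
    · rintro ⟨ha, hb⟩ v
      split_ifs with hv
      · exact ha ⟨v, hv⟩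
      · exact hb ⟨v, hv⟩
  rw [h4]
  by_cases c1 : ∀ v, β v ∈ W <;> by_cases c2 : ∀ v, γ v ∈ W
  · rw [if_pos (h5.mpr ⟨c1, c2⟩), if_pos c1, if_pos c2]; ring
  · rw [if_neg (fun h => c2 (h5.mp h).2), if_neg c2]; ring
  · rw [if_neg (fun h => c1 (h5.mp h).1), if_neg c1]; ring
  · rw [if_neg (fun h => c2 (h5.mp h).2), if_neg c2]; ring

/-- The averages are values of the path polynomial. -/
lemma avg_eq_eval (A : Finset V) (F : (A → V) → ℝ) {r : ℕ} (hr : 1 ≤ r)
    (hrm : r ≤ Fintype.card V) :
    avg r (fun b => F (fun a : A => b a)) = (pathPoly A F).eval (1 / (r : ℝ)) := by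
  classical
  unfold avg pathPoly
  have hr0 : (r : ℝ) ≠ 0 := by positivity
  have hch : ((Fintype.card V).choose r : ℝ) ≠ 0 := by
    exact_mod_cast (Nat.choose_pos hrm).ne'
  have h1 : ∑ W ∈ powersetCard r (univ : Finset V),
      ∑ b ∈ Fintype.piFinset (fun _ : V => W), F (fun a : A => b a) =
      (r : ℝ) ^ (Fintype.card V - A.card) * ∑ β : A → V, F β *
        ((powersetCard r (univ : Finset V)).filter (fun W => univ.image β ⊆ W)).card := by
    have : ∀ W ∈ powersetCard r (univ : Finset V),
        ∑ b ∈ Fintype.piFinset (fun _ : V => W), F (fun a : A => b a) =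
        (r : ℝ) ^ (Fintype.card V - A.card) *
          ∑ β : A → V, if univ.image β ⊆ W then F β else 0 := by
      intro W hW
      rw [sum_restrict, (mem_powersetCard.mp hW).2]
      congr 1
      rw [← Finset.sum_filter]
      refine Finset.sum_congr ?_ fun _ _ => rfl
      ext β
      simp [Finset.image_subset_iff]
    rw [Finset.sum_congr rfl this, ← Finset.mul_sum, Finset.sum_comm]
    congr 1
    refine Finset.sum_congr rfl fun β _ => ?_
    rw [← Finset.sum_filter, Finset.sum_const, nsmul_eq_mul]
    ring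
  rw [h1, eval_finsetSum, ← mul_assoc, Finset.mul_sum]
  refine Finset.sum_congr rfl fun β _ => ?_
  rw [eval_mul, eval_C, Qp_eval (card_image_le_card A β) hr]
  have h2 := card_supersets_mul (C := univ.image β) (r := r)
  have h2' : (((powersetCard r (univ : Finset V)).filter (fun W => univ.image β ⊆ W)).card : ℝ) *
      ((Fintype.card V).descFactorial (univ.image β).card : ℕ) =
      ((Fintype.card V).choose r : ℝ) * (r.descFactorial (univ.image β).card : ℕ) := by
    exact_mod_cast h2
  have hdf : (((Fintype.card V).descFactorial (univ.image β).card : ℕ) : ℝ) ≠ 0 := by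
    have : (univ.image β).card ≤ Fintype.card V := by
      calc _ ≤ (univ : Finset V).card := card_le_card (subset_univ _)
        _ = _ := card_univ
    exact_mod_cast (Nat.descFactorial_pos.mpr this).ne'
  have hA : A.card ≤ Fintype.card V := by
    calc _ ≤ (univ : Finset V).card := card_le_card (subset_univ _)
      _ = _ := card_univ
  obtain ⟨e, he⟩ : ∃ e, Fintype.card V = e + A.card := ⟨Fintype.card V - A.card, by omega⟩
  have h3 : (r : ℝ) ^ (Fintype.card V) = (r : ℝ) ^ (Fintype.card V - A.card) * (r : ℝ) ^ A.card := by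
    rw [← pow_add]; congr 1; omega
  rw [h3]
  have hp1 : (r : ℝ) ^ (Fintype.card V - A.card) ≠ 0 := pow_ne_zero _ hr0
  have hp2 : (r : ℝ) ^ A.card ≠ 0 := pow_ne_zero _ hr0
  field_simp
  linear_combination (F β) * h2'

/-- The value at `0` of the path polynomial over all of `V`. -/
lemma pathPoly_univ_eval_zero [Nonempty V] (F : (↥(univ : Finset V) → V) → ℝ) :
    (pathPoly univ F).eval 0 =
      ((Fintype.card (Equiv.Perm V) : ℝ))⁻¹ * ∑ σ : Equiv.Perm V, F (fun a => σ a) := by
  classical
  unfold pathPoly
  rw [eval_finsetSum]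
  have h1 : ∀ β : ↥(univ : Finset V) → V,
      (C (F β / ((Fintype.card V).descFactorial (univ.image β).card : ℕ)) *
        Qp (univ : Finset V).card (univ.image β).card).eval 0 =
      if (univ.image β).card = Fintype.card V then
        ((Fintype.card (Equiv.Perm V) : ℝ))⁻¹ * F β else 0 := by
    intro β
    rw [eval_mul, eval_C, Qp_eval_zero (card_image_le_card univ β), card_univ]
    split_ifs with h
    · rw [h, Nat.descFactorial_self, Fintype.card_perm]
      ring
    · ring
  simp_rw [h1]
  rw [← Finset.sum_filter, ← Finset.mul_sum]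
  congr 1
  symm
  refine Finset.sum_bij (fun σ _ => (fun a : ↥(univ : Finset V) => σ a)) ?_ ?_ ?_ ?_
  · intro σ _
    rw [mem_filter]
    refine ⟨mem_univ _, ?_⟩
    have : univ.image (fun a : ↥(univ : Finset V) => σ a) = univ := by
      ext v
      simp only [mem_image, mem_univ, true_and, iff_true]
      exact ⟨⟨σ.symm v, mem_univ _⟩, by simp⟩
    rw [this, card_univ]
  · intro σ _ τ _ h
    ext v
    have := congrFun h ⟨v, mem_univ _⟩
    simpa using this
  · intro β hβ
    rw [mem_filter] at hβ
    have hsurj : Function.Surjective (fun v : V => β ⟨v, mem_univ _⟩) := by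
      intro w
      have h2 : univ.image β = univ := Finset.eq_univ_of_card _ hβ.2
      have h3 : w ∈ univ.image β := by rw [h2]; exact mem_univ _
      rw [mem_image] at h3
      obtain ⟨a, _, ha⟩ := h3
      exact ⟨a, by simpa using ha⟩
    have hbij : Function.Bijective (fun v : V => β ⟨v, mem_univ _⟩) :=
      (Finite.surjective_iff_bijective).mp hsurj
    refine ⟨Equiv.ofBijective _ hbij, mem_univ _, ?_⟩
    funext a
    simp
  · intro σ _
    rfl

/-- The value at `0` of the path polynomial is the average over all permutations. -/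
lemma pathPoly_eval_zero [Nonempty V] (A : Finset V) (F : (A → V) → ℝ) :
    (pathPoly A F).eval 0 =
      ((Fintype.card (Equiv.Perm V) : ℝ))⁻¹ * ∑ σ : Equiv.Perm V, F (fun a => σ a) := by
  classical
  have hm : 0 < Fintype.card V := Fintype.card_pos
  have key : pathPoly A F = pathPoly univ
      (fun β : ↥(univ : Finset V) → V => F (fun a : A => β ⟨a, mem_univ _⟩)) := by
    set s : Finset ℝ := (Finset.Icc 1 (Fintype.card V)).image (fun r : ℕ => 1 / (r : ℝ)) with hs
    have hcard : s.card = Fintype.card V := by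
      rw [hs, card_image_of_injOn]
      · simp
      · intro a _ b _ hab
        simpa using hab
    have hlt : ∀ (B : Finset V) (G : (B → V) → ℝ), (pathPoly B G).degree < s.card := by
      intro B G
      rw [hcard]
      refine lt_of_le_of_lt (degree_le_natDegree) ?_
      have h1 := pathPoly_natDegree_le B G
      have h2 : B.card ≤ Fintype.card V := by
        calc _ ≤ (univ : Finset V).card := card_le_card (subset_univ _)
          _ = _ := card_univ
      have h3 : (pathPoly B G).natDegree < Fintype.card V := by omega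
      exact_mod_cast h3
    refine eq_of_degrees_lt_of_eval_finset_eq s (hlt _ _) (hlt _ _) ?_
    intro x hx
    rw [hs, mem_image] at hx
    obtain ⟨r, hr, rfl⟩ := hx
    rw [mem_Icc] at hr
    rw [← avg_eq_eval A F hr.1 hr.2, ← avg_eq_eval univ _ hr.1 hr.2]
  rw [key, pathPoly_univ_eval_zero]

end Pool.Agent.Lib_helper30.AA
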