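import Pool.Agent.Lib_helper30.AA.Fourier
import Pool.Agent.Lib_helper30.AA.Markov
import Pool.Agent.Lib_helper30.AA.Path

set_option autoImplicit false
set_option linter.unusedSectionVars false

open Finset Polynomial

namespace Pool.Agent.Lib_helper30.AA

section Pull

variable {V I : Type} [MulAction (Equiv.Perm V) I]

/-- `s` supports `i`. -/
def Supp (s : Finset V) (i : I) : Prop :=
  ∀ σ : Equiv.Perm V, (∀ v ∈ s, σ v = v) → σ • i = i

open Classical in
/-- Pull back of a point of the cube under a map `b : V → V`. -/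
noncomputable def pull (s : I → Finset V) (b : V → V) (x : I → Bool) : I → Bool :=
  fun i => if h : ∃ σ : Equiv.Perm V, ∀ v ∈ s i, σ v = b v then x (h.choose • i) else false

lemma smul_eq_of_agree {s : I → Finset V} (hs : ∀ i, Supp (s i) i) {σ τ : Equiv.Perm V} {i : I}
    (h : ∀ v ∈ s i, σ v = τ v) : σ • i = τ • i := by
  have h1 : (τ⁻¹ * σ) • i = i := by
    apply hs i
    intro v hv
    simp [h v hv]
  calc σ • i = τ • ((τ⁻¹ * σ) • i) := by rw [mul_smul, smul_inv_smul]
    _ = τ • i := by rw [h1]

lemma pull_eq {s : I → Finset V} (hs : ∀ i, Supp (s i) i) {σ : Equiv.Perm V} {b : V → V} {i : I}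
    (h : ∀ v ∈ s i, σ v = b v) (x : I → Bool) : pull s b x i = x (σ • i) := by
  unfold pull
  have hex : ∃ σ : Equiv.Perm V, ∀ v ∈ s i, σ v = b v := ⟨σ, h⟩
  rw [dif_pos hex]
  congr 1
  apply smul_eq_of_agree hs
  intro v hv
  rw [hex.choose_spec v hv, h v hv]

lemma pull_perm {s : I → Finset V} (hs : ∀ i, Supp (s i) i) (σ : Equiv.Perm V) (x : I → Bool) :
    pull s σ x = fun i => x (σ • i) := by
  funext i
  exact pull_eq hs (fun _ _ => rfl) x

lemma pull_of_not {s : I → Finset V} {b : V → V} {i : I}
    (h : ¬ ∃ σ : Equiv.Perm V, ∀ v ∈ s i, σ v = b v) (x : I → Bool) : pull s b x i = false := by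
  unfold pull
  rw [dif_neg h]

lemma pull_congr {s : I → Finset V} (hs : ∀ i, Supp (s i) i) {b b' : V → V} {i : I}
    (h : ∀ v ∈ s i, b v = b' v) (x : I → Bool) : pull s b x i = pull s b' x i := by
  by_cases hex : ∃ σ : Equiv.Perm V, ∀ v ∈ s i, σ v = b v
  · obtain ⟨σ, hσ⟩ := hex
    rw [pull_eq hs hσ x, pull_eq hs (fun v hv => (hσ v hv).trans (h v hv)) x]
  · have hex' : ¬ ∃ σ : Equiv.Perm V, ∀ v ∈ s i, σ v = b' v := by
      rintro ⟨σ, hσ⟩
      exact hex ⟨σ, fun v hv => (hσ v hv).trans (h v hv).symm⟩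
    rw [pull_of_not hex, pull_of_not hex']

/-- If `b` maps into `W` then the pull back only depends on the coordinates supported by `W`. -/
lemma pull_dep {s : I → Finset V} (hs : ∀ i, Supp (s i) i) {b : V → V} {W : Finset V}
    (hb : ∀ v, b v ∈ W) {x y : I → Bool} (hxy : ∀ i : I, Supp W i → x i = y i) :
    pull s b x = pull s b y := by
  funext i
  by_cases hex : ∃ σ : Equiv.Perm V, ∀ v ∈ s i, σ v = b v
  · obtain ⟨σ, hσ⟩ := hex
    rw [pull_eq hs hσ x, pull_eq hs hσ y]
    apply hxy
    intro τ hτ
    have h1 : (τ * σ) • i = σ • i := by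
      apply smul_eq_of_agree hs
      intro v hv
      rw [Equiv.Perm.mul_apply]
      apply hτ
      rw [hσ v hv]
      exact hb v
    rw [← mul_smul, h1]
  · rw [pull_of_not hex, pull_of_not hex]

/-- An index supported by two disjoint sets which do not cover `V` is fixed. -/
lemma fixed_of_supp [Fintype V] [DecidableEq V] {W W' : Finset V} (hd : Disjoint W W')
    (hc : (W ∪ W').card < Fintype.card V) {i : I} (h : Supp W i) (h' : Supp W' i)
    (σ : Equiv.Perm V) : σ • i = i := by
  obtain ⟨c, hc⟩ : ∃ c, c ∉ W ∪ W' := by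
    by_contra hcon
    push Not at hcon
    have : W ∪ W' = univ := by
      ext v
      simpa using hcon v
    rw [this, card_univ] at hc
    exact lt_irrefl _ hc
  rw [mem_union, not_or] at hc
  have hswap : ∀ a b : V, Equiv.swap a b • i = i := by
    have hW : ∀ a b : V, a ∉ W → b ∉ W → Equiv.swap a b • i = i := by
      intro a b ha hb
      apply h
      intro v hv
      exact Equiv.swap_apply_of_ne_of_ne (by rintro rfl; exact ha hv) (by rintro rfl; exact hb hv)
    have hW' : ∀ a b : V, a ∉ W' → b ∉ W' → Equiv.swap a b • i = i := by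
      intro a b ha hb
      apply h'
      intro v hv
      exact Equiv.swap_apply_of_ne_of_ne (by rintro rfl; exact ha hv) (by rintro rfl; exact hb hv)
    have key : ∀ a b : V, a ∈ W → b ∈ W' → Equiv.swap a b • i = i := by
      intro a b ha hb
      have ha' : a ∉ W' := fun h => (Finset.disjoint_left.mp hd ha h)
      have hb' : b ∉ W := fun h => (Finset.disjoint_left.mp hd h hb)
      have hca : c ≠ a := by rintro rfl; exact hc.1 ha
      have hcb : c ≠ b := by rintro rfl; exact hc.2 hb
      have h1 : Equiv.swap a c * Equiv.swap c b * Equiv.swap a c = Equiv.swap a b := by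
        rw [Equiv.swap_comm c b, Equiv.swap_comm a c]
        rw [Equiv.swap_comm c a, Equiv.swap_comm b c]
        ext v
        simp only [Equiv.Perm.mul_apply, Equiv.swap_apply_def]
        split_ifs <;> simp_all
      rw [← h1, mul_smul, mul_smul, hW' a c ha' hc.2, hW c b hc.1 hb', hW' a c ha' hc.2]
    intro a b
    by_cases ha : a ∈ W
    · by_cases hb : b ∈ W'
      · exact key a b ha hb
      · exact hW' a b (fun h => Finset.disjoint_left.mp hd ha h) hb
    · by_cases hb : b ∈ W
      · by_cases ha' : a ∈ W'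
        · rw [Equiv.swap_comm]
          exact key b a hb ha'
        · exact hW' a b ha' (fun h => Finset.disjoint_left.mp hd hb h)
      · exact hW a b ha hb
  induction σ using Equiv.Perm.swap_induction_on with
  | one => simp
  | swap_mul f x y hxy ih => rw [mul_smul, ih, hswap]

end Pull

section Approx

variable {V I : Type} [Fintype V] [DecidableEq V] [Nonempty V] [Fintype I] [DecidableEq I]
  [MulAction (Equiv.Perm V) I]

lemma avg_sum {α : Type} (t : Finset α) (c : α → ℝ) (G : α → (V → V) → ℝ) (r : ℕ) :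
    avg r (fun b => ∑ a ∈ t, c a * G a b) = ∑ a ∈ t, c a * avg r (G a) := by
  unfold avg
  have h : ∑ W ∈ powersetCard r (univ : Finset V), ∑ b ∈ Fintype.piFinset (fun _ : V => W),
      ∑ a ∈ t, c a * G a b = ∑ a ∈ t, c a * ∑ W ∈ powersetCard r (univ : Finset V),
        ∑ b ∈ Fintype.piFinset (fun _ : V => W), G a b := by
    have h1 : ∀ W ∈ powersetCard r (univ : Finset V), ∑ b ∈ Fintype.piFinset (fun _ : V => W),
        ∑ a ∈ t, c a * G a b = ∑ a ∈ t, ∑ b ∈ Fintype.piFinset (fun _ : V => W), c a * G a b :=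
      fun W _ => Finset.sum_comm
    rw [Finset.sum_congr rfl h1, Finset.sum_comm]
    refine Finset.sum_congr rfl fun a _ => ?_
    rw [Finset.mul_sum]
    refine Finset.sum_congr rfl fun W _ => ?_
    rw [Finset.mul_sum]
  rw [h, Finset.mul_sum]
  refine Finset.sum_congr rfl fun a _ => ?_
  ring

lemma abs_avg_le {r : ℕ} (hr : 1 ≤ r) (hrm : r ≤ Fintype.card V) {G : (V → V) → ℝ}
    (hG : ∀ b, |G b| ≤ 1) : |avg r G| ≤ 1 := by
  unfold avg
  have hpos : 0 < ((Fintype.card V).choose r : ℝ) * (r : ℝ) ^ (Fintype.card V) := by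
    have h1 : 0 < (Fintype.card V).choose r := Nat.choose_pos hrm
    positivity
  rw [abs_mul, abs_of_pos (inv_pos.mpr hpos), inv_mul_le_iff₀ hpos, mul_one]
  calc |∑ W ∈ powersetCard r (univ : Finset V), ∑ b ∈ Fintype.piFinset (fun _ : V => W), G b|
      ≤ ∑ W ∈ powersetCard r (univ : Finset V), |∑ b ∈ Fintype.piFinset (fun _ : V => W), G b| :=
        Finset.abs_sum_le_sum_abs _ _
    _ ≤ ∑ W ∈ powersetCard r (univ : Finset V), (r : ℝ) ^ (Fintype.card V) := by
        refine Finset.sum_le_sum fun W hW => ?_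
        refine (Finset.abs_sum_le_sum_abs _ _).trans ?_
        calc ∑ b ∈ Fintype.piFinset (fun _ : V => W), |G b|
            ≤ ∑ b ∈ Fintype.piFinset (fun _ : V => W), (1 : ℝ) :=
              Finset.sum_le_sum fun b _ => hG b
          _ = (r : ℝ) ^ (Fintype.card V) := by
              rw [Finset.sum_const, Fintype.card_piFinset]
              simp [(mem_powersetCard.mp hW).2]
    _ = ((Fintype.card V).choose r : ℝ) * (r : ℝ) ^ (Fintype.card V) := by
        rw [Finset.sum_const, card_powersetCard, card_univ, nsmul_eq_mul]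

/-- Extension of a map `A → V` by the identity. -/
noncomputable def ext (A : Finset V) (β : A → V) (v : V) : V :=
  if h : v ∈ A then β ⟨v, h⟩ else v

/-- The approximation lemma: an invariant bounded function of degree `≤ d` is pointwise close to
its average over small-range maps. -/
lemma approx {s : I → Finset V} (hs : ∀ i, Supp (s i) i) {d l D : ℕ}
    (hl : ∀ i, (s i).card ≤ l) (hD : 1 ≤ D) (hdl : d * l ≤ D + 1)
    {f : (I → Bool) → ℝ} (hf : ∀ x, |f x| ≤ 1)
    (hinv : ∀ (σ : Equiv.Perm V) (x : I → Bool), f (fun i => x (σ • i)) = f x)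
    (hdeg : ∀ S : Finset I, d < S.card → coef f S = 0)
    (hm : 64 * D ^ 4 ≤ Fintype.card V) {r : ℕ} (hr : 8 * D ^ 2 ≤ r) (hrm : r ≤ Fintype.card V)
    (x : I → Bool) :
    |f x - avg r (fun b : V → V => f (pull s b x))| ≤ 64 * (D : ℝ) ^ 4 / r := by
  classical
  set P : ℝ[X] := ∑ S : Finset I, C (coef f S) *
    pathPoly (S.biUnion s) (fun β => chi S (pull s (ext (S.biUnion s) β) x)) with hP
  have hloc : ∀ (S : Finset I) (b : V → V),
      chi S (pull s b x) = chi S (pull s (ext (S.biUnion s) (fun a : S.biUnion s => b a)) x) := by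
    intro S b
    unfold chi
    refine Finset.prod_congr rfl fun i hi => ?_
    rw [pull_congr hs (b' := ext (S.biUnion s) (fun a : S.biUnion s => b a)) _ x]
    intro v hv
    have : v ∈ S.biUnion s := Finset.mem_biUnion.mpr ⟨i, hi, hv⟩
    simp [ext, this]
  have hev : ∀ r : ℕ, 1 ≤ r → r ≤ Fintype.card V →
      avg r (fun b : V → V => f (pull s b x)) = P.eval (1 / (r : ℝ)) := by
    intro r h1 h2
    have h3 : (fun b : V → V => f (pull s b x)) =
        fun b => ∑ S : Finset I, coef f S * chi S (pull s b x) := by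
      funext b
      exact inversion f _
    rw [h3, avg_sum, hP, eval_finsetSum]
    refine Finset.sum_congr rfl fun S _ => ?_
    rw [eval_mul, eval_C, ← avg_eq_eval _ _ h1 h2]
    congr 2
    funext b
    exact hloc S b
  have h0 : P.eval 0 = f x := by
    rw [hP, eval_finsetSum]
    have h1 : ∀ S : Finset I, (C (coef f S) *
        pathPoly (S.biUnion s) (fun β => chi S (pull s (ext (S.biUnion s) β) x))).eval 0 =
        ((Fintype.card (Equiv.Perm V) : ℝ))⁻¹ *
          ∑ σ : Equiv.Perm V, coef f S * chi S (fun i => x (σ • i)) := by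
      intro S
      rw [eval_mul, eval_C, pathPoly_eval_zero, ← Finset.mul_sum]
      have : ∀ σ : Equiv.Perm V, chi S (pull s (ext (S.biUnion s)
          (fun a : S.biUnion s => σ a)) x) = chi S (fun i => x (σ • i)) := by
        intro σ
        rw [← hloc S σ, pull_perm hs]
      simp_rw [this]
      ring
    simp_rw [h1]
    rw [← Finset.mul_sum, Finset.sum_comm]
    have h2 : ∀ σ : Equiv.Perm V, ∑ S : Finset I, coef f S * chi S (fun i => x (σ • i)) = f x := by
      intro σ
      rw [← inversion f, hinv]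
    simp_rw [h2]
    rw [Finset.sum_const, card_univ, nsmul_eq_mul]
    have : (Fintype.card (Equiv.Perm V) : ℝ) ≠ 0 := by
      exact_mod_cast Fintype.card_ne_zero
    field_simp
  have hdegP : P.natDegree ≤ D := by
    rw [hP]
    refine natDegree_sum_le_of_forall_le _ _ fun S _ => ?_
    rcases le_or_gt S.card d with h | h
    · refine (natDegree_C_mul_le _ _).trans ((pathPoly_natDegree_le _ _).trans ?_)
      have h1 : (S.biUnion s).card ≤ S.card * l := Finset.card_biUnion_le_card_mul _ _ _
        (fun i _ => hl i)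
      have h2 : S.card * l ≤ d * l := Nat.mul_le_mul_right _ h
      omega
    · rw [hdeg S h]
      simp
  have hb : ∀ r : ℕ, 1 ≤ r → r ≤ Fintype.card V → |P.eval (1 / (r : ℝ))| ≤ 1 := by
    intro r h1 h2
    rw [← hev r h1 h2]
    exact abs_avg_le h1 h2 (fun b => hf _)
  have h1r : 1 ≤ r := by
    have : 1 ≤ D ^ 2 := Nat.one_le_pow _ _ hD
    omega
  rw [← h0, hev r h1r hrm]
  exact near_zero hD hm hdegP hb hr

end Approx

end Pool.Agent.Lib_helper30.AA
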