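import Pool.Agent.Lib_helper30.AA.Blocks

set_option autoImplicit false
set_option linter.unusedSectionVars false

open Finset

namespace Pool.Agent.Lib_helper30.AA

variable {I : Type} [Fintype I] [DecidableEq I]

/-- Expectation on the cube. -/
noncomputable def ex (f : (I → Bool) → ℝ) : ℝ :=
  ((2 : ℝ) ^ (Fintype.card I))⁻¹ * ∑ x : I → Bool, f x

lemma ex_add (f g : (I → Bool) → ℝ) : ex (fun x => f x + g x) = ex f + ex g := by
  unfold ex; rw [Finset.sum_add_distrib, mul_add]

lemma ex_sub (f g : (I → Bool) → ℝ) : ex (fun x => f x - g x) = ex f - ex g := by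
  unfold ex; rw [Finset.sum_sub_distrib, mul_sub]

lemma ex_const_mul (c : ℝ) (f : (I → Bool) → ℝ) : ex (fun x => c * f x) = c * ex f := by
  unfold ex; rw [← Finset.mul_sum]; ring

lemma ex_mono {f g : (I → Bool) → ℝ} (h : ∀ x, f x ≤ g x) : ex f ≤ ex g := by
  unfold ex
  exact mul_le_mul_of_nonneg_left (Finset.sum_le_sum fun x _ => h x) (by positivity)

lemma ex_const (c : ℝ) : ex (fun _ : I → Bool => c) = c := by
  unfold ex
  rw [Finset.sum_const, Finset.card_univ, nsmul_eq_mul]
  simp

lemma abs_ex_le (f : (I → Bool) → ℝ) : |ex f| ≤ ex (fun x => |f x|) := by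
  unfold ex
  rw [abs_mul, abs_of_nonneg (by positivity : (0 : ℝ) ≤ ((2 : ℝ) ^ (Fintype.card I))⁻¹)]
  exact mul_le_mul_of_nonneg_left (Finset.abs_sum_le_sum_abs _ _) (by positivity)

lemma ex_flip (f : (I → Bool) → ℝ) (i : I) : ex (fun x => f (flip i x)) = ex f := by
  unfold ex
  rw [← Equiv.sum_comp (flipEquiv i) f]
  rfl

lemma flip_comm (i j : I) (x : I → Bool) : flip i (flip j x) = flip j (flip i x) := by
  funext k
  unfold flip
  by_cases hi : k = i <;> by_cases hj : k = j
  · subst hi; subst hj; simp
  · subst hi; simp [hj]
  · subst hj; simp [hi]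
  · simp [hi, hj]

lemma ex_ite {F G : (I → Bool) → ℝ} {i : I} (hF : ∀ x, F (flip i x) = F x)
    (hG : ∀ x, G (flip i x) = G x) :
    ex (fun x => if x i then G x else F x) = (ex F + ex G) / 2 := by
  have h1 := ex_flip (fun x => if x i then G x else F x) i
  have h2 : ∀ x : I → Bool, (if flip i x i then G (flip i x) else F (flip i x)) +
      (if x i then G x else F x) = F x + G x := by
    intro x
    have h3 : flip i x i = !x i := by simp [flip]
    rw [h3, hF, hG]
    cases x i <;> simp [add_comm]
  have h4 : ex (fun x => (if flip i x i then G (flip i x) else F (flip i x)) +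
      (if x i then G x else F x)) = ex F + ex G := by
    simp_rw [h2]
    exact ex_add F G
  rw [ex_add, h1] at h4
  linarith

/-- `Comp D g`: the function `g` is computed by a decision tree of depth at most `D`. -/
def Comp : ℕ → ((I → Bool) → ℝ) → Prop
  | 0, g => ∃ c, ∀ x, g x = c
  | D + 1, g => (∃ c, ∀ x, g x = c) ∨ ∃ (i : I) (g0 g1 : (I → Bool) → ℝ), Comp D g0 ∧ Comp D g1 ∧
      (∀ x, g0 (flip i x) = g0 x) ∧ (∀ x, g1 (flip i x) = g1 x) ∧
      ∀ x, g x = if x i then g1 x else g0 x

lemma comp_const (D : ℕ) {g : (I → Bool) → ℝ} (h : ∃ c, ∀ x, g x = c) : Comp D g := by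
  cases D with
  | zero => exact h
  | succ D => exact Or.inl h

lemma comp_mono {D D' : ℕ} (h : D ≤ D') {g : (I → Bool) → ℝ} (hg : Comp D g) : Comp D' g := by
  induction D generalizing D' g with
  | zero => exact comp_const D' hg
  | succ D ih =>
    cases D' with
    | zero => omega
    | succ D' =>
      rcases hg with hg | ⟨i, g0, g1, h0, h1, e0, e1, e⟩
      · exact Or.inl hg
      · exact Or.inr ⟨i, g0, g1, ih (by omega) h0, ih (by omega) h1, e0, e1, e⟩

/-- **The two-function OSSS inequality.** -/
lemma osss {τ : ℝ} (hτ : 0 ≤ τ) (D : ℕ) : ∀ (f g : (I → Bool) → ℝ), Comp D g →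
    (∀ x, |g x| ≤ 1) → (∀ i, ex (fun x => |f x - f (flip i x)|) ≤ τ) →
    |ex (fun x => f x * g x) - ex f * ex g| ≤ D * τ / 2 := by
  induction D with
  | zero =>
    intro f g hg hg1 hf
    obtain ⟨c, hc⟩ := hg
    have h1 : ex (fun x => f x * g x) = c * ex f := by
      rw [← ex_const_mul]
      congr 1
      funext x
      rw [hc x, mul_comm]
    have h2 : ex g = c := by
      have : g = fun _ => c := funext hc
      rw [this, ex_const]
    rw [h1, h2]
    simp [mul_comm]
  | succ D ih =>
    intro f g hg hg1 hf
    rcases hg with ⟨c, hc⟩ | ⟨i, g0, g1, h0, h1, e0, e1, e⟩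
    · have h1 : ex (fun x => f x * g x) = c * ex f := by
        rw [← ex_const_mul]
        congr 1
        funext x
        rw [hc x, mul_comm]
      have h2 : ex g = c := by
        have : g = fun _ => c := funext hc
        rw [this, ex_const]
      rw [h1, h2, mul_comm (ex f) c, sub_self, abs_zero]
      positivity
    set fb : (I → Bool) → ℝ := fun x => (f x + f (flip i x)) / 2 with hfb
    have hfbflip : ∀ x, fb (flip i x) = fb x := by
      intro x
      simp only [hfb, flip_flip]
      ring
    have hexfb : ex fb = ex f := by
      have : fb = fun x => (1 / 2) * f x + (1 / 2) * f (flip i x) := by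
        funext x; simp only [hfb]; ring
      rw [this, ex_add, ex_const_mul, ex_const_mul, ex_flip]
      ring
    have hfbinf : ∀ j, ex (fun x => |fb x - fb (flip j x)|) ≤ τ := by
      intro j
      have h2 : ex (fun x => |fb x - fb (flip j x)|) ≤
          ex (fun x => (1 / 2) * |f x - f (flip j x)| +
            (1 / 2) * |f (flip i x) - f (flip j (flip i x))|) := by
        apply ex_mono
        intro x
        simp only [hfb]
        rw [flip_comm i j x]
        have h3 : (f x + f (flip i x)) / 2 - (f (flip j x) + f (flip j (flip i x))) / 2 =
            (1 / 2) * (f x - f (flip j x)) + (1 / 2) * (f (flip i x) - f (flip j (flip i x))) := by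
          ring
        rw [h3]
        refine (abs_add_le _ _).trans ?_
        rw [abs_mul, abs_mul]
        norm_num
      refine h2.trans ?_
      rw [ex_add, ex_const_mul, ex_const_mul, ex_flip (fun x => |f x - f (flip j x)|) i]
      have := hf j
      linarith
    have hg0 : ∀ x, |g0 x| ≤ 1 := by
      intro x
      cases hx : x i with
      | false =>
        have := hg1 x
        rw [e x, hx] at this
        simpa using this
      | true =>
        have := hg1 (flip i x)
        rw [e (flip i x), show flip i x i = false by simp [flip, hx], e0] at this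
        simpa using this
    have hg1' : ∀ x, |g1 x| ≤ 1 := by
      intro x
      cases hx : x i with
      | true =>
        have := hg1 x
        rw [e x, hx] at this
        simpa using this
      | false =>
        have := hg1 (flip i x)
        rw [e (flip i x), show flip i x i = true by simp [flip, hx], e1] at this
        simpa using this
    have c0 := ih fb g0 h0 hg0 hfbinf
    have c1 := ih fb g1 h1 hg1' hfbinf
    have hEg : ex g = (ex g0 + ex g1) / 2 := by
      have : g = fun x => if x i then g1 x else g0 x := funext e
      rw [this, ex_ite e0 e1]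
    have hEfg : ex (fun x => fb x * g x) =
        (ex (fun x => fb x * g0 x) + ex (fun x => fb x * g1 x)) / 2 := by
      rw [← ex_ite (F := fun x => fb x * g0 x) (G := fun x => fb x * g1 x) (i := i)
        (fun x => by rw [hfbflip, e0]) (fun x => by rw [hfbflip, e1])]
      congr 1
      funext x
      rw [e x]
      split_ifs <;> rfl
    have hdiff : ex (fun x => f x * g x) - ex f * ex g =
        ex (fun x => (f x - fb x) * g x) + ((ex (fun x => fb x * g0 x) - ex fb * ex g0) +
          (ex (fun x => fb x * g1 x) - ex fb * ex g1)) / 2 := by
      have h3 : ex (fun x => (f x - fb x) * g x) =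
          ex (fun x => f x * g x) - ex (fun x => fb x * g x) := by
        rw [← ex_sub]
        congr 1
        funext x
        ring
      rw [h3, hEfg, hEg, hexfb]
      ring
    have h4 : |ex (fun x => (f x - fb x) * g x)| ≤ τ / 2 := by
      refine (abs_ex_le _).trans ?_
      have h5 : ex (fun x => |(f x - fb x) * g x|) ≤
          ex (fun x => (1 / 2) * |f x - f (flip i x)|) := by
        apply ex_mono
        intro x
        rw [abs_mul]
        have h6 : f x - fb x = (1 / 2) * (f x - f (flip i x)) := by
          simp only [hfb]; ring
        rw [h6, abs_mul]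
        calc |(1 / 2 : ℝ)| * |f x - f (flip i x)| * |g x|
            ≤ |(1 / 2 : ℝ)| * |f x - f (flip i x)| * 1 := by
              gcongr
              exact hg1 x
          _ = (1 / 2) * |f x - f (flip i x)| := by norm_num
      refine h5.trans ?_
      rw [ex_const_mul]
      have := hf i
      linarith
    rw [hdiff]
    rw [abs_le] at c0 c1 h4 ⊢
    push_cast
    constructor <;> linarith [c0.1, c0.2, c1.1, c1.2, h4.1, h4.2]

/-- Querying a set of coordinates. -/
lemma comp_query {D : ℕ} (Q : Finset I) : ∀ g : (I → Bool) → ℝ,
    (∀ a, Comp D (fun x => g (mix Qᶜ a x))) → Comp (D + Q.card) g := by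
  induction Q using Finset.induction_on with
  | empty =>
    intro g h
    have h1 : (fun x => g (mix (∅ : Finset I)ᶜ (fun _ => false) x)) = g := by
      funext x
      congr 1
      funext i
      simp [mix]
    have := h (fun _ => false)
    rw [h1] at this
    simpa using this
  | insert i Q hi ih =>
    intro g h
    rw [Finset.card_insert_of_notMem hi, ← add_assoc]
    have hb : ∀ b : Bool, Comp (D + Q.card) (fun x => g (Function.update x i b)) := by
      intro b
      apply ih
      intro a
      have h1 : (fun x => g (Function.update (mix Qᶜ a x) i b)) =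
          fun x => g (mix (insert i Q)ᶜ (Function.update a i b) x) := by
        funext x
        congr 1
        funext j
        by_cases hj : j = i
        · subst hj; simp [mix]
        · simp only [Function.update_of_ne hj, mix, Finset.mem_compl, Finset.mem_insert, hj,
            false_or]
      rw [h1]
      exact h _
    refine Or.inr ⟨i, fun x => g (Function.update x i false),
      fun x => g (Function.update x i true), hb false, hb true, ?_, ?_, ?_⟩
    · intro x; simp [flip]
    · intro x; simp [flip]
    · intro x
      cases hx : x i with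
      | true =>
        show g x = g (Function.update x i true)
        rw [← hx, Function.update_eq_self]
      | false =>
        show g x = g (Function.update x i false)
        rw [← hx, Function.update_eq_self]

/-- From certificates to decision trees. -/
lemma comp_of_cert (r : ℕ) : ∀ g : (I → Bool) → ℝ,
    (∀ x, ∃ S : Finset I, S.card ≤ r ∧ ∀ y : I → Bool, (∀ i ∈ S, y i = x i) → g y = g x) →
    Comp (r * (r + 1)) g := by
  induction r with
  | zero =>
    intro g h
    obtain ⟨S, hS, h1⟩ := h (fun _ => false)
    have : S = ∅ := Finset.card_eq_zero.1 (by omega)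
    subst this
    exact ⟨g (fun _ => false), fun x => h1 x (by simp)⟩
  | succ r ih =>
    intro g h
    by_cases hconst : ∃ c, ∀ x, g x = c
    · exact comp_const _ hconst
    obtain ⟨y, y', hyy⟩ : ∃ y y', g y ≠ g y' := by
      by_contra hcon
      push Not at hcon
      exact hconst ⟨g (fun _ => false), fun x => hcon x _⟩
    obtain ⟨S, hS, hSc⟩ := h y
    obtain ⟨S', hS', hSc'⟩ := h y'
    have hQ : Comp (r * (r + 1) + (S ∪ S').card) g := by
      apply comp_query
      intro a
      apply ih
      intro x
      obtain ⟨T, hT, hTc⟩ := h (mix (S ∪ S')ᶜ a x)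
      refine ⟨T \ (S ∪ S'), ?_, ?_⟩
      · -- the certificate meets the queried set
        have hmeet : (T ∩ (S ∪ S')).Nonempty := by
          by_contra hcon
          rw [Finset.not_nonempty_iff_eq_empty] at hcon
          have key : ∀ (w : I → Bool) (R : Finset I), R ⊆ S ∪ S' →
              (∀ z : I → Bool, (∀ i ∈ R, z i = w i) → g z = g w) →
              g (mix (S ∪ S')ᶜ a x) = g w := by
            intro w R hR hRc
            rw [← hTc (mix R (mix (S ∪ S')ᶜ a x) w) ?_]
            · apply hRc
              intro i hi
              simp [mix, hi]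
            · intro i hi
              have : i ∉ R := by
                intro h'
                have : i ∈ T ∩ (S ∪ S') := Finset.mem_inter.2 ⟨hi, hR h'⟩
                rw [hcon] at this
                exact absurd this (Finset.notMem_empty i)
              simp only [mix, this, if_false]
          have k1 := key y S Finset.subset_union_left hSc
          have k2 := key y' S' Finset.subset_union_right hSc'
          exact hyy (k1.symm.trans k2)
        have h1 := Finset.card_sdiff_add_card_inter T (S ∪ S')
        have h2 := Finset.card_pos.2 hmeet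
        omega
      · intro z hz
        apply hTc
        intro i hi
        by_cases hiQ : i ∈ S ∪ S'
        · have : i ∉ (S ∪ S')ᶜ := fun h => Finset.mem_compl.1 h hiQ
          simp only [mix, this, if_false]
        · have : i ∈ (S ∪ S')ᶜ := Finset.mem_compl.2 hiQ
          simp only [mix, this, if_true]
          exact hz i (Finset.mem_sdiff.2 ⟨hi, hiQ⟩)
    refine comp_mono ?_ hQ
    have := Finset.card_union_le S S'
    nlinarith

end Pool.Agent.Lib_helper30.AA
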