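import Pool.Agent.Lib_helper30.AA.Pull

set_option autoImplicit false
set_option linter.unusedSectionVars false

open Finset Polynomial

namespace Pool.Agent.Lib_helper30.AA

section Weight

variable {V I : Type} [Fintype V] [DecidableEq V] [Nonempty V] [Fintype I] [DecidableEq I]
  [MulAction (Equiv.Perm V) I]

/-- number of pairs of intersecting `r`-subsets -/
lemma card_not_disjoint_le (r : ℕ) :
    ((((powersetCard r (univ : Finset V)) ×ˢ (powersetCard r (univ : Finset V))).filter
      (fun p => ¬ Disjoint p.1 p.2)).card : ℝ) ≤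
      (r : ℝ) ^ 2 / (Fintype.card V) * ((Fintype.card V).choose r : ℝ) ^ 2 := by
  classical
  set Q := powersetCard r (univ : Finset V) with hQ
  have h1 : ((Q ×ˢ Q).filter (fun p => ¬ Disjoint p.1 p.2)) ⊆
      (univ : Finset V).biUnion (fun v => (Q.filter (fun W => {v} ⊆ W)) ×ˢ
        (Q.filter (fun W => {v} ⊆ W))) := by
    rintro ⟨W, W'⟩ h
    rw [mem_filter, mem_product] at h
    rw [Finset.not_disjoint_iff] at h
    obtain ⟨⟨hW, hW'⟩, v, hv, hv'⟩ := h
    rw [mem_biUnion]
    refine ⟨v, mem_univ _, ?_⟩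
    rw [mem_product, mem_filter, mem_filter]
    exact ⟨⟨hW, by simpa using hv⟩, ⟨hW', by simpa using hv'⟩⟩
  have hm : (0 : ℝ) < Fintype.card V := by exact_mod_cast Fintype.card_pos
  have h2 : ∀ v : V, ((Q.filter (fun W => {v} ⊆ W)).card : ℝ) =
      (r : ℝ) / (Fintype.card V) * ((Fintype.card V).choose r : ℝ) := by
    intro v
    have h := card_supersets_mul (C := ({v} : Finset V)) (r := r)
    rw [card_singleton, Nat.descFactorial_one, Nat.descFactorial_one] at h
    have h' : ((Q.filter (fun W => {v} ⊆ W)).card : ℝ) * (Fintype.card V : ℝ) =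
        ((Fintype.card V).choose r : ℝ) * r := by exact_mod_cast h
    field_simp
    linarith
  calc (((Q ×ˢ Q).filter (fun p => ¬ Disjoint p.1 p.2)).card : ℝ)
      ≤ (((univ : Finset V).biUnion (fun v => (Q.filter (fun W => {v} ⊆ W)) ×ˢ
        (Q.filter (fun W => {v} ⊆ W)))).card : ℝ) := by exact_mod_cast card_le_card h1
    _ ≤ ∑ v : V, (((Q.filter (fun W => {v} ⊆ W)) ×ˢ (Q.filter (fun W => {v} ⊆ W))).card : ℝ) := by
        exact_mod_cast card_biUnion_le
    _ = ∑ v : V, ((r : ℝ) / (Fintype.card V) * ((Fintype.card V).choose r : ℝ)) ^ 2 := by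
        refine Finset.sum_congr rfl fun v _ => ?_
        rw [card_product, Nat.cast_mul, h2 v]
        ring
    _ = (r : ℝ) ^ 2 / (Fintype.card V) * ((Fintype.card V).choose r : ℝ) ^ 2 := by
        rw [Finset.sum_const, card_univ, nsmul_eq_mul]
        field_simp

open Classical in
/-- Indices fixed by all permutations. -/
noncomputable def FixSet (V I : Type) [Fintype I] [MulAction (Equiv.Perm V) I] : Finset I :=
  Finset.univ.filter (fun i => ∀ σ : Equiv.Perm V, σ • i = i)

open Classical in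
/-- Indices supported by `W`. -/
noncomputable def SuppSet (W : Finset V) (I : Type) [Fintype I] [MulAction (Equiv.Perm V) I] :
    Finset I :=
  Finset.univ.filter (fun i => Supp W i)

/-- The weight bound: an invariant bounded function of degree `≤ d` has little Fourier weight on
the sets which contain an index moved by the symmetric group of `V`. -/
lemma weight_le {s : I → Finset V} (hs : ∀ i, Supp (s i) i) {d l D : ℕ}
    (hl : ∀ i, (s i).card ≤ l) (hD : 1 ≤ D) (hdl : d * l ≤ D + 1)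
    {f : (I → Bool) → ℝ} (hf : ∀ x, |f x| ≤ 1)
    (hinv : ∀ (σ : Equiv.Perm V) (x : I → Bool), f (fun i => x (σ • i)) = f x)
    (hdeg : ∀ S : Finset I, d < S.card → coef f S = 0)
    (hm : 64 * D ^ 4 ≤ Fintype.card V) {r : ℕ} (hr : 8 * D ^ 2 ≤ r)
    (hrm : 2 * r + 1 ≤ Fintype.card V) :
    ∑ S ∈ (univ : Finset (Finset I)).filter (fun S => ¬ S ⊆ FixSet V I), coef f S ^ 2 ≤
      2 * ((r : ℝ) ^ 2 / (Fintype.card V)) + 2 * (64 * (D : ℝ) ^ 4 / r) ^ 2 := by
  classical
  set m := Fintype.card V with hmdef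
  set Q := powersetCard r (univ : Finset V) with hQ
  have h1r : 1 ≤ r := by
    have : 1 ≤ D ^ 2 := Nat.one_le_pow _ _ hD
    omega
  have hr0 : (0 : ℝ) < r := by exact_mod_cast h1r
  have hch : (0 : ℝ) < (m.choose r : ℝ) := by
    have : 0 < m.choose r := Nat.choose_pos (by omega)
    exact_mod_cast this
  set h : (I → Bool) → ℝ := fun x => avg r (fun b : V → V => f (pull s b x)) with hh
  set g : Finset V → (I → Bool) → ℝ := fun W x =>
    ((r : ℝ) ^ m)⁻¹ * ∑ b ∈ Fintype.piFinset (fun _ : V => W), f (pull s b x) with hg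
  have hhg : h = fun x => (m.choose r : ℝ)⁻¹ * ∑ W ∈ Q, g W x := by
    funext x
    simp only [hh, hg, avg]
    rw [← Finset.mul_sum, ← mul_assoc, ← mul_inv]
  -- approximation
  have happ : ∀ x, |f x - h x| ≤ 64 * (D : ℝ) ^ 4 / r := fun x =>
    approx hs hl hD hdl hf hinv hdeg hm hr (by omega) x
  set T := (univ : Finset (Finset I)).filter (fun S => ¬ S ⊆ FixSet V I) with hT
  have hsplit : ∑ S ∈ T, coef f S ^ 2 ≤
      2 * ∑ S ∈ T, coef h S ^ 2 + 2 * ∑ S ∈ T, coef (fun x => f x - h x) S ^ 2 := by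
    rw [Finset.mul_sum, Finset.mul_sum, ← Finset.sum_add_distrib]
    refine Finset.sum_le_sum fun S _ => ?_
    have : coef f S = coef h S + coef (fun x => f x - h x) S := by
      rw [coef_sub]; ring
    rw [this]
    nlinarith [sq_nonneg (coef h S - coef (fun x => f x - h x) S)]
  have hB : ∑ S ∈ T, coef (fun x => f x - h x) S ^ 2 ≤ (64 * (D : ℝ) ^ 4 / r) ^ 2 :=
    sum_coef_sq_le happ T
  -- g is bounded
  have hgb : ∀ W ∈ Q, ∀ x, |g W x| ≤ 1 := by
    intro W hW x
    simp only [hg]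
    have hpos : 0 < (r : ℝ) ^ m := by positivity
    rw [abs_mul, abs_of_pos (inv_pos.mpr hpos), inv_mul_le_iff₀ hpos, mul_one]
    refine (Finset.abs_sum_le_sum_abs _ _).trans ?_
    calc ∑ b ∈ Fintype.piFinset (fun _ : V => W), |f (pull s b x)|
        ≤ ∑ b ∈ Fintype.piFinset (fun _ : V => W), (1 : ℝ) :=
          Finset.sum_le_sum fun b _ => hf _
      _ = (r : ℝ) ^ m := by
          rw [Finset.sum_const, Fintype.card_piFinset]
          simp [(mem_powersetCard.mp hW).2, hmdef]
  -- g depends only on SuppSet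
  have hgd : ∀ W : Finset V, ∀ x y : I → Bool, (∀ i ∈ SuppSet W I, x i = y i) → g W x = g W y := by
    intro W x y hxy
    simp only [hg]
    congr 1
    refine Finset.sum_congr rfl fun b hb => ?_
    rw [pull_dep hs (W := W) (fun v => (Fintype.mem_piFinset.mp hb) v) (x := x) (y := y)]
    intro i hi
    apply hxy
    simp [SuppSet, hi]
  have hcross : ∀ W ∈ Q, ∀ W' ∈ Q, Disjoint W W' →
      ∑ S ∈ T, coef (g W) S * coef (g W') S = 0 := by
    intro W hW W' hW' hd
    refine Finset.sum_eq_zero fun S hS => ?_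
    by_cases h1 : S ⊆ SuppSet W I
    · by_cases h2 : S ⊆ SuppSet W' I
      · exfalso
        rw [hT, mem_filter] at hS
        apply hS.2
        intro i hi
        have h3 := h1 hi
        have h4 := h2 hi
        simp only [SuppSet, mem_filter, mem_univ, true_and] at h3 h4
        simp only [FixSet, mem_filter, mem_univ, true_and]
        intro σ
        refine fixed_of_supp hd ?_ h3 h4 σ
        rw [card_union_of_disjoint hd, (mem_powersetCard.mp hW).2, (mem_powersetCard.mp hW').2]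
        omega
      · rw [coef_eq_zero_of_dep (hgd W') h2, mul_zero]
    · rw [coef_eq_zero_of_dep (hgd W) h1, zero_mul]
  have hcross' : ∀ W ∈ Q, ∀ W' ∈ Q,
      ∑ S ∈ T, coef (g W) S * coef (g W') S ≤ 1 := by
    intro W hW W' hW'
    calc ∑ S ∈ T, coef (g W) S * coef (g W') S
        ≤ ∑ S ∈ T, (coef (g W) S ^ 2 + coef (g W') S ^ 2) / 2 := by
          refine Finset.sum_le_sum fun S _ => ?_
          nlinarith [sq_nonneg (coef (g W) S - coef (g W') S)]
      _ = (∑ S ∈ T, coef (g W) S ^ 2 + ∑ S ∈ T, coef (g W') S ^ 2) / 2 := by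
          rw [← Finset.sum_add_distrib, Finset.sum_div]
      _ ≤ ((1 : ℝ) ^ 2 + (1 : ℝ) ^ 2) / 2 := by
          have h1 := sum_coef_sq_le (hgb W hW) T
          have h2 := sum_coef_sq_le (hgb W' hW') T
          linarith
      _ = 1 := by norm_num
  have hA : ∑ S ∈ T, coef h S ^ 2 ≤ (r : ℝ) ^ 2 / m := by
    have h1 : ∀ S, coef h S = (m.choose r : ℝ)⁻¹ * ∑ W ∈ Q, coef (g W) S := by
      intro S
      rw [hhg, coef_const_mul, coef_sum]
    have h2 : ∑ S ∈ T, coef h S ^ 2 = ((m.choose r : ℝ)⁻¹) ^ 2 *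
        ∑ p ∈ Q ×ˢ Q, ∑ S ∈ T, coef (g p.1) S * coef (g p.2) S := by
      rw [Finset.sum_comm, Finset.mul_sum]
      refine Finset.sum_congr rfl fun S _ => ?_
      rw [h1, mul_pow, sq (∑ W ∈ Q, coef (g W) S), Finset.sum_mul_sum, ← Finset.sum_product']
    rw [h2]
    have h3 : ∑ p ∈ Q ×ˢ Q, ∑ S ∈ T, coef (g p.1) S * coef (g p.2) S ≤
        (((Q ×ˢ Q).filter (fun p => ¬ Disjoint p.1 p.2)).card : ℝ) := by
      rw [← Finset.sum_filter_add_sum_filter_not (Q ×ˢ Q) (fun p => ¬ Disjoint p.1 p.2)]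
      have h4 : ∑ p ∈ (Q ×ˢ Q).filter (fun p => ¬ ¬ Disjoint p.1 p.2),
          ∑ S ∈ T, coef (g p.1) S * coef (g p.2) S = 0 := by
        refine Finset.sum_eq_zero fun p hp => ?_
        rw [mem_filter, mem_product, not_not] at hp
        exact hcross _ hp.1.1 _ hp.1.2 hp.2
      rw [h4, add_zero]
      calc ∑ p ∈ (Q ×ˢ Q).filter (fun p => ¬ Disjoint p.1 p.2),
          ∑ S ∈ T, coef (g p.1) S * coef (g p.2) S
          ≤ ∑ p ∈ (Q ×ˢ Q).filter (fun p => ¬ Disjoint p.1 p.2), (1 : ℝ) := by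
            refine Finset.sum_le_sum fun p hp => ?_
            rw [mem_filter, mem_product] at hp
            exact hcross' _ hp.1.1 _ hp.1.2
        _ = _ := by simp
    have h5 := card_not_disjoint_le (V := V) r
    calc ((m.choose r : ℝ)⁻¹) ^ 2 * ∑ p ∈ Q ×ˢ Q, ∑ S ∈ T, coef (g p.1) S * coef (g p.2) S
        ≤ ((m.choose r : ℝ)⁻¹) ^ 2 * ((r : ℝ) ^ 2 / m * ((m.choose r : ℝ)) ^ 2) := by
          refine mul_le_mul_of_nonneg_left (h3.trans h5) (by positivity)
      _ = (r : ℝ) ^ 2 / m := by field_simp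
  linarith

end Weight

end Pool.Agent.Lib_helper30.AA
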